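import Mathlib
import Pool.Agent.H373R2.SH.ShiftCore

namespace Pool.Agent.H373R2.T3
open Finset Polynomial
open Pool.Agent.H646 (rat)
open Pool.Agent.H646.TuplesM (rat_ge_one rat_nonneg)
open Pool.Agent.H373R2.BH (card_filter_real pair_window single_window LD)
open Pool.Agent.H373R2.SH

variable {k : ℕ}

/-- second moment for shift families -/
theorem secondB (B : ℕ) (hB1 : 1 ≤ B) (hk : 1 ≤ k) (f : Fin k → ℕ[X]) (hf : ∀ i, 1 ≤ (f i).natDegree) :
    ∃ C : ℝ, 0 < C ∧ ∃ x₀ : ℕ, ∀ x : ℕ, x₀ ≤ x → ∀ H : Fin k → ℕ, (∀ i, x ≤ H i ^ B) →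
      ∑ h ∈ Sx H, (cntS (fun i n => (f i).eval n) h x : ℝ) ^ 2 ≤ C * ((x : ℝ) ^ 2 / (Real.log x) ^ (2 * k) * #(Sx H)) := by
  obtain ⟨C₁, hC₁, A, H₁, hpair⟩ := pair_window
  obtain ⟨C₂, hC₂, H₂, hsing⟩ := single_window
  obtain ⟨C₃, hC₃, hmom⟩ := rat_prod_moment hk f hf A
  have hlogt : Filter.Tendsto (fun x : ℕ => Real.log (x : ℝ)) Filter.atTop Filter.atTop :=
    Real.tendsto_log_atTop.comp tendsto_natCast_atTop_atTop
  obtain ⟨x₁, hx₁⟩ := Filter.eventually_atTop.1 (hlogt.eventually_ge_atTop 1)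
  have hlogpow : ∀ᶠ x : ℕ in Filter.atTop, (Real.log (x : ℝ)) ^ k ≤ x := by
    have h1 : (fun x : ℝ => (Real.log x) ^ k) =o[Filter.atTop] (fun x : ℝ => x) := by
      exact Real.isLittleO_pow_log_id_atTop (n := k)
    have h2 := (h1.bound (show (0 : ℝ) < 1 by norm_num))
    have h3 := tendsto_natCast_atTop_atTop (R := ℝ) |>.eventually h2
    filter_upwards [h3, Filter.eventually_ge_atTop 1] with x hx hx1
    have hlog0 : 0 ≤ Real.log (x : ℝ) := Real.log_nonneg (by exact_mod_cast hx1)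
    rw [one_mul, Real.norm_of_nonneg (by positivity), Real.norm_of_nonneg (by positivity)] at hx
    exact hx
  obtain ⟨x₂, hx₂⟩ := Filter.eventually_atTop.1 hlogpow
  have hBr : (1 : ℝ) ≤ B := by exact_mod_cast hB1
  have hBr0 : (0 : ℝ) < B := by linarith
  refine ⟨2 * ((C₁ * (B : ℝ) ^ 2) ^ k * C₃) + (C₂ * B) ^ k, by positivity, x₁ + x₂ + (H₁ + H₂ + 2) ^ B + 2, fun x hx H hH => ?_⟩
  have hHbig : ∀ i, H₁ + H₂ + 2 ≤ H i := by
    intro i
    by_contra h
    push Not at h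
    have h1 : H i ^ B ≤ (H₁ + H₂ + 2) ^ B := Nat.pow_le_pow_left h.le B
    have := hH i
    omega
  set N : ℝ := (#(Sx H) : ℝ) with hN
  have hN0 : 0 ≤ N := Nat.cast_nonneg _
  have hlog1 : 1 ≤ Real.log x := hx₁ x (by omega)
  have hlogk : (Real.log x) ^ k ≤ x := hx₂ x (by omega)
  have hx0 : (0 : ℝ) < x := by exact_mod_cast (by omega : 0 < x)
  have hlogH : ∀ i, Real.log x / B ≤ Real.log (H i) := fun i => by
    rw [div_le_iff₀ hBr0]
    have h1 : Real.log x ≤ Real.log ((H i : ℝ) ^ B) := Real.log_le_log hx0 (by exact_mod_cast hH i)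
    rw [Real.log_pow] at h1
    linarith
  set L := Real.log x with hL
  have hL0 : 0 < L := by linarith
  set W : ℕ → ℕ → ℝ := fun n m => ∏ i, (#{u ∈ Icc 1 (H i) | (u + (f i).eval m).Prime ∧ (u + (f i).eval n).Prime} : ℝ) with hW
  have hWsymm : ∀ n m, W n m = W m n := by
    intro n m
    simp only [hW]
    apply prod_congr rfl
    intro i _
    congr 2
    ext u
    simp only [mem_filter]
    tauto
  have hdiag : ∀ n, W n n ≤ (C₂ * B) ^ k / L ^ k * N := by
    intro n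
    simp only [hW]
    rw [hN, card_Sx]
    have : (C₂ * B) ^ k / L ^ k * ∏ i, (H i : ℝ) = ∏ i : Fin k, (C₂ * B / L * (H i : ℝ)) := by
      rw [prod_mul_distrib, prod_const, card_fin, div_pow]
    rw [this]
    apply prod_le_prod
    · intro i _; exact Nat.cast_nonneg _
    · intro i _
      simp only [and_self]
      refine (hsing (H i) (by have := hHbig i; omega) ((f i).eval n)).trans ?_
      have hLi := hlogH i
      calc C₂ * (H i : ℝ) / Real.log (H i) ≤ C₂ * (H i : ℝ) / (L / B) :=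
            div_le_div_of_nonneg_left (by positivity) (by positivity) hLi
        _ = C₂ * B / L * (H i : ℝ) := by field_simp
  have hoff : ∀ m n, 1 ≤ m → m < n → W n m ≤ (C₁ * (B : ℝ) ^ 2) ^ k / L ^ (2 * k) * N * ∏ i, rat ((f i).eval n - (f i).eval m) ^ A := by
    intro m n hm hmn
    simp only [hW]
    rw [hN, card_Sx]
    have : (C₁ * (B : ℝ) ^ 2) ^ k / L ^ (2 * k) * (∏ i, (H i : ℝ)) * ∏ i, rat ((f i).eval n - (f i).eval m) ^ A =
        ∏ i : Fin k, (C₁ * (B : ℝ) ^ 2 / L ^ 2 * (H i : ℝ) * rat ((f i).eval n - (f i).eval m) ^ A) := by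
      rw [prod_mul_distrib, prod_mul_distrib, prod_const, card_fin, div_pow, ← pow_mul]
    rw [this]
    apply prod_le_prod
    · intro i _; exact Nat.cast_nonneg _
    · intro i _
      refine (hpair (H i) (by have := hHbig i; omega) _ _ (eval_strict (f i) (hf i) hm hmn)).trans ?_
      apply mul_le_mul_of_nonneg_right _ (pow_nonneg (rat_nonneg _) _)
      calc C₁ * (H i : ℝ) / (Real.log (H i)) ^ 2 ≤ C₁ * (H i : ℝ) / (L / B) ^ 2 := by
            apply div_le_div_of_nonneg_left (by positivity) (by positivity)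
            exact pow_le_pow_left₀ (by positivity) (hlogH i) 2
        _ = C₁ * (B : ℝ) ^ 2 / L ^ 2 * (H i : ℝ) := by field_simp
  rw [sum_cntS_sq]
  have hsplit : ∑ n ∈ Icc 1 x, ∑ m ∈ Icc 1 x, W n m ≤
      2 * ∑ m ∈ Icc 1 x, ∑ n ∈ (Icc 1 x).filter (fun n => m < n), W n m + ∑ n ∈ Icc 1 x, W n n := by
    have h1 : ∀ n ∈ Icc 1 x, ∑ m ∈ Icc 1 x, W n m =
        ∑ m ∈ (Icc 1 x).filter (fun m => m < n), W n m + ∑ m ∈ (Icc 1 x).filter (fun m => n < m), W n m + W n n := by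
      intro n hn
      have e1 : Icc 1 x = (Icc 1 x).filter (fun m => m < n) ∪ ((Icc 1 x).filter (fun m => n < m) ∪ {n}) := by
        ext m
        simp only [mem_union, mem_filter, mem_singleton]
        constructor
        · intro hm
          rcases lt_trichotomy m n with h | h | h
          · exact Or.inl ⟨hm, h⟩
          · exact Or.inr (Or.inr h)
          · exact Or.inr (Or.inl ⟨hm, h⟩)
        · rintro (h | h | h)
          · exact h.1
          · exact h.1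
          · rw [h]; exact hn
      have d1 : Disjoint ((Icc 1 x).filter (fun m => m < n)) ((Icc 1 x).filter (fun m => n < m) ∪ {n}) := by
        rw [disjoint_left]
        intro m hm hm'
        simp only [mem_union, mem_filter, mem_singleton] at hm hm'
        rcases hm' with h | h <;> omega
      have d2 : Disjoint ((Icc 1 x).filter (fun m => n < m)) ({n} : Finset ℕ) := by
        rw [disjoint_singleton_right, mem_filter]
        exact fun h => lt_irrefl _ h.2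
      conv_lhs => rw [e1]
      rw [sum_union d1, sum_union d2, sum_singleton]
      ring
    rw [sum_congr rfl h1, sum_add_distrib, sum_add_distrib]
    have h2 : ∑ n ∈ Icc 1 x, ∑ m ∈ (Icc 1 x).filter (fun m => m < n), W n m =
        ∑ m ∈ Icc 1 x, ∑ n ∈ (Icc 1 x).filter (fun n => m < n), W n m := by
      apply sum_comm'
      intro n m
      simp only [mem_filter]
      tauto
    have h3 : ∑ n ∈ Icc 1 x, ∑ m ∈ (Icc 1 x).filter (fun m => n < m), W n m =
        ∑ m ∈ Icc 1 x, ∑ n ∈ (Icc 1 x).filter (fun n => m < n), W n m := by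
      apply sum_congr rfl; intro n _
      apply sum_congr rfl; intro m _
      exact hWsymm n m
    rw [h2, h3]
    linarith
  refine hsplit.trans ?_
  have hA : ∑ m ∈ Icc 1 x, ∑ n ∈ (Icc 1 x).filter (fun n => m < n), W n m ≤
      (C₁ * (B : ℝ) ^ 2) ^ k / L ^ (2 * k) * N * (C₃ * (x : ℝ) ^ 2) := by
    calc _ ≤ ∑ m ∈ Icc 1 x, ∑ n ∈ (Icc 1 x).filter (fun n => m < n),
          (C₁ * (B : ℝ) ^ 2) ^ k / L ^ (2 * k) * N * ∏ i, rat ((f i).eval n - (f i).eval m) ^ A := by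
          apply sum_le_sum; intro m hm
          apply sum_le_sum; intro n hn
          exact hoff m n (mem_Icc.1 hm).1 (mem_filter.1 hn).2
      _ = (C₁ * (B : ℝ) ^ 2) ^ k / L ^ (2 * k) * N * ∑ m ∈ Icc 1 x, ∑ n ∈ (Icc 1 x).filter (fun n => m < n),
          ∏ i, rat ((f i).eval n - (f i).eval m) ^ A := by
          rw [mul_sum]
          apply sum_congr rfl; intro m _
          rw [mul_sum]
      _ ≤ _ := mul_le_mul_of_nonneg_left (hmom x (by omega)) (by positivity)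
  have hB : ∑ n ∈ Icc 1 x, W n n ≤ x * ((C₂ * B) ^ k / L ^ k * N) := by
    calc _ ≤ ∑ _n ∈ Icc 1 x, (C₂ * B) ^ k / L ^ k * N := sum_le_sum fun n _ => hdiag n
      _ = _ := by rw [sum_const, Nat.card_Icc, Nat.add_sub_cancel, nsmul_eq_mul]
  have hB2 : x * ((C₂ * B) ^ k / L ^ k * N) ≤ (C₂ * B) ^ k * ((x : ℝ) ^ 2 / L ^ (2 * k) * N) := by
    have h1 : (x : ℝ) / L ^ k ≤ (x : ℝ) ^ 2 / L ^ (2 * k) := by
      rw [div_le_div_iff₀ (by positivity) (by positivity)]
      have h2 : L ^ (2 * k) = L ^ k * L ^ k := by rw [two_mul, pow_add]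
      rw [h2]
      have h3 : (x : ℝ) * (L ^ k * L ^ k) ≤ x * (x * L ^ k) := by
        apply mul_le_mul_of_nonneg_left _ hx0.le
        exact mul_le_mul_of_nonneg_right hlogk (by positivity)
      linarith
    calc x * ((C₂ * B) ^ k / L ^ k * N) = (C₂ * B) ^ k * (x / L ^ k * N) := by ring
      _ ≤ _ := by
          apply mul_le_mul_of_nonneg_left _ (by positivity)
          exact mul_le_mul_of_nonneg_right h1 hN0
  calc _ ≤ 2 * ((C₁ * (B : ℝ) ^ 2) ^ k / L ^ (2 * k) * N * (C₃ * (x : ℝ) ^ 2)) + (C₂ * B) ^ k * ((x : ℝ) ^ 2 / L ^ (2 * k) * N) :=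
        add_le_add (mul_le_mul_of_nonneg_left hA (by norm_num)) (hB.trans hB2)
    _ = _ := by ring

open Classical in
/-- positive proportion from a first moment: shift families of one polynomial -/
theorem core_B (B₀ : ℕ) (hB₀ : 1 ≤ B₀) (hk : 1 ≤ k) (f : ℕ[X]) (hf : 1 ≤ f.natDegree) (θ : ℝ) (hθ0 : 0 < θ) (hθ1 : θ < 1) :
    ∃ ε₁ : ℝ, 0 < ε₁ ∧ ∃ c : ℝ, 0 < c ∧ ∃ y₀ x₀ : ℕ, ∀ x : ℕ, x₀ ≤ x → ∀ H : ℕ, x ≤ H ^ B₀ →
      (1 - ε₁) * (x * H / (f.natDegree * Real.log x)) ≤ ∑ n ∈ Icc 1 x, (#{u ∈ Icc 1 H | (u + f.eval n).Prime} : ℝ) →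
      ∀ z : ℕ, y₀ ≤ z → z ^ 5 ≤ H →
      c * (H : ℝ) ^ k ≤ #((Sx (fun _ : Fin k => H)).filter (fun h =>
        θ * sgS (fun _ n => f.eval n) h z * (x / (f.natDegree * Real.log x) ^ k) ≤ cntS (fun _ n => f.eval n) h x ∧
        c * (x / (f.natDegree * Real.log x) ^ k) ≤ cntS (fun _ n => f.eval n) h x ∧ Function.Injective h)) := by
  set d := f.natDegree with hd
  have hd1 : (1 : ℝ) ≤ d := by exact_mod_cast hf
  set θ' : ℝ := (1 + θ) / 2 with hθ'
  have hθ'1 : θ' < 1 := by rw [hθ']; linarith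
  have hθ'0 : θ < θ' := by rw [hθ']; linarith
  have hθ'pos : 0 < θ' := by linarith
  set ε : ℝ := (1 - θ') / 4 with hε
  have hε0 : 0 < ε := by rw [hε]; linarith
  have hε1 : ε ≤ 1 := by rw [hε]; linarith
  set η : ℝ := Real.log (θ' / θ) with hη
  have hη0 : 0 < η := Real.log_pos (by rw [lt_div_iff₀ hθ0]; linarith)
  have hexp : Real.exp η = θ' / θ := Real.exp_log (by positivity)
  have hkr : (1 : ℝ) ≤ k := by exact_mod_cast hk
  set ε₁ : ℝ := ε / k with hε₁
  have hε₁0 : 0 < ε₁ := by positivity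
  have hε₁1 : ε₁ ≤ 1 := by rw [hε₁, div_le_one (by linarith)]; linarith
  obtain ⟨C, hC, x₁, hsecond⟩ := secondB B₀ hB₀ hk (fun _ : Fin k => f) (fun _ => hf)
  obtain ⟨D, hD1, hD⟩ := roots_le f hf
  obtain ⟨CT, hCT, htail⟩ := tailS k D
  set C₂ : ℝ := C * (d : ℝ) ^ (2 * k) with hC₂
  have hC₂0 : 0 < C₂ := by positivity
  set c₁ : ℝ := ε ^ 2 / C₂ with hc₁
  have hc₁0 : 0 < c₁ := by positivity
  obtain ⟨y, hy⟩ := exists_nat_gt (8 * CT / (η ^ 2 * c₁))
  have hy0 : (0 : ℝ) < y := lt_trans (by positivity) hy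
  have hy1 : 1 ≤ y := by exact_mod_cast (show (0 : ℝ) < (y : ℕ) from hy0)
  set P : ℕ := ∏ p ∈ (range (y + 1)).filter Nat.Prime, p with hP
  have hlim : Filter.Tendsto (fun H : ℕ => (1 + (P : ℝ) / (H : ℝ)) ^ k) Filter.atTop (nhds ((1 + 0) ^ k)) := by
    apply Filter.Tendsto.pow
    exact Filter.Tendsto.add tendsto_const_nhds (tendsto_const_div_atTop_nhds_zero_nat (P : ℝ))
  rw [add_zero, one_pow] at hlim
  have hev := (hlim.eventually (gt_mem_nhds (show (1 : ℝ) < 1 + ε by linarith)))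
  obtain ⟨H₂, hH₂⟩ := Filter.eventually_atTop.1 hev
  obtain ⟨H₃, hH₃⟩ := exists_nat_gt (4 * (k : ℝ) ^ 2 / c₁)
  refine ⟨ε₁, hε₁0, min (c₁ / 2) ε, lt_min (by positivity) hε0, y, x₁ + (H₂ + H₃ + 3) ^ B₀ + 3,
    fun x hx H hxH hfirst z hyz hz5 => ?_⟩
  have hHbig : H₂ + H₃ + 3 ≤ H := by
    by_contra h
    push Not at h
    have h1 : H ^ B₀ ≤ (H₂ + H₃ + 3) ^ B₀ := Nat.pow_le_pow_left h.le B₀
    omega
  set F : Fin k → ℕ → ℕ := fun _ n => f.eval n with hF
  set B := Sx (fun _ : Fin k => H) with hB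
  have hBcard : (#B : ℝ) = (H : ℝ) ^ k := by
    rw [hB, card_Sx, prod_const, card_fin]
  have hH2 : 2 ≤ H := by omega
  have hHpos : (0 : ℝ) < H := by exact_mod_cast (by omega : 0 < H)
  have hx3 : 3 ≤ x := by omega
  have hx0 : (0 : ℝ) < x := by exact_mod_cast (by omega : 0 < x)
  have hlog0 : 0 < Real.log x := Real.log_pos (by exact_mod_cast (by omega : 1 < x))
  have hz1 : 1 ≤ z := hy1.trans hyz
  have hz2 : z ^ 2 ≤ H := (Nat.pow_le_pow_right hz1 (by norm_num)).trans hz5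
  set μ : ℝ := x / (d * Real.log x) ^ k with hμ
  have hμ0 : 0 < μ := by positivity
  -- first moment
  have hF1 : (1 - ε) * (μ * #B) ≤ ∑ h ∈ B, (cntS F h x : ℝ) := by
    rw [hB, sum_cntS]
    obtain ⟨k', hk'⟩ : ∃ k', k = k' + 1 := ⟨k - 1, by omega⟩
    set X : ℕ → ℝ := fun n => (#{u ∈ Icc 1 H | (u + f.eval n).Prime} : ℝ) with hX
    have h1 : ∀ n ∈ Icc 1 x, ∏ _i : Fin k, X n = X n ^ (k' + 1) := by
      intro n _
      rw [prod_const, card_fin, ← hk']
    have h2 : ∑ n ∈ Icc 1 x, ∏ i : Fin k, (#{u ∈ Icc 1 H | (u + F i n).Prime} : ℝ) = ∑ n ∈ Icc 1 x, X n ^ (k' + 1) :=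
      sum_congr rfl h1
    rw [h2]
    have h3 := pow_sum_div_card_le_sum_pow (s := Icc 1 x) (f := X) (fun n _ => Nat.cast_nonneg _) k'
    refine le_trans ?_ h3
    rw [Nat.card_Icc, Nat.add_sub_cancel, le_div_iff₀ (by positivity)]
    have h4 : (1 - ε) ≤ (1 - ε₁) ^ k := by
      have h5 : -2 ≤ -ε₁ := by linarith
      have h6 := one_add_mul_le_pow h5 k
      have h7 : 1 + (k : ℝ) * -ε₁ = 1 - ε := by rw [hε₁]; field_simp; ring
      rw [h7] at h6
      calc 1 - ε ≤ (1 + -ε₁) ^ k := h6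
        _ = _ := by ring
    have h8 : 0 ≤ (1 - ε₁) * (x * H / (d * Real.log x)) := by
      have : 0 ≤ 1 - ε₁ := by linarith
      positivity
    calc (1 - ε) * (μ * #(Sx fun _ : Fin k => H)) * (x : ℝ) ^ k' ≤ (1 - ε₁) ^ k * (μ * (H : ℝ) ^ k) * (x : ℝ) ^ k' := by
          have : (#(Sx fun _ : Fin k => H) : ℝ) = (H : ℝ) ^ k := hBcard
          rw [this]
          apply mul_le_mul_of_nonneg_right _ (by positivity)
          exact mul_le_mul_of_nonneg_right h4 (by positivity)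
      _ = ((1 - ε₁) * (x * H / (d * Real.log x))) ^ (k' + 1) := by
          rw [← hk', hμ, mul_pow (1 - ε₁), div_pow ((x : ℝ) * H), mul_pow (x : ℝ) (H : ℝ)]
          have : (x : ℝ) ^ k = x * (x : ℝ) ^ k' := by rw [hk', pow_succ]; ring
          rw [this]; ring
      _ ≤ _ := pow_le_pow_left₀ h8 hfirst (k' + 1)
  have hF2 : ∑ h ∈ B, (cntS F h x : ℝ) ^ 2 ≤ C₂ * (μ ^ 2 * #B) := by
    refine (hsecond x (by omega) (fun _ => H) (fun _ => hxH)).trans (le_of_eq ?_)
    rw [hC₂, hμ, div_pow, ← pow_mul, mul_comm k 2, mul_pow]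
    field_simp
    rfl
  have hF4 : ∑ h ∈ B, sgS F h y ≤ (1 + ε) * #B := by
    refine (sum_sgS_le k F (fun _ => LD_eval' f) y (fun _ => H) H (fun _ => le_rfl) (by omega)).trans ?_
    apply mul_le_mul_of_nonneg_right _ (Nat.cast_nonneg _)
    exact (hH₂ H (by omega)).le
  have hz0 : (0 : ℝ) < z := by exact_mod_cast hz1
  have hzy : (z : ℝ) ^ 4 / H ≤ 1 / y := by
    rw [div_le_div_iff₀ hHpos hy0, one_mul]
    have h5 : (z : ℝ) ^ 5 ≤ H := by exact_mod_cast hz5
    calc (z : ℝ) ^ 4 * y ≤ (z : ℝ) ^ 4 * z := by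
          apply mul_le_mul_of_nonneg_left _ (by positivity)
          exact_mod_cast hyz
      _ = (z : ℝ) ^ 5 := by ring
      _ ≤ H := h5
  have hF5 : ∑ h ∈ B, (TTS F h y z) ^ 2 ≤ (2 * CT / y) * #B := by
    refine (htail F (fun _ p hp c => hD p hp c) (fun _ => H) H y z (fun _ => le_rfl) hy1 hz2 hH2).trans ?_
    apply mul_le_mul_of_nonneg_right _ (Nat.cast_nonneg _)
    calc CT * (1 / y + (z : ℝ) ^ 4 / H) ≤ CT * (1 / y + 1 / y) := by
          apply mul_le_mul_of_nonneg_left _ hCT.le; linarith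
      _ = _ := by ring
  -- duplicates
  set U := (univ : Finset (Fin k × Fin k)).biUnion (fun q => if q.1 ≠ q.2 then B.filter (fun h => h q.1 = h q.2) else ∅)
    with hU
  have hUcard : (#U : ℝ) ≤ ((k : ℝ) ^ 2 / H) * #B := by
    have h1 : #U ≤ ∑ q : Fin k × Fin k, #(if q.1 ≠ q.2 then B.filter (fun h => h q.1 = h q.2) else ∅) := card_biUnion_le
    have h2 : ∀ q : Fin k × Fin k, (#(if q.1 ≠ q.2 then B.filter (fun h => h q.1 = h q.2) else ∅) : ℝ) ≤ #B / H := by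
      intro q
      split_ifs with h
      · rw [le_div_iff₀ hHpos]
        have := dup_Sx (fun _ : Fin k => H) q.1 q.2 h
        exact_mod_cast this
      · simp; positivity
    calc (#U : ℝ) ≤ ∑ q : Fin k × Fin k, (#(if q.1 ≠ q.2 then B.filter (fun h => h q.1 = h q.2) else ∅) : ℝ) := by
          exact_mod_cast h1
      _ ≤ ∑ _q : Fin k × Fin k, (#B : ℝ) / H := sum_le_sum fun q _ => h2 q
      _ = _ := by rw [sum_const, card_univ, Fintype.card_prod, Fintype.card_fin, nsmul_eq_mul]; push_cast; ring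
  have h4 : 4 * (k : ℝ) ^ 2 / c₁ < H := hH₃.trans_le (by exact_mod_cast (by omega : H₃ ≤ H))
  have hτ : 2 * CT / y ≤ η ^ 2 * (ε ^ 2 / C₂ / 4) := by
    rw [div_le_iff₀ hy0]
    rw [div_lt_iff₀ (by positivity)] at hy
    have : η ^ 2 * (ε ^ 2 / C₂ / 4) * y = (y * (η ^ 2 * c₁)) / 4 := by rw [hc₁]; ring
    rw [this]
    linarith
  have hυ : (k : ℝ) ^ 2 / H ≤ ε ^ 2 / C₂ / 4 := by
    rw [div_le_iff₀ hHpos]
    rw [div_lt_iff₀ hc₁0] at h4
    linarith
  obtain ⟨S, hSB, hScard, hS⟩ := gen_core B (fun h => (cntS F h x : ℝ)) (fun h => sgS F h y) (fun h => TTS F h y z) U μ ε θ' η C₂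
    (2 * CT / y) ((k : ℝ) ^ 2 / H) hμ0 hε0 hθ'pos (by rw [hε]; ring) hη0 hC₂0 (fun h _ => sgS_nonneg F h y)
    hF1 hF2 hF4 hF5 hUcard hτ hυ
  · rw [hBcard] at hScard
    have h5 : min (c₁ / 2) ε * (H : ℝ) ^ k ≤ c₁ / 2 * (H : ℝ) ^ k :=
      mul_le_mul_of_nonneg_right (min_le_left _ _) (by positivity)
    refine h5.trans (hScard.trans ?_)
    rw [Nat.cast_le]
    apply card_le_card
    intro h hh
    obtain ⟨h1, h2, hTT, hUa⟩ := hS h hh
    have hB' := hSB hh
    rw [mem_filter]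
    refine ⟨hB', ?_, ?_, ?_⟩
    · have h3 := sgS_le F h y z hyz
      have h4 : sgS F h y * Real.exp (TTS F h y z) ≤ sgS F h y * (θ' / θ) := by
        apply mul_le_mul_of_nonneg_left _ (sgS_nonneg F h y)
        rw [← hexp]; exact Real.exp_le_exp.2 hTT
      have h5 : θ * sgS F h z ≤ θ' * sgS F h y := by
        have := mul_le_mul_of_nonneg_left (h3.trans h4) hθ0.le
        calc θ * sgS F h z ≤ θ * (sgS F h y * (θ' / θ)) := this
          _ = θ' * sgS F h y := by field_simp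
      exact (mul_le_mul_of_nonneg_right h5 hμ0.le).trans h1
    · exact le_trans (mul_le_mul_of_nonneg_right (min_le_right _ _) hμ0.le) h2
    · intro i j hij
      by_contra hne
      apply hUa
      rw [hU, mem_biUnion]
      refine ⟨(i, j), mem_univ _, ?_⟩
      simp only [ne_eq, hne, not_false_eq_true, if_true]
      rw [mem_filter]
      exact ⟨hB', hij⟩

end Pool.Agent.H373R2.T3
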