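import Mathlib
import Pool.Agent.H373R2.T3.TypeI

namespace Pool.Agent.H373R2.T3
open Finset
open Pool.Agent.H469R2.NK (e norm_e e_add conj_e norm_sum_neg e_zero)
open Pool.Agent.Helper112 (betaV LamII)
open Pool.Agent.Helper112.TI (mu1 l1 mu1_apply l1_apply)
open Pool.Agent.Helper112.TII (betaV_abs betaV_zero)

lemma ev_log (K : ℝ) (δ : ℝ) (hδ : 0 < δ) (j : ℕ) : ∃ N₀ : ℕ, ∀ N : ℕ, N₀ ≤ N → K * (1 + Real.log (4 * N)) ^ j ≤ (N : ℝ) ^ δ := by
  have h1 : (fun x : ℝ => (Real.log x) ^ (j : ℝ)) =o[Filter.atTop] (fun x : ℝ => x ^ (δ / 2)) :=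
    isLittleO_log_rpow_rpow_atTop (j : ℝ) (by positivity)
  -- compare logs
  have hl : Filter.Tendsto (fun N : ℕ => (N : ℝ)) Filter.atTop Filter.atTop := tendsto_natCast_atTop_atTop
  have h2 := (h1.bound (show (0 : ℝ) < 1 by norm_num))
  have h3 := hl.eventually h2
  have h4 : Filter.Tendsto (fun N : ℕ => (N : ℝ) ^ (δ / 2)) Filter.atTop Filter.atTop :=
    (tendsto_rpow_atTop (by positivity)).comp hl
  have h5 := h4.eventually_ge_atTop (|K| * 3 ^ j)
  obtain ⟨N₀, hN₀⟩ := Filter.eventually_atTop.1 (h3.and h5)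
  refine ⟨N₀ + 12, fun N hN => ?_⟩
  obtain ⟨h6, h7⟩ := hN₀ N (by omega)
  have hN1 : (12 : ℝ) ≤ N := by exact_mod_cast (by omega : 12 ≤ N)
  have hN0 : (0 : ℝ) < N := by linarith
  have hlogN : 1 ≤ Real.log N := by
    rw [Real.le_log_iff_exp_le hN0]
    have := Real.exp_one_lt_d9
    linarith
  rw [Real.norm_of_nonneg (by positivity), Real.norm_of_nonneg (by positivity), one_mul, Real.rpow_natCast] at h6
  have h8 : 1 + Real.log (4 * N) ≤ 3 * Real.log N := by
    rw [Real.log_mul (by norm_num) hN0.ne']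
    have h9 : Real.log 4 ≤ Real.log N - 1 := by
      have h10 : Real.log (4 * Real.exp 1) ≤ Real.log N := by
        apply Real.log_le_log (by positivity)
        have := Real.exp_one_lt_d9
        linarith
      rw [Real.log_mul (by norm_num) (Real.exp_pos 1).ne', Real.log_exp] at h10
      linarith
    linarith
  have h9 : 0 ≤ 1 + Real.log (4 * (N : ℝ)) := by
    have := Real.log_nonneg (show (1 : ℝ) ≤ 4 * N by linarith)
    linarith
  calc K * (1 + Real.log (4 * N)) ^ j ≤ |K| * (3 * Real.log N) ^ j := by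
        apply mul_le_mul (le_abs_self K) (pow_le_pow_left₀ h9 h8 j) (by positivity) (abs_nonneg K)
    _ = (|K| * 3 ^ j) * (Real.log N) ^ j := by rw [mul_pow]; ring
    _ ≤ (N : ℝ) ^ (δ / 2) * (N : ℝ) ^ (δ / 2) := mul_le_mul h7 h6 (by positivity) (by positivity)
    _ = (N : ℝ) ^ δ := by rw [← Real.rpow_add hN0]; congr 1; ring

/-- exponential sums over primes -/
theorem exp_primes {α : ℝ} (h0 : 0 < α) (h1 : α < 1) (δ : ℝ) (hδ : 0 < δ) : ∃ N₀ : ℕ, ∀ N : ℕ, N₀ ≤ N → ∀ N' : ℕ, N ≤ N' →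
    N' ≤ 2 * N → ∀ κ : ℝ, 1 ≤ κ → κ ^ 3 * (N : ℝ) ^ (6 * δ) ≤ (N : ℝ) ^ (1 - α) → κ * (N : ℝ) ^ (6 * δ) ≤ (N : ℝ) ^ α →
    κ ^ 6 * (N : ℝ) ^ (18 * δ) ≤ N →
    ‖∑ n ∈ Ioc N N', ((ArithmeticFunction.vonMangoldt n : ℝ) : ℂ) * e (κ * (n : ℝ) ^ α)‖ ≤ (N : ℝ) ^ (1 - δ) / κ := by
  set C : ℝ := 18 + 12 * (160 / α ^ 2) with hC
  have hC0 : 0 < C := by positivity
  set K : ℝ := 120 / α + 16 * Real.sqrt C with hK
  have hK0 : 0 < K := by positivity
  obtain ⟨N₁, hN₁⟩ := ev_log (K + 20) δ hδ 6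
  refine ⟨N₁ + 12, ?_⟩
  intro N hN N' hNN' hN' κ hκ hc1 hc2 hc3
  have hN1 : (12 : ℝ) ≤ N := by exact_mod_cast (by omega : 12 ≤ N)
  have hN0 : (0 : ℝ) < N := by linarith
  have hκ0 : 0 < κ := by linarith
  set P : ℝ := (N : ℝ) ^ δ with hP
  set X : ℝ := (N : ℝ) ^ (1 - α) with hX
  set Z : ℝ := (N : ℝ) ^ α with hZ
  have hP0 : 0 < P := Real.rpow_pos_of_pos hN0 _
  have hX0 : 0 < X := Real.rpow_pos_of_pos hN0 _
  have hZ0 : 0 < Z := Real.rpow_pos_of_pos hN0 _
  have hXZ : X * Z = N := by rw [hX, hZ, ← Real.rpow_add hN0]; norm_num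
  have hP6 : (N : ℝ) ^ (6 * δ) = P ^ 6 := by
    rw [hP, ← Real.rpow_natCast, ← Real.rpow_mul hN0.le]; congr 1; push_cast; ring
  have hP18 : (N : ℝ) ^ (18 * δ) = P ^ 18 := by
    rw [hP, ← Real.rpow_natCast, ← Real.rpow_mul hN0.le]; congr 1; push_cast; ring
  have hPinv : (N : ℝ) ^ (1 - δ) = N / P := by
    rw [hP, Real.rpow_sub hN0, Real.rpow_one]
  rw [hP6] at hc1 hc2
  rw [hP18] at hc3
  rw [hPinv]
  set Lg : ℝ := 1 + Real.log (4 * N) with hLg
  have hlog4N : 0 ≤ Real.log (4 * (N : ℝ)) := Real.log_nonneg (by linarith)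
  have hLg1 : 1 ≤ Lg := by linarith
  have hLgP : (K + 20) * Lg ^ 6 ≤ P := hN₁ N (by omega)
  have hLg6 : 1 ≤ Lg ^ 6 := one_le_pow₀ hLg1
  have hP20 : 20 ≤ P := by nlinarith
  have hKP : K * Lg ^ 6 ≤ P := by nlinarith
  have hP1 : 1 ≤ P := by linarith
  have hlogle : ∀ t : ℝ, 1 ≤ t → t ≤ 4 * N → Real.log t ≤ Lg := by
    intro t ht ht2
    have := Real.log_le_log (by linarith) ht2
    linarith
  have hκ3 : κ ≤ κ ^ 3 := by nlinarith [mul_pos hκ0 hκ0]
  have hκ2 : 1 ≤ κ ^ 2 := one_le_pow₀ hκ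
  have hκ6 : κ ^ 2 ≤ κ ^ 6 := pow_le_pow_right₀ hκ (by norm_num)
  have hP56 : P ^ 5 ≤ P ^ 6 := pow_le_pow_right₀ hP1 (by norm_num)
  set T : ℝ := N / (κ ^ 2 * P ^ 5) with hT
  have hT0 : 0 < T := by positivity
  have ht1 : κ * Z ≤ T := by
    rw [hT, le_div_iff₀ (by positivity), ← hXZ]
    calc κ * Z * (κ ^ 2 * P ^ 5) = (κ ^ 3 * P ^ 5) * Z := by ring
      _ ≤ X * Z := by
          apply mul_le_mul_of_nonneg_right _ hZ0.le
          refine le_trans ?_ hc1
          exact mul_le_mul_of_nonneg_left hP56 (by positivity)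
  have ht2 : X / κ ≤ T := by
    rw [hT, div_le_div_iff₀ hκ0 (by positivity), ← hXZ]
    calc X * (κ ^ 2 * P ^ 5) = X * κ * (κ * P ^ 5) := by ring
      _ ≤ X * κ * Z := by
          apply mul_le_mul_of_nonneg_left _ (by positivity)
          refine le_trans ?_ hc2
          exact mul_le_mul_of_nonneg_left hP56 hκ0.le
      _ = X * Z * κ := by ring
  have hP6big : 400 ≤ P ^ 6 := by
    calc (400 : ℝ) ≤ 20 ^ 6 := by norm_num
      _ ≤ P ^ 6 := pow_le_pow_left₀ (by norm_num) hP20 6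
  have ht3 : 16 * κ ≤ X := by
    refine le_trans ?_ hc1
    nlinarith [pow_pos hκ0 3]
  set U : ℕ := ⌈2 * κ ^ 2 * P ^ 5⌉₊ with hU
  have hU1 : 2 * κ ^ 2 * P ^ 5 ≤ U := Nat.le_ceil _
  have hP5 : 1 ≤ P ^ 5 := one_le_pow₀ hP1
  have hkp : 1 ≤ κ ^ 2 * P ^ 5 := by nlinarith
  have hU2 : (U : ℝ) ≤ 3 * (κ ^ 2 * P ^ 5) := by
    have := (Nat.ceil_lt_add_one (show 0 ≤ 2 * κ ^ 2 * P ^ 5 by positivity)).le
    rw [← hU] at this
    linarith
  have hUpos : (0 : ℝ) < U := by linarith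
  have hUone : 1 ≤ U := by exact_mod_cast hUpos
  have hT2N : 2 * (N : ℝ) ≤ T * U := by
    rw [hT, div_mul_eq_mul_div, le_div_iff₀ (by positivity)]
    calc 2 * (N : ℝ) * (κ ^ 2 * P ^ 5) = (N : ℝ) * (2 * κ ^ 2 * P ^ 5) := by ring
      _ ≤ (N : ℝ) * (U : ℝ) := mul_le_mul_of_nonneg_left hU1 hN0.le
  have hUUT : (U : ℝ) * U ≤ T := by
    rw [hT, le_div_iff₀ (by positivity)]
    calc (U : ℝ) * U * (κ ^ 2 * P ^ 5) ≤ (3 * (κ ^ 2 * P ^ 5)) * (3 * (κ ^ 2 * P ^ 5)) * (κ ^ 2 * P ^ 5) := by gcongr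
      _ = κ ^ 6 * (9 * P ^ 15) := by ring
      _ ≤ κ ^ 6 * P ^ 18 := by
          apply mul_le_mul_of_nonneg_left _ (by positivity)
          have h9 : (9 : ℝ) ≤ P ^ 3 := by
            calc (9 : ℝ) ≤ 20 ^ 3 := by norm_num
              _ ≤ P ^ 3 := pow_le_pow_left₀ (by norm_num) hP20 3
          calc 9 * P ^ 15 ≤ P ^ 3 * P ^ 15 := mul_le_mul_of_nonneg_right h9 (by positivity)
            _ = P ^ 18 := by ring
      _ ≤ N := hc3
  have hTN : T < N := by
    rw [hT, div_lt_iff₀ (by positivity)]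
    have : 1 < κ ^ 2 * P ^ 5 := by
      have : (2 : ℝ) ≤ P ^ 5 := by
        calc (2 : ℝ) ≤ 20 ^ 5 := by norm_num
          _ ≤ P ^ 5 := pow_le_pow_left₀ (by norm_num) hP20 5
      nlinarith
    nlinarith
  have hUT : (U : ℝ) ≤ T := by
    have : (1 : ℝ) ≤ U := by exact_mod_cast hUone
    nlinarith
  have hUN : U ≤ N := by
    have : (U : ℝ) ≤ N := by linarith
    exact_mod_cast this
  have hUX : 4 * κ * U ≤ X := by
    calc 4 * κ * U ≤ 4 * κ * (3 * (κ ^ 2 * P ^ 5)) := mul_le_mul_of_nonneg_left hU2 (by positivity)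
      _ = κ ^ 3 * (12 * P ^ 5) := by ring
      _ ≤ κ ^ 3 * P ^ 6 := by
          apply mul_le_mul_of_nonneg_left _ (by positivity)
          calc 12 * P ^ 5 ≤ P * P ^ 5 := mul_le_mul_of_nonneg_right (by linarith) (by positivity)
            _ = P ^ 6 := by ring
      _ ≤ X := hc1
  have hN'1 : 1 ≤ N' := by omega
  have hN'r : (N' : ℝ) ≤ 2 * N := by exact_mod_cast hN'
  set E : ℕ → ℂ := fun n => e (κ * (n : ℝ) ^ α) with hE
  have hV := vaughan_sum U U N N' hUN E
  rw [hV]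
  set Y₀ : ℝ := 40 / α * (X / κ) with hY₀
  have hY₀0 : 0 < Y₀ := by positivity
  -- harmonic sum
  have hharm : ∑ m ∈ Icc 1 U, (1 : ℝ) / m ≤ Lg := by
    have := Pool.Agent.H316R2.harm_sum_le U
    have h2 : Real.log U ≤ Real.log (4 * N) := by
      apply Real.log_le_log hUpos
      have : (U : ℝ) ≤ N := by exact_mod_cast hUN
      linarith
    linarith
  -- the II-part with betaV
  have hS1 : ‖∑ m ∈ Icc 1 N', ∑ l ∈ Ioc (N / m) (N' / m), ((betaV U m : ℝ) : ℂ) *
      (((if U < l then ArithmeticFunction.vonMangoldt l else 0 : ℝ)) : ℂ) * E (m * l)‖ ≤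
      (Nat.log 2 N' + 1 : ℝ) ^ 2 * Real.sqrt (C * ((2 * Lg ^ 4) * Lg ^ 2 * (N * T * (1 + Real.log (2 * N + 1))))) := by
    apply bil_total h0 h1 κ hκ N N' (by omega) hN' (fun m => ((betaV U m : ℝ) : ℂ))
      (fun l => (((if U < l then ArithmeticFunction.vonMangoldt l else 0 : ℝ)) : ℂ)) (2 * Lg ^ 4) (Lg ^ 2) T
    · intro M hM hM2
      have hM0 : (0 : ℝ) < M := by exact_mod_cast hM
      calc ∑ m ∈ Ioc M (2 * M), ‖((betaV U m : ℝ) : ℂ)‖ ^ 2 ≤ ∑ m ∈ Ioc M (2 * M), 2 * M * ((m.divisors.card : ℝ) ^ 2 / m) := by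
            apply sum_le_sum; intro m hm
            rw [mem_Ioc] at hm
            have hm0 : (0 : ℝ) < m := by exact_mod_cast (by omega : 0 < m)
            rw [Complex.norm_real, Real.norm_eq_abs]
            have h2 : |betaV U m| ^ 2 ≤ (m.divisors.card : ℝ) ^ 2 := pow_le_pow_left₀ (abs_nonneg _) (betaV_abs U m) 2
            refine h2.trans ?_
            rw [mul_div_assoc', le_div_iff₀ hm0]
            have h3 : (m : ℝ) ≤ 2 * M := by exact_mod_cast hm.2
            nlinarith [sq_nonneg (m.divisors.card : ℝ)]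
        _ = 2 * M * ∑ m ∈ Ioc M (2 * M), ((m.divisors.card : ℝ) ^ 2 / m) := by rw [mul_sum]
        _ ≤ 2 * M * ∑ m ∈ Icc 1 (2 * M), ((m.divisors.card : ℝ) ^ 2 / m) := by
            apply mul_le_mul_of_nonneg_left _ (by positivity)
            apply sum_le_sum_of_subset_of_nonneg
            · intro m hm; rw [mem_Ioc] at hm; rw [mem_Icc]; omega
            · intro m _ _; positivity
        _ ≤ 2 * M * (1 + Real.log ((2 * M : ℕ) : ℝ)) ^ 4 := by
            apply mul_le_mul_of_nonneg_left _ (by positivity)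
            exact Pool.Agent.H316R2.tau_sq_sum_le (2 * M)
        _ ≤ 2 * M * Lg ^ 4 := by
            apply mul_le_mul_of_nonneg_left _ (by positivity)
            have h2 : (1 : ℝ) ≤ ((2 * M : ℕ) : ℝ) := by exact_mod_cast (by omega : 1 ≤ 2 * M)
            apply pow_le_pow_left₀
            · have := Real.log_nonneg h2; linarith
            · have h3 : ((2 * M : ℕ) : ℝ) ≤ 4 * N := by exact_mod_cast (by omega : 2 * M ≤ 4 * N)
              have := Real.log_le_log (by linarith) h3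
              linarith
        _ = _ := by ring
    · intro L hL hL2
      have hL0 : (0 : ℝ) < L := by exact_mod_cast hL
      calc ∑ l ∈ Ioc L (2 * L), ‖(((if U < l then ArithmeticFunction.vonMangoldt l else 0 : ℝ)) : ℂ)‖ ^ 2 ≤
            ∑ _l ∈ Ioc L (2 * L), Lg ^ 2 := by
            apply sum_le_sum; intro l hl
            rw [mem_Ioc] at hl
            rw [Complex.norm_real, Real.norm_eq_abs]
            apply pow_le_pow_left₀ (abs_nonneg _)
            split_ifs
            · rw [abs_of_nonneg ArithmeticFunction.vonMangoldt_nonneg]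
              refine ArithmeticFunction.vonMangoldt_le_log.trans (hlogle _ ?_ ?_)
              · exact_mod_cast (by omega : 1 ≤ l)
              · exact_mod_cast (by omega : l ≤ 4 * N)
            · rw [abs_zero]; linarith
        _ = Lg ^ 2 * L := by
            rw [sum_const, Nat.card_Ioc, nsmul_eq_mul, show 2 * L - L = L by omega]; ring
    · positivity
    · positivity
    · intro m l h2 h3 h4 h5
      have hm : U < m := by
        by_contra h
        exact h4 (by rw [betaV_zero U m (by omega)]; norm_num)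
      have hl : U < l := by
        by_contra h
        exact h5 (by rw [if_neg h]; norm_num)
      have h6 : ((m * l : ℕ) : ℝ) ≤ 2 * N := by exact_mod_cast h3.trans hN'
      push_cast at h6
      have hmr : (U : ℝ) ≤ m := by exact_mod_cast hm.le
      have hlr : (U : ℝ) ≤ l := by exact_mod_cast hl.le
      refine ⟨by omega, by omega, ?_, ?_⟩
      · have h7 : (m : ℝ) * U ≤ T * U := by nlinarith
        exact le_of_mul_le_mul_right h7 hUpos
      · have h7 : (l : ℝ) * U ≤ T * U := by nlinarith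
        exact le_of_mul_le_mul_right h7 hUpos
    · exact ht1
    · exact ht2
    · exact ht3
  -- type I with logarithms
  have hS2 : ‖∑ m ∈ Icc 1 N', ((mu1 U m : ℝ) : ℂ) * ∑ l ∈ Ioc (N / m) (N' / m), ((Real.log l : ℝ) : ℂ) * E (m * l)‖ ≤
      2 * Lg * Y₀ * Lg := by
    have h2 : ∀ m ∈ Icc 1 N', ‖((mu1 U m : ℝ) : ℂ) * ∑ l ∈ Ioc (N / m) (N' / m), ((Real.log l : ℝ) : ℂ) * E (m * l)‖ ≤
        if m ≤ U then 2 * Lg * Y₀ * (1 / m) else 0 := by
      intro m hm
      rw [mem_Icc] at hm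
      split_ifs with hmU
      · rw [norm_mul, Complex.norm_real, Real.norm_eq_abs]
        have h3 : |mu1 U m| ≤ 1 := by
          rw [mu1_apply, if_pos hmU]
          exact_mod_cast ArithmeticFunction.abs_moebius_le_one
        have hmr : (m : ℝ) ≤ U := by exact_mod_cast hmU
        have h4 : ‖∑ l ∈ Ioc (N / m) (N' / m), ((Real.log l : ℝ) : ℂ) * E (m * l)‖ ≤ 2 * Real.log ((N' / m : ℕ) : ℝ) * (Y₀ * (1 / m)) := by
          apply abel_Ioc (N / m) (N' / m) (Nat.div_le_div_right hNN') (fun l : ℕ => Real.log l) (fun l => E (m * l))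
          · intro a b hab
            simp only
            rcases Nat.eq_zero_or_pos a with h | h
            · rw [h, Nat.cast_zero, Real.log_zero]; exact Real.log_natCast_nonneg _
            · exact Real.log_le_log (by exact_mod_cast h) (by exact_mod_cast hab)
          · intro n; exact Real.log_natCast_nonneg _
          · intro b' hb'
            have := inner_I h0 h1 κ hκ0 N N' m hm.1 (by omega) hN' (le_trans (by
              apply mul_le_mul_of_nonneg_left hmr (by positivity)) hUX) b' hb'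
            exact this
        have h5 : Real.log ((N' / m : ℕ) : ℝ) ≤ Lg := by
          have h6 : 1 ≤ N' / m := Nat.div_pos hm.2 hm.1
          apply hlogle
          · exact_mod_cast h6
          · have : N' / m ≤ N' := Nat.div_le_self _ _
            exact_mod_cast (by omega : N' / m ≤ 4 * N)
        calc |mu1 U m| * ‖∑ l ∈ Ioc (N / m) (N' / m), ((Real.log l : ℝ) : ℂ) * E (m * l)‖ ≤
              1 * (2 * Real.log ((N' / m : ℕ) : ℝ) * (Y₀ * (1 / m))) := mul_le_mul h3 h4 (norm_nonneg _) (by norm_num)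
          _ ≤ 1 * (2 * Lg * (Y₀ * (1 / m))) := by gcongr
          _ = _ := by ring
      · rw [mu1_apply, if_neg hmU]; simp
    refine (norm_sum_le _ _).trans ((sum_le_sum h2).trans ?_)
    rw [← sum_filter]
    have h3 : (Icc 1 N').filter (fun m => m ≤ U) ⊆ Icc 1 U := by
      intro m hm; rw [mem_filter, mem_Icc] at hm; rw [mem_Icc]; omega
    calc ∑ m ∈ (Icc 1 N').filter (fun m => m ≤ U), 2 * Lg * Y₀ * (1 / (m : ℝ)) ≤ ∑ m ∈ Icc 1 U, 2 * Lg * Y₀ * (1 / (m : ℝ)) := by
          apply sum_le_sum_of_subset_of_nonneg h3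
          intro m _ _; positivity
      _ = 2 * Lg * Y₀ * ∑ m ∈ Icc 1 U, (1 / (m : ℝ)) := by rw [mul_sum]
      _ ≤ _ := mul_le_mul_of_nonneg_left hharm (by positivity)
  -- the last sum
  set cc : ℕ → ℝ := fun m => (mu1 U * l1 U) m with hcc
  have hS3 : ‖∑ m ∈ Icc 1 N', ((cc m : ℝ) : ℂ) * ∑ l ∈ Ioc (N / m) (N' / m), E (m * l)‖ ≤
      Lg * Y₀ * Lg + (Nat.log 2 N' + 1 : ℝ) ^ 2 * Real.sqrt (C * (Lg ^ 2 * 1 * (N * T * (1 + Real.log (2 * N + 1))))) := by
    have hsplit : ∑ m ∈ Icc 1 N', ((cc m : ℝ) : ℂ) * ∑ l ∈ Ioc (N / m) (N' / m), E (m * l) =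
        ∑ m ∈ Icc 1 N', (if m ≤ U then ((cc m : ℝ) : ℂ) * ∑ l ∈ Ioc (N / m) (N' / m), E (m * l) else 0) +
        ∑ m ∈ Icc 1 N', ∑ l ∈ Ioc (N / m) (N' / m), (if U < m then ((cc m : ℝ) : ℂ) else 0) * 1 * E (m * l) := by
      rw [← sum_add_distrib]
      apply sum_congr rfl; intro m _
      by_cases h : m ≤ U
      · rw [if_pos h, if_neg (by omega)]; simp
      · rw [if_neg h, if_pos (by omega), zero_add, mul_sum]
        apply sum_congr rfl; intro l _; ring
    rw [hsplit]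
    refine (norm_add_le _ _).trans (add_le_add ?_ ?_)
    · have h2 : ∀ m ∈ Icc 1 N', ‖(if m ≤ U then ((cc m : ℝ) : ℂ) * ∑ l ∈ Ioc (N / m) (N' / m), E (m * l) else 0)‖ ≤
          if m ≤ U then Lg * Y₀ * (1 / m) else 0 := by
        intro m hm
        rw [mem_Icc] at hm
        split_ifs with hmU
        · rw [norm_mul, Complex.norm_real, Real.norm_eq_abs]
          have hmr : (m : ℝ) ≤ U := by exact_mod_cast hmU
          have h3 : |cc m| ≤ Lg := (conv_abs_le U U m hm.1).trans (hlogle _ (by exact_mod_cast hm.1) (by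
            exact_mod_cast (by omega : m ≤ 4 * N)))
          have h4 := inner_I h0 h1 κ hκ0 N N' m hm.1 (by omega) hN' (le_trans (by
              apply mul_le_mul_of_nonneg_left hmr (by positivity)) hUX) (N' / m) le_rfl
          calc |cc m| * ‖∑ l ∈ Ioc (N / m) (N' / m), E (m * l)‖ ≤ Lg * (Y₀ * (1 / m)) := mul_le_mul h3 h4 (norm_nonneg _) (by linarith)
            _ = _ := by ring
        · rw [norm_zero]
      refine (norm_sum_le _ _).trans ((sum_le_sum h2).trans ?_)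
      rw [← sum_filter]
      have h3 : (Icc 1 N').filter (fun m => m ≤ U) ⊆ Icc 1 U := by
        intro m hm; rw [mem_filter, mem_Icc] at hm; rw [mem_Icc]; omega
      calc ∑ m ∈ (Icc 1 N').filter (fun m => m ≤ U), Lg * Y₀ * (1 / (m : ℝ)) ≤ ∑ m ∈ Icc 1 U, Lg * Y₀ * (1 / (m : ℝ)) := by
            apply sum_le_sum_of_subset_of_nonneg h3
            intro m _ _; positivity
        _ = Lg * Y₀ * ∑ m ∈ Icc 1 U, (1 / (m : ℝ)) := by rw [mul_sum]
        _ ≤ _ := mul_le_mul_of_nonneg_left hharm (by positivity)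
    · apply bil_total h0 h1 κ hκ N N' (by omega) hN' (fun m => if U < m then ((cc m : ℝ) : ℂ) else 0)
        (fun _ => 1) (Lg ^ 2) 1 T
      · intro M hM hM2
        calc ∑ m ∈ Ioc M (2 * M), ‖(if U < m then ((cc m : ℝ) : ℂ) else 0)‖ ^ 2 ≤ ∑ _m ∈ Ioc M (2 * M), Lg ^ 2 := by
              apply sum_le_sum; intro m hm
              rw [mem_Ioc] at hm
              apply pow_le_pow_left₀ (norm_nonneg _)
              split_ifs
              · rw [Complex.norm_real, Real.norm_eq_abs]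
                exact (conv_abs_le U U m (by omega)).trans (hlogle _ (by exact_mod_cast (by omega : 1 ≤ m)) (by
                  exact_mod_cast (by omega : m ≤ 4 * N)))
              · rw [norm_zero]; linarith
          _ = Lg ^ 2 * M := by
              rw [sum_const, Nat.card_Ioc, nsmul_eq_mul, show 2 * M - M = M by omega]; ring
      · intro L hL hL2
        simp only [norm_one, one_pow, sum_const, Nat.card_Ioc, nsmul_eq_mul, mul_one, one_mul]
        rw [show 2 * L - L = L by omega]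
      · positivity
      · norm_num
      · intro m l h2 h3 h4 _
        have hm : U < m := by
          by_contra h
          exact h4 (by rw [if_neg h])
        have hm2 : m ≤ U * U := by
          by_contra h
          apply h4
          rw [if_pos hm]
          have : cc m = 0 := conv_zero U U m (by omega)
          rw [this]; norm_num
        have hmT : (m : ℝ) ≤ T := by
          have : (m : ℝ) ≤ U * U := by exact_mod_cast hm2
          linarith
        have h6 : ((m * l : ℕ) : ℝ) ≤ 2 * N := by exact_mod_cast h3.trans hN'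
        push_cast at h6
        have hmr : (U : ℝ) ≤ m := by exact_mod_cast hm.le
        have hl0 : (0 : ℝ) ≤ l := Nat.cast_nonneg _
        have hmN : m < N := by
          have : (m : ℝ) < N := by linarith
          exact_mod_cast this
        refine ⟨by omega, ?_, hmT, ?_⟩
        · by_contra h
          have : m * l ≤ m * 1 := Nat.mul_le_mul_left _ (by omega)
          omega
        · have h7 : (l : ℝ) * U ≤ T * U := by nlinarith
          exact le_of_mul_le_mul_right h7 hUpos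
      · exact ht1
      · exact ht2
      · exact ht3
  -- conclusion
  have hℓ : 1 + Real.log (2 * (N : ℝ) + 1) ≤ Lg := by
    have : Real.log (2 * (N : ℝ) + 1) ≤ Real.log (4 * N) := Real.log_le_log (by linarith) (by linarith)
    linarith
  have hℓ0 : 0 ≤ 1 + Real.log (2 * (N : ℝ) + 1) := by
    have := Real.log_nonneg (show (1 : ℝ) ≤ 2 * N + 1 by linarith)
    linarith
  have hlog2 : (Nat.log 2 N' + 1 : ℝ) ≤ 2 * Lg := by
    have h2 : (Nat.log 2 N' : ℝ) * Real.log 2 ≤ Real.log N' := by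
      have h3 : (2 : ℝ) ^ Nat.log 2 N' ≤ N' := by exact_mod_cast Nat.pow_log_le_self 2 (by omega)
      have h4 := Real.log_le_log (by positivity) h3
      rwa [Real.log_pow] at h4
    have h3 : Real.log N' ≤ Real.log (4 * N) := Real.log_le_log (by exact_mod_cast hN'1) (by linarith)
    have h4 := Real.log_two_gt_d9
    have h5 : (0 : ℝ) ≤ Nat.log 2 N' := Nat.cast_nonneg _
    nlinarith
  have hlog20 : (0 : ℝ) ≤ (Nat.log 2 N' + 1 : ℝ) := by positivity
  have hW : N * T = (N / (κ * P ^ 2)) ^ 2 / P := by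
    rw [hT]; field_simp
  have hbase : 0 < N / (κ * P ^ 2) := by positivity
  have hroot : ∀ q : ℝ, 0 ≤ q → q ≤ 4 * Lg ^ 6 → Real.sqrt (C * (q * (N * T * (1 + Real.log (2 * N + 1))))) ≤
      2 * Real.sqrt C * Lg ^ 4 * (N / (κ * P ^ 2)) := by
    intro q hq0 hq
    have h2 : C * (q * (N * T * (1 + Real.log (2 * N + 1)))) ≤ (2 * Real.sqrt C * Lg ^ 4 * (N / (κ * P ^ 2))) ^ 2 := by
      have h3 : N * T * (1 + Real.log (2 * N + 1)) ≤ (N / (κ * P ^ 2)) ^ 2 * Lg := by
        rw [hW]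
        apply mul_le_mul _ hℓ hℓ0 (by positivity)
        exact div_le_self (by positivity) hP1
      have h4 : 0 ≤ N * T * (1 + Real.log (2 * N + 1)) := by positivity
      calc C * (q * (N * T * (1 + Real.log (2 * N + 1)))) ≤ C * ((4 * Lg ^ 6) * ((N / (κ * P ^ 2)) ^ 2 * Lg)) := by
            apply mul_le_mul_of_nonneg_left _ hC0.le
            exact mul_le_mul hq h3 h4 (by positivity)
        _ = (4 * C * (N / (κ * P ^ 2)) ^ 2) * Lg ^ 7 := by ring
        _ ≤ (4 * C * (N / (κ * P ^ 2)) ^ 2) * Lg ^ 8 := by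
            apply mul_le_mul_of_nonneg_left _ (by positivity)
            exact pow_le_pow_right₀ hLg1 (by norm_num)
        _ = _ := by
            have := Real.sq_sqrt hC0.le
            calc (4 * C * (N / (κ * P ^ 2)) ^ 2) * Lg ^ 8 = 4 * (Real.sqrt C ^ 2) * (N / (κ * P ^ 2)) ^ 2 * Lg ^ 8 := by rw [this]
              _ = _ := by ring
    exact (Real.sqrt_le_sqrt h2).trans (le_of_eq (Real.sqrt_sq (by positivity)))
  have hR1 := hroot ((2 * Lg ^ 4) * Lg ^ 2) (by positivity) (by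
    have : 0 ≤ Lg ^ 6 := by positivity
    have h2 : 2 * Lg ^ 4 * Lg ^ 2 = 2 * Lg ^ 6 := by ring
    linarith)
  have hR2 := hroot (Lg ^ 2 * 1) (by positivity) (by
    have : Lg ^ 2 ≤ Lg ^ 6 := pow_le_pow_right₀ hLg1 (by norm_num)
    have h3 : 0 ≤ Lg ^ 6 := by positivity
    linarith)
  have hXP : X ≤ N / P ^ 2 := by
    rw [le_div_iff₀ (by positivity), ← hXZ]
    apply mul_le_mul_of_nonneg_left _ hX0.le
    refine le_trans ?_ hc2
    calc P ^ 2 ≤ P ^ 6 := pow_le_pow_right₀ hP1 (by norm_num)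
      _ ≤ κ * P ^ 6 := le_mul_of_one_le_left (by positivity) hκ
  have hY₀le : Y₀ ≤ 40 / α * (N / (κ * P ^ 2)) := by
    rw [hY₀]
    apply mul_le_mul_of_nonneg_left _ (by positivity)
    calc X / κ ≤ (N / P ^ 2) / κ := div_le_div_of_nonneg_right hXP hκ0.le
      _ = _ := by field_simp
  set G : ℝ := N / (κ * P ^ 2) with hG
  have hLsq : (Nat.log 2 N' + 1 : ℝ) ^ 2 ≤ (2 * Lg) ^ 2 := pow_le_pow_left₀ hlog20 hlog2 2
  have hII : (Nat.log 2 N' + 1 : ℝ) ^ 2 * Real.sqrt (C * ((2 * Lg ^ 4) * Lg ^ 2 * (N * T * (1 + Real.log (2 * N + 1))))) +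
      (Nat.log 2 N' + 1 : ℝ) ^ 2 * Real.sqrt (C * (Lg ^ 2 * 1 * (N * T * (1 + Real.log (2 * N + 1))))) ≤ 16 * Real.sqrt C * Lg ^ 6 * G := by
    calc _ ≤ (2 * Lg) ^ 2 * (2 * Real.sqrt C * Lg ^ 4 * G) + (2 * Lg) ^ 2 * (2 * Real.sqrt C * Lg ^ 4 * G) := by
          apply add_le_add
          · exact mul_le_mul hLsq hR1 (Real.sqrt_nonneg _) (by positivity)
          · exact mul_le_mul hLsq hR2 (Real.sqrt_nonneg _) (by positivity)
      _ = _ := by ring
  have hI : 2 * Lg * Y₀ * Lg + Lg * Y₀ * Lg ≤ 120 / α * Lg ^ 6 * G := by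
    calc 2 * Lg * Y₀ * Lg + Lg * Y₀ * Lg = 3 * Lg ^ 2 * Y₀ := by ring
      _ ≤ 3 * Lg ^ 6 * (40 / α * G) := by
          apply mul_le_mul _ hY₀le hY₀0.le (by positivity)
          apply mul_le_mul_of_nonneg_left _ (by norm_num)
          exact pow_le_pow_right₀ hLg1 (by norm_num)
      _ = _ := by ring
  have hfinal : 120 / α * Lg ^ 6 * G + 16 * Real.sqrt C * Lg ^ 6 * G ≤ N / P / κ := by
    calc 120 / α * Lg ^ 6 * G + 16 * Real.sqrt C * Lg ^ 6 * G = (K * Lg ^ 6) * G := by rw [hK]; ring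
      _ ≤ P * G := mul_le_mul_of_nonneg_right hKP hbase.le
      _ = _ := by rw [hG]; field_simp
  refine (norm_sub_le _ _).trans ?_
  refine (add_le_add (norm_add_le _ _) le_rfl).trans ?_
  linarith

end Pool.Agent.H373R2.T3
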