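import Mathlib
import Pool.Agent.H469R2.NK.KL

namespace Pool.Agent.H373R2.T3
open Finset Polynomial
open Pool.Agent.H469R2.NK (e norm_e e_add conj_e e_zero cc cc_mul norm_cc_le sin_pos_of)

lemma e_int (n : ℤ) : e (n : ℝ) = 1 := by
  unfold e
  rw [Complex.exp_eq_one_iff]
  exact ⟨n, by push_cast; ring⟩

lemma e_add_int (x : ℝ) (n : ℤ) : e (x + n) = e x := by
  rw [e_add, e_int, mul_one]

lemma e_natmul (j : ℕ) (y : ℝ) : e (j * y) = (e y) ^ j := by
  induction j with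
  | zero => simp [e_zero]
  | succ j ih => rw [pow_succ, ← ih, ← e_add]; congr 1; push_cast; ring

lemma geom_e (K : ℕ) (y θ : ℝ) (hθ : 0 < θ) (h0 : θ ≤ y) (h1 : y ≤ 1 - θ) :
    ‖∑ j ∈ range K, (e y) ^ j‖ ≤ 1 / θ := by
  have hs := sin_pos_of (hθ.trans_le h0) (by linarith : y < 1)
  have h2 := cc_mul (δ := y) hs.ne'
  have h3 := geom_sum_mul (e y) K
  have h4 : ∑ j ∈ range K, (e y) ^ j = (1 - (e y) ^ K) * cc y := by
    calc ∑ j ∈ range K, (e y) ^ j = (∑ j ∈ range K, (e y) ^ j) * (cc y * (1 - e y)) := by rw [h2, mul_one]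
      _ = -((∑ j ∈ range K, (e y) ^ j) * (e y - 1)) * cc y := by ring
      _ = _ := by rw [h3]; ring
  rw [h4, norm_mul]
  have h5 : ‖1 - (e y) ^ K‖ ≤ 2 := by
    refine (norm_sub_le _ _).trans ?_
    rw [norm_one, norm_pow, norm_e, one_pow]; norm_num
  have h6 := norm_cc_le hθ h0 h1
  have hθ2 : θ ≤ 1 / 2 := by linarith
  calc ‖1 - (e y) ^ K‖ * ‖cc y‖ ≤ 2 * (1 / 2 + 1 / (4 * θ)) := mul_le_mul h5 h6 (norm_nonneg _) (by norm_num)
    _ = 1 + 1 / (2 * θ) := by field_simp; ring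
    _ ≤ 1 / (2 * θ) + 1 / (2 * θ) := by
        have : 1 ≤ 1 / (2 * θ) := by rw [le_div_iff₀ (by positivity)]; linarith
        linarith
    _ = 1 / θ := by field_simp; ring

/-- the polynomial `(1 + X + ... + X^(K-1))^r` -/
noncomputable def qq (K r : ℕ) : ℕ[X] := (∑ j ∈ range K, X ^ j) ^ r

lemma qq_deg (K r : ℕ) (hK : 1 ≤ K) (hr : 1 ≤ r) : (qq K r).natDegree < r * K := by
  unfold qq
  have h1 : (∑ j ∈ range K, (X : ℕ[X]) ^ j).natDegree ≤ K - 1 := by
    apply natDegree_sum_le_of_forall_le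
    intro j hj
    rw [mem_range] at hj
    rw [natDegree_X_pow]; omega
  calc ((∑ j ∈ range K, (X : ℕ[X]) ^ j) ^ r).natDegree ≤ r * (∑ j ∈ range K, (X : ℕ[X]) ^ j).natDegree := natDegree_pow_le
    _ ≤ r * (K - 1) := Nat.mul_le_mul_left _ h1
    _ < r * K := Nat.mul_lt_mul_of_pos_left (by omega) (by omega)

noncomputable def aa (K r : ℕ) (s : ℕ) : ℝ := ((qq K r).coeff s : ℝ)

lemma aa_nonneg (K r s : ℕ) : 0 ≤ aa K r s := Nat.cast_nonneg _

lemma sum_aa (K r : ℕ) (hK : 1 ≤ K) (hr : 1 ≤ r) : ∑ s ∈ range (r * K), aa K r s = (K : ℝ) ^ r := by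
  have h1 := eval_eq_sum_range' (qq_deg K r hK hr) (1 : ℕ)
  have h2 : (qq K r).eval 1 = K ^ r := by
    unfold qq
    rw [eval_pow, eval_finsetSum]
    simp
  rw [h2] at h1
  simp only [one_pow, mul_one] at h1
  unfold aa
  exact_mod_cast h1.symm

lemma pow_eq_sum (K r : ℕ) (hK : 1 ≤ K) (hr : 1 ≤ r) (y : ℝ) :
    (∑ j ∈ range K, (e y) ^ j) ^ r = ∑ s ∈ range (r * K), ((aa K r s : ℝ) : ℂ) * e (s * y) := by
  have h1 := eval₂_eq_sum_range' (Nat.castRingHom ℂ) (qq_deg K r hK hr) (e y)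
  have h2 : (qq K r).eval₂ (Nat.castRingHom ℂ) (e y) = (∑ j ∈ range K, (e y) ^ j) ^ r := by
    unfold qq
    rw [eval₂_pow, eval₂_finsetSum]
    simp
  rw [← h2, h1]
  apply sum_congr rfl; intro s _
  rw [e_natmul]
  unfold aa
  simp

/-- sum of squares of the coefficients -/
noncomputable def NN (K r : ℕ) : ℝ := ∑ s ∈ range (r * K), (aa K r s) ^ 2

lemma NN_ge (K r : ℕ) (hK : 1 ≤ K) (hr : 1 ≤ r) : (K : ℝ) ^ (2 * r) ≤ (r * K) * NN K r := by
  have h1 := sq_sum_le_card_mul_sum_sq (s := range (r * K)) (f := fun s => aa K r s)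
  rw [sum_aa K r hK hr, card_range] at h1
  unfold NN
  push_cast at h1
  calc (K : ℝ) ^ (2 * r) = ((K : ℝ) ^ r) ^ 2 := by rw [← pow_mul]; ring_nf
    _ ≤ _ := h1

lemma NN_pos (K r : ℕ) (hK : 1 ≤ K) (hr : 1 ≤ r) : 0 < NN K r := by
  have h1 := NN_ge K r hK hr
  have hK0 : (0 : ℝ) < K := by exact_mod_cast hK
  have hr0 : (0 : ℝ) < r := by exact_mod_cast hr
  by_contra h
  push Not at h
  have h2 : (0 : ℝ) < (K : ℝ) ^ (2 * r) := by positivity
  have h3 : (r * K : ℝ) * NN K r ≤ 0 := mul_nonpos_of_nonneg_of_nonpos (by positivity) h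
  linarith

/-- harmonic sum around a point -/
lemma sum_inv_abs (S s : ℕ) (hs : s < S) : ∑ t ∈ (range S).filter (fun t => t ≠ s), 1 / |(s : ℝ) - t| ≤ 2 * (1 + Real.log S) := by
  have hS : 1 ≤ S := by omega
  have h1 : ∑ t ∈ (range S).filter (fun t => t ≠ s), 1 / |(s : ℝ) - t| ≤
      ∑ t ∈ range s, 1 / |(s : ℝ) - t| + ∑ t ∈ Ioo s S, 1 / |(s : ℝ) - t| := by
    have hdis : Disjoint (range s) (Ioo s S) := by
      rw [disjoint_left]; intro a ha hb; rw [mem_range] at ha; rw [mem_Ioo] at hb; omega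
    rw [← sum_union hdis]
    apply sum_le_sum_of_subset_of_nonneg
    · intro t ht
      rw [mem_filter, mem_range] at ht
      rw [mem_union, mem_range, mem_Ioo]; omega
    · intro t _ _; positivity
  have h2 : ∑ t ∈ range s, 1 / |(s : ℝ) - t| ≤ 1 + Real.log S := by
    calc ∑ t ∈ range s, 1 / |(s : ℝ) - t| = ∑ t ∈ range s, 1 / (((s - 1 - t : ℕ) : ℝ) + 1) := by
          apply sum_congr rfl; intro t ht
          rw [mem_range] at ht
          have : (s : ℝ) - t = ((s - 1 - t : ℕ) : ℝ) + 1 := by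
            have : s = (s - 1 - t) + 1 + t := by omega
            nth_rw 1 [this]; push_cast; ring
          rw [this, abs_of_pos (by positivity)]
      _ = ∑ t ∈ range s, 1 / ((t : ℝ) + 1) := sum_range_reflect (fun t => 1 / ((t : ℝ) + 1)) s
      _ ≤ ∑ t ∈ range S, 1 / ((t : ℝ) + 1) := by
          apply sum_le_sum_of_subset_of_nonneg
          · intro t ht; rw [mem_range] at ht ⊢; omega
          · intro t _ _; positivity
      _ = (harmonic S : ℝ) := by
          unfold harmonic; push_cast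
          apply sum_congr rfl; intro t _; rw [one_div]
      _ ≤ _ := harmonic_le_one_add_log S
  have h3 : ∑ t ∈ Ioo s S, 1 / |(s : ℝ) - t| ≤ 1 + Real.log S := by
    calc ∑ t ∈ Ioo s S, 1 / |(s : ℝ) - t| ≤ ∑ t ∈ (range S).image (fun j => s + 1 + j), 1 / |(s : ℝ) - t| := by
          apply sum_le_sum_of_subset_of_nonneg
          · intro t ht
            rw [mem_Ioo] at ht
            rw [mem_image]
            exact ⟨t - s - 1, by rw [mem_range]; omega, by omega⟩
          · intro t _ _; positivity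
      _ = ∑ j ∈ range S, 1 / ((j : ℝ) + 1) := by
          rw [sum_image (by intro a _ b _ h; simp only at h; omega)]
          apply sum_congr rfl; intro j _
          have : (s : ℝ) - ((s + 1 + j : ℕ) : ℝ) = -((j : ℝ) + 1) := by push_cast; ring
          rw [this, abs_neg, abs_of_pos (by positivity)]
      _ = (harmonic S : ℝ) := by
          unfold harmonic; push_cast
          apply sum_congr rfl; intro t _; rw [one_div]
      _ ≤ _ := harmonic_le_one_add_log S
  linarith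

/-- the norm square expanded -/
lemma normsq_expand (S : ℕ) (a : ℕ → ℝ) (y : ℝ) :
    ‖∑ s ∈ range S, ((a s : ℝ) : ℂ) * e (s * y)‖ ^ 2 = ∑ s ∈ range S, ∑ t ∈ range S, a s * a t * (e (((s : ℝ) - t) * y)).re := by
  have h1 : ((‖∑ s ∈ range S, ((a s : ℝ) : ℂ) * e (s * y)‖ ^ 2 : ℝ) : ℂ) =
      ∑ s ∈ range S, ∑ t ∈ range S, ((a s * a t : ℝ) : ℂ) * e (((s : ℝ) - t) * y) := by
    rw [← Complex.normSq_eq_norm_sq, Complex.normSq_eq_conj_mul_self, mul_comm, map_sum, sum_mul_sum]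
    apply sum_congr rfl; intro s _
    apply sum_congr rfl; intro t _
    rw [map_mul, Complex.conj_ofReal, conj_e, show ((s : ℝ) - t) * y = s * y + -(t * y) by ring, e_add]
    push_cast; ring
  have h2 := congrArg Complex.re h1
  rw [Complex.ofReal_re] at h2
  rw [h2, Complex.re_sum]
  apply sum_congr rfl; intro s _
  rw [Complex.re_sum]
  apply sum_congr rfl; intro t _
  rw [Complex.re_ofReal_mul]

/-- lower bound for the weighted moment of the kernel at one shift -/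
lemma shift_lower {ι : Type*} (I : Finset ι) (w x : ι → ℝ) (S : ℕ) (a : ℕ → ℝ) (ha : ∀ s, 0 ≤ a s)
    (X' : ℝ) (hX0 : 0 ≤ X') (hX' : ∀ k : ℕ, 1 ≤ k → k < S → ‖∑ i ∈ I, ((w i : ℝ) : ℂ) * e (k * x i)‖ ≤ X' / k) (β : ℝ) :
    (∑ s ∈ range S, a s ^ 2) * (∑ i ∈ I, w i - 2 * (1 + Real.log S) * X') ≤
      ∑ i ∈ I, w i * ‖∑ s ∈ range S, ((a s : ℝ) : ℂ) * e (s * (x i - β))‖ ^ 2 := by
  have hexp : ∑ i ∈ I, w i * ‖∑ s ∈ range S, ((a s : ℝ) : ℂ) * e (s * (x i - β))‖ ^ 2 =
      ∑ s ∈ range S, ∑ t ∈ range S, a s * a t * (∑ i ∈ I, w i * (e (((s : ℝ) - t) * (x i - β))).re) := by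
    calc ∑ i ∈ I, w i * ‖∑ s ∈ range S, ((a s : ℝ) : ℂ) * e (s * (x i - β))‖ ^ 2 =
          ∑ i ∈ I, ∑ s ∈ range S, ∑ t ∈ range S, w i * (a s * a t * (e (((s : ℝ) - t) * (x i - β))).re) := by
          apply sum_congr rfl; intro i _
          rw [normsq_expand, mul_sum]
          apply sum_congr rfl; intro s _
          rw [mul_sum]
      _ = ∑ s ∈ range S, ∑ t ∈ range S, ∑ i ∈ I, w i * (a s * a t * (e (((s : ℝ) - t) * (x i - β))).re) := by
          rw [sum_comm]
          apply sum_congr rfl; intro s _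
          rw [sum_comm]
      _ = _ := by
          apply sum_congr rfl; intro s _
          apply sum_congr rfl; intro t _
          rw [mul_sum]
          apply sum_congr rfl; intro i _; ring
  rw [hexp]
  -- exponential sum for nonzero difference
  have hoff : ∀ s ∈ range S, ∀ t ∈ range S, t ≠ s →
      -(X' * (1 / |(s : ℝ) - t|)) ≤ ∑ i ∈ I, w i * (e (((s : ℝ) - t) * (x i - β))).re := by
    intro s hs t ht hst
    rw [mem_range] at hs ht
    have h1 : ∑ i ∈ I, w i * (e (((s : ℝ) - t) * (x i - β))).re =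
        (e (-(((s : ℝ) - t) * β)) * ∑ i ∈ I, ((w i : ℝ) : ℂ) * e (((s : ℝ) - t) * x i)).re := by
      rw [mul_sum, Complex.re_sum]
      apply sum_congr rfl; intro i _
      rw [show ((s : ℝ) - t) * (x i - β) = -(((s : ℝ) - t) * β) + ((s : ℝ) - t) * x i by ring, e_add,
        ← Complex.re_ofReal_mul]
      congr 1; ring
    have h2 : ‖∑ i ∈ I, ((w i : ℝ) : ℂ) * e (((s : ℝ) - t) * x i)‖ ≤ X' * (1 / |(s : ℝ) - t|) := by
      rcases lt_or_gt_of_ne hst with h | h
      · have h3 := hX' (s - t) (by omega) (by omega)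
        rw [Nat.cast_sub h.le] at h3
        have h4 : (0 : ℝ) < (s : ℝ) - t := by
          have : (t : ℝ) < s := by exact_mod_cast h
          linarith
        rw [abs_of_pos h4, mul_one_div]
        exact h3
      · have h3 := hX' (t - s) (by omega) (by omega)
        rw [Nat.cast_sub h.le] at h3
        have h4 : (0 : ℝ) < (t : ℝ) - s := by
          have : (s : ℝ) < t := by exact_mod_cast h
          linarith
        have h5 : |(s : ℝ) - t| = (t : ℝ) - s := by rw [abs_sub_comm, abs_of_pos h4]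
        rw [h5, mul_one_div]
        have h6 : ∑ i ∈ I, ((w i : ℝ) : ℂ) * e (((s : ℝ) - t) * x i) =
            (starRingEnd ℂ) (∑ i ∈ I, ((w i : ℝ) : ℂ) * e (((t : ℝ) - s) * x i)) := by
          rw [map_sum]
          apply sum_congr rfl; intro i _
          rw [map_mul, Complex.conj_ofReal, conj_e]
          congr 2; ring
        rw [h6, Complex.norm_conj]
        exact h3
    rw [h1]
    have h3 := Complex.abs_re_le_norm (e (-(((s : ℝ) - t) * β)) * ∑ i ∈ I, ((w i : ℝ) : ℂ) * e (((s : ℝ) - t) * x i))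
    rw [norm_mul, norm_e, one_mul] at h3
    have h4 := (abs_le.1 (h3.trans h2)).1
    exact h4
  -- split diagonal and off-diagonal
  have hrow : ∀ s ∈ range S, ∑ t ∈ range S, a s * a t * (∑ i ∈ I, w i * (e (((s : ℝ) - t) * (x i - β))).re) ≥
      a s ^ 2 * (∑ i ∈ I, w i) - ∑ t ∈ (range S).filter (fun t => t ≠ s), (a s ^ 2 + a t ^ 2) / 2 * (X' * (1 / |(s : ℝ) - t|)) := by
    intro s hs
    have h1 : ∑ t ∈ range S, a s * a t * (∑ i ∈ I, w i * (e (((s : ℝ) - t) * (x i - β))).re) =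
        ∑ t ∈ (range S).filter (fun t => t ≠ s), a s * a t * (∑ i ∈ I, w i * (e (((s : ℝ) - t) * (x i - β))).re) +
        ∑ t ∈ (range S).filter (fun t => ¬ (t ≠ s)), a s * a t * (∑ i ∈ I, w i * (e (((s : ℝ) - t) * (x i - β))).re) := by
      rw [sum_filter_add_sum_filter_not]
    have h2 : (range S).filter (fun t => ¬ (t ≠ s)) = {s} := by
      ext t; rw [mem_filter, mem_singleton]
      constructor
      · intro h; by_contra h3; exact h.2 h3
      · intro h; rw [h]; exact ⟨hs, fun h => h rfl⟩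
    rw [h1, h2, sum_singleton]
    have h3 : a s * a s * (∑ i ∈ I, w i * (e (((s : ℝ) - s) * (x i - β))).re) = a s ^ 2 * ∑ i ∈ I, w i := by
      rw [sq]
      congr 1
      apply sum_congr rfl; intro i _
      rw [sub_self, zero_mul, e_zero, Complex.one_re, mul_one]
    rw [h3]
    have h4 : -∑ t ∈ (range S).filter (fun t => t ≠ s), (a s ^ 2 + a t ^ 2) / 2 * (X' * (1 / |(s : ℝ) - t|)) ≤
        ∑ t ∈ (range S).filter (fun t => t ≠ s), a s * a t * (∑ i ∈ I, w i * (e (((s : ℝ) - t) * (x i - β))).re) := by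
      rw [← sum_neg_distrib]
      apply sum_le_sum; intro t ht
      rw [mem_filter] at ht
      have h5 := hoff s hs t ht.1 ht.2
      have h6 : 0 ≤ a s * a t := mul_nonneg (ha s) (ha t)
      have h7 : a s * a t ≤ (a s ^ 2 + a t ^ 2) / 2 := by nlinarith [sq_nonneg (a s - a t)]
      have h8 : 0 ≤ X' * (1 / |(s : ℝ) - t|) := by positivity
      calc -((a s ^ 2 + a t ^ 2) / 2 * (X' * (1 / |(s : ℝ) - t|))) ≤ -(a s * a t * (X' * (1 / |(s : ℝ) - t|))) := by
            have := mul_le_mul_of_nonneg_right h7 h8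
            linarith
        _ = a s * a t * (-(X' * (1 / |(s : ℝ) - t|))) := by ring
        _ ≤ _ := mul_le_mul_of_nonneg_left h5 h6
    linarith
  have htot := sum_le_sum hrow
  refine le_trans ?_ htot
  rw [sum_sub_distrib, ← sum_mul]
  have hsym : ∑ s ∈ range S, ∑ t ∈ (range S).filter (fun t => t ≠ s), (a s ^ 2 + a t ^ 2) / 2 * (X' * (1 / |(s : ℝ) - t|)) =
      ∑ s ∈ range S, a s ^ 2 * (X' * ∑ t ∈ (range S).filter (fun t => t ≠ s), 1 / |(s : ℝ) - t|) := by
    have h1 : ∀ (u : ℕ → ℕ → ℝ), ∑ s ∈ range S, ∑ t ∈ (range S).filter (fun t => t ≠ s), u s t =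
        ∑ s ∈ range S, ∑ t ∈ range S, if t ≠ s then u s t else 0 := by
      intro u; apply sum_congr rfl; intro s _; rw [sum_filter]
    have h2 : ∑ s ∈ range S, ∑ t ∈ (range S).filter (fun t => t ≠ s), a t ^ 2 / 2 * (X' * (1 / |(s : ℝ) - t|)) =
        ∑ s ∈ range S, ∑ t ∈ (range S).filter (fun t => t ≠ s), a s ^ 2 / 2 * (X' * (1 / |(s : ℝ) - t|)) := by
      rw [h1, h1, sum_comm]
      apply sum_congr rfl; intro s _
      apply sum_congr rfl; intro t _
      by_cases h : t = s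
      · rw [h]
      · rw [if_pos h, if_pos (Ne.symm h), abs_sub_comm]
    have h3 : ∑ s ∈ range S, ∑ t ∈ (range S).filter (fun t => t ≠ s), (a s ^ 2 + a t ^ 2) / 2 * (X' * (1 / |(s : ℝ) - t|)) =
        ∑ s ∈ range S, ∑ t ∈ (range S).filter (fun t => t ≠ s), a s ^ 2 / 2 * (X' * (1 / |(s : ℝ) - t|)) +
        ∑ s ∈ range S, ∑ t ∈ (range S).filter (fun t => t ≠ s), a t ^ 2 / 2 * (X' * (1 / |(s : ℝ) - t|)) := by
      rw [← sum_add_distrib]
      apply sum_congr rfl; intro s _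
      rw [← sum_add_distrib]
      apply sum_congr rfl; intro t _; ring
    rw [h3, h2, ← sum_add_distrib]
    apply sum_congr rfl; intro s _
    rw [← sum_add_distrib, mul_sum, mul_sum]
    apply sum_congr rfl; intro t _; ring
  rw [hsym, mul_sub]
  have hfin : ∑ s ∈ range S, a s ^ 2 * (X' * ∑ t ∈ (range S).filter (fun t => t ≠ s), 1 / |(s : ℝ) - t|) ≤
      (∑ s ∈ range S, a s ^ 2) * (2 * (1 + Real.log S) * X') := by
    rw [sum_mul]
    apply sum_le_sum; intro s hs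
    rw [mem_range] at hs
    apply mul_le_mul_of_nonneg_left _ (sq_nonneg _)
    have := sum_inv_abs S s hs
    calc X' * ∑ t ∈ (range S).filter (fun t => t ≠ s), 1 / |(s : ℝ) - t| ≤ X' * (2 * (1 + Real.log S)) :=
          mul_le_mul_of_nonneg_left this hX0
      _ = _ := by ring
  linarith

/-- discrete orthogonality -/
lemma e_sum_zero (R : ℕ) (k : ℤ) (hk0 : k ≠ 0) (hk : |k| < R) : ∑ j ∈ range R, e ((k : ℝ) * (j / R)) = 0 := by
  have hR : (0 : ℝ) < R := by
    have : (0 : ℤ) < R := lt_of_le_of_lt (abs_nonneg k) hk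
    exact_mod_cast this
  have h1 : ∀ j ∈ range R, e ((k : ℝ) * (j / R)) = (e ((k : ℝ) / R)) ^ j := by
    intro j _
    rw [← e_natmul]; congr 1; field_simp
  rw [sum_congr rfl h1]
  have h2 := geom_sum_mul (e ((k : ℝ) / R)) R
  have h3 : (e ((k : ℝ) / R)) ^ R = 1 := by
    rw [← e_natmul, show (R : ℝ) * ((k : ℝ) / R) = (k : ℝ) by field_simp]; exact e_int k
  rw [h3, sub_self] at h2
  rcases mul_eq_zero.1 h2 with h | h
  · exact h
  · exfalso
    have h4 : e ((k : ℝ) / R) = 1 := by linear_combination h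
    unfold e at h4
    rw [Complex.exp_eq_one_iff] at h4
    obtain ⟨n, hn⟩ := h4
    have h5 : (k : ℝ) / R = n := by
      have hpi : (2 * (Real.pi : ℂ) * Complex.I) ≠ 0 := by
        simp [Real.pi_ne_zero]
      have h6 : ((((k : ℝ) / R : ℝ)) : ℂ) * (2 * Real.pi * Complex.I) = (n : ℂ) * (2 * Real.pi * Complex.I) := by
        rw [← hn]; push_cast; ring
      have h7 := mul_right_cancel₀ hpi h6
      exact_mod_cast h7
    rw [div_eq_iff hR.ne'] at h5
    have h6 : k = n * R := by exact_mod_cast h5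
    rw [h6, abs_mul, Nat.abs_cast] at hk
    have h7 : n ≠ 0 := by
      intro h8; rw [h8, zero_mul] at h6; exact hk0 h6
    have h8 : 1 ≤ |n| := Int.one_le_abs h7
    nlinarith

/-- the average over all shifts `j/R` -/
lemma full_average (S R : ℕ) (hSR : S ≤ R) (a : ℕ → ℝ) (y : ℝ) :
    ∑ j ∈ range R, ‖∑ s ∈ range S, ((a s : ℝ) : ℂ) * e (s * (y - j / R))‖ ^ 2 = R * ∑ s ∈ range S, a s ^ 2 := by
  have h1 : ∀ j ∈ range R, ‖∑ s ∈ range S, ((a s : ℝ) : ℂ) * e (s * (y - j / R))‖ ^ 2 =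
      ∑ s ∈ range S, ∑ t ∈ range S, a s * a t * (e (((s : ℝ) - t) * (y - j / R))).re := fun j _ => normsq_expand S a _
  rw [sum_congr rfl h1, sum_comm, mul_sum]
  apply sum_congr rfl; intro s hs
  rw [sum_comm]
  have h2 : ∀ t ∈ range S, ∑ j ∈ range R, a s * a t * (e (((s : ℝ) - t) * (y - j / R))).re =
      if t = s then R * a s ^ 2 else 0 := by
    intro t ht
    rw [mem_range] at hs ht
    split_ifs with h
    · rw [h]
      simp only [sub_self, zero_mul, e_zero, Complex.one_re, mul_one, sum_const, card_range, nsmul_eq_mul]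
      ring
    · rw [← mul_sum]
      have h3 : ∑ j ∈ range R, (e (((s : ℝ) - t) * (y - j / R))).re =
          (e (((s : ℝ) - t) * y) * ∑ j ∈ range R, e ((((t : ℤ) - s : ℤ) : ℝ) * (j / R))).re := by
        rw [mul_sum, Complex.re_sum]
        apply sum_congr rfl; intro j _
        rw [← e_add]; congr 2; push_cast; ring
      rw [h3, e_sum_zero R ((t : ℤ) - s) (by omega) (by rw [abs_lt]; omega), mul_zero, Complex.zero_re, mul_zero]
  rw [sum_congr rfl h2, sum_ite_eq' (range S) s, if_pos hs]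

theorem kernel_lower {ι : Type*} (I : Finset ι) (w x : ι → ℝ) (hw : ∀ i ∈ I, 0 ≤ w i) (K r R J : ℕ) (hK : 1 ≤ K)
    (hr : 1 ≤ r) (hR : r * K ≤ R) (δ₀ : ℝ) (hδ₀ : 0 < δ₀) (hJ : (J : ℝ) / R + 2 * δ₀ < 1) (X' : ℝ) (hX0 : 0 ≤ X')
    (hX' : ∀ k : ℕ, 1 ≤ k → k < r * K → ‖∑ i ∈ I, ((w i : ℝ) : ℂ) * e (k * x i)‖ ≤ X' / k) :
    (J : ℝ) / R * (∑ i ∈ I, w i - 2 * (1 + Real.log ((r * K : ℕ) : ℝ)) * X' - (∑ i ∈ I, w i) * ((r * K) * (1 / (δ₀ * K)) ^ (2 * r))) ≤
      ∑ i ∈ I.filter (fun i => Int.fract (x i) ≤ (J : ℝ) / R + 2 * δ₀), w i := by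
  have hK0 : (0 : ℝ) < K := by exact_mod_cast hK
  have hr0 : (0 : ℝ) < r := by exact_mod_cast hr
  have hS1 : 1 ≤ r * K := Nat.mul_pos (by omega) (by omega)
  have hR0 : (0 : ℝ) < R := by exact_mod_cast (by omega : 0 < R)
  have hJR : J ≤ R := by
    have h1 : (J : ℝ) / R < 1 := by linarith
    rw [div_lt_one hR0] at h1
    exact_mod_cast h1.le
  set S := r * K with hS
  set a : ℕ → ℝ := fun s => aa K r s with ha
  have ha0 : ∀ s, 0 ≤ a s := fun s => aa_nonneg K r s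
  have hN : NN K r = ∑ s ∈ range S, a s ^ 2 := rfl
  have hNpos := NN_pos K r hK hr
  set P : ℝ → ℂ := fun y => ∑ s ∈ range S, ((a s : ℝ) : ℂ) * e (s * y) with hP
  have hPpow : ∀ y : ℝ, P y = (∑ j ∈ range K, (e y) ^ j) ^ r := fun y => (pow_eq_sum K r hK hr y).symm
  -- the weight
  set W : ι → ℝ := fun i => 1 / (R * NN K r) * ∑ j ∈ range J, ‖P (x i - δ₀ - j / R)‖ ^ 2 with hW
  have hW0 : ∀ i, 0 ≤ W i := fun i => by positivity
  have hW1 : ∀ i, W i ≤ 1 := by
    intro i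
    rw [hW]; simp only
    rw [one_div, inv_mul_le_iff₀ (by positivity), mul_one, hN, ← full_average S R hR a (x i - δ₀)]
    exact sum_le_sum_of_subset_of_nonneg (by
      intro j hj; rw [mem_range] at hj ⊢; omega) (fun j _ _ => by positivity)
  have hWtail : ∀ i, ¬ (Int.fract (x i) ≤ (J : ℝ) / R + 2 * δ₀) → W i ≤ (J : ℝ) / R * ((r * K) * (1 / (δ₀ * K)) ^ (2 * r)) := by
    intro i hi
    push Not at hi
    have h1 : ∀ j ∈ range J, ‖P (x i - δ₀ - j / R)‖ ^ 2 ≤ (1 / δ₀) ^ (2 * r) := by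
      intro j hj
      rw [mem_range] at hj
      have hjJ : (j : ℝ) / R ≤ (J : ℝ) / R := by
        apply div_le_div_of_nonneg_right _ hR0.le
        exact_mod_cast hj.le
      have hj0 : 0 ≤ (j : ℝ) / R := by positivity
      have hf1 := Int.fract_lt_one (x i)
      have h2 : e (x i - δ₀ - j / R) = e (Int.fract (x i) - δ₀ - j / R) := by
        have h3 : x i - δ₀ - j / R = (Int.fract (x i) - δ₀ - j / R) + (⌊x i⌋ : ℤ) := by
          rw [← Int.self_sub_floor]; ring
        rw [h3, e_add_int]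
      rw [hPpow, h2, norm_pow, ← pow_mul, mul_comm r 2]
      apply pow_le_pow_left₀ (norm_nonneg _)
      apply geom_e K _ δ₀ hδ₀
      · linarith
      · linarith
    have h2 : W i ≤ 1 / (R * NN K r) * (J * (1 / δ₀) ^ (2 * r)) := by
      apply mul_le_mul_of_nonneg_left _ (by positivity)
      refine (sum_le_sum h1).trans ?_
      rw [sum_const, card_range, nsmul_eq_mul]
    refine h2.trans ?_
    have h3 : 1 / NN K r ≤ (r * K) / (K : ℝ) ^ (2 * r) := by
      rw [div_le_div_iff₀ hNpos (by positivity), one_mul]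
      exact NN_ge K r hK hr
    calc 1 / (R * NN K r) * (J * (1 / δ₀) ^ (2 * r)) = (J : ℝ) / R * ((1 / NN K r) * (1 / δ₀) ^ (2 * r)) := by
          field_simp
      _ ≤ (J : ℝ) / R * (((r * K) / (K : ℝ) ^ (2 * r)) * (1 / δ₀) ^ (2 * r)) := by
          apply mul_le_mul_of_nonneg_left _ (by positivity)
          exact mul_le_mul_of_nonneg_right h3 (by positivity)
      _ = _ := by
          have h4 : (1 / (δ₀ * (K : ℝ))) ^ (2 * r) = (1 / δ₀) ^ (2 * r) / (K : ℝ) ^ (2 * r) := by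
            rw [← div_pow, div_div]
          rw [h4]; ring
  -- lower bound of the total
  have hlow : (J : ℝ) / R * (∑ i ∈ I, w i - 2 * (1 + Real.log (S : ℝ)) * X') ≤ ∑ i ∈ I, w i * W i := by
    have h1 : ∑ i ∈ I, w i * W i = 1 / (R * NN K r) * ∑ j ∈ range J, ∑ i ∈ I, w i * ‖P (x i - δ₀ - j / R)‖ ^ 2 := by
      rw [sum_comm, mul_sum]
      apply sum_congr rfl; intro i _
      rw [hW]; simp only
      rw [← mul_sum]; ring
    rw [h1]
    have h2 : ∀ j ∈ range J, NN K r * (∑ i ∈ I, w i - 2 * (1 + Real.log (S : ℝ)) * X') ≤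
        ∑ i ∈ I, w i * ‖P (x i - δ₀ - j / R)‖ ^ 2 := by
      intro j _
      have h3 := shift_lower I w x S a ha0 X' hX0 hX' (δ₀ + j / R)
      rw [← hN] at h3
      refine h3.trans (le_of_eq ?_)
      apply sum_congr rfl; intro i _
      rw [hP]; simp only
      congr 4
      funext s
      congr 3; ring
    have h3 := sum_le_sum h2
    rw [sum_const, card_range, nsmul_eq_mul] at h3
    calc (J : ℝ) / R * (∑ i ∈ I, w i - 2 * (1 + Real.log (S : ℝ)) * X') =
          1 / (R * NN K r) * (J * (NN K r * (∑ i ∈ I, w i - 2 * (1 + Real.log (S : ℝ)) * X'))) := by field_simp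
      _ ≤ _ := mul_le_mul_of_nonneg_left h3 (by positivity)
  -- split
  have hsplit := sum_filter_add_sum_filter_not I (fun i => Int.fract (x i) ≤ (J : ℝ) / R + 2 * δ₀) (fun i => w i * W i)
  have h4 : ∑ i ∈ I.filter (fun i => Int.fract (x i) ≤ (J : ℝ) / R + 2 * δ₀), w i * W i ≤
      ∑ i ∈ I.filter (fun i => Int.fract (x i) ≤ (J : ℝ) / R + 2 * δ₀), w i := by
    apply sum_le_sum; intro i hi
    rw [mem_filter] at hi
    exact mul_le_of_le_one_right (hw i hi.1) (hW1 i)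
  have h5 : ∑ i ∈ I.filter (fun i => ¬ (Int.fract (x i) ≤ (J : ℝ) / R + 2 * δ₀)), w i * W i ≤
      (∑ i ∈ I, w i) * ((J : ℝ) / R * ((r * K) * (1 / (δ₀ * K)) ^ (2 * r))) := by
    calc ∑ i ∈ I.filter (fun i => ¬ (Int.fract (x i) ≤ (J : ℝ) / R + 2 * δ₀)), w i * W i ≤
          ∑ i ∈ I.filter (fun i => ¬ (Int.fract (x i) ≤ (J : ℝ) / R + 2 * δ₀)), w i * ((J : ℝ) / R * ((r * K) * (1 / (δ₀ * K)) ^ (2 * r))) := by
          apply sum_le_sum; intro i hi
          rw [mem_filter] at hi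
          exact mul_le_mul_of_nonneg_left (hWtail i hi.2) (hw i hi.1)
      _ ≤ ∑ i ∈ I, w i * ((J : ℝ) / R * ((r * K) * (1 / (δ₀ * K)) ^ (2 * r))) := by
          apply sum_le_sum_of_subset_of_nonneg (filter_subset _ _)
          intro i hi _
          exact mul_nonneg (hw i hi) (by positivity)
      _ = _ := by rw [sum_mul]
  have h6 : (J : ℝ) / R * (∑ i ∈ I, w i - 2 * (1 + Real.log (S : ℝ)) * X' - (∑ i ∈ I, w i) * ((r * K) * (1 / (δ₀ * K)) ^ (2 * r))) =
      (J : ℝ) / R * (∑ i ∈ I, w i - 2 * (1 + Real.log (S : ℝ)) * X') - (∑ i ∈ I, w i) * ((J : ℝ) / R * ((r * K) * (1 / (δ₀ * K)) ^ (2 * r))) := by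
    ring
  rw [h6]
  linarith

end Pool.Agent.H373R2.T3
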