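import Mathlib
import Pool.Agent.H373R2.T3.FracP

namespace Pool.Agent.H373R2.T3
open Finset

/-- mean value bound for powers of real numbers -/
lemma pow_sub_le (d : ℕ) (hd : 1 ≤ d) (a t b : ℝ) (ha : 0 ≤ a) (ht : 0 ≤ t) (hb : a + t ≤ b) :
    (a + t) ^ d ≤ a ^ d + d * t * b ^ (d - 1) := by
  have hb0 : 0 ≤ b := by linarith
  induction d, hd using Nat.le_induction with
  | base => simp
  | succ n hn ih =>
    have h1 : (a + t) ^ (n + 1) = (a + t) ^ n * a + t * (a + t) ^ n := by ring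
    have h2 : (a + t) ^ n ≤ b ^ n := pow_le_pow_left₀ (by linarith) hb n
    have h3 : b ^ (n - 1) * b = b ^ n := by rw [← pow_succ]; congr 1; omega
    have h4 : a ≤ b := by linarith
    calc (a + t) ^ (n + 1) = (a + t) ^ n * a + t * (a + t) ^ n := h1
      _ ≤ (a ^ n + n * t * b ^ (n - 1)) * a + t * b ^ n :=
          add_le_add (mul_le_mul_of_nonneg_right ih ha) (mul_le_mul_of_nonneg_left h2 ht)
      _ = a ^ (n + 1) + n * t * (b ^ (n - 1) * a) + t * b ^ n := by ring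
      _ ≤ a ^ (n + 1) + n * t * (b ^ (n - 1) * b) + t * b ^ n := by gcongr
      _ = _ := by rw [h3, Nat.add_sub_cancel]; push_cast; ring

/-- from primes with a small fractional part of `p^(1/d)` to primes `n^d + u` -/
lemma block_count (d : ℕ) (hd : 2 ≤ d) (y y' H : ℕ) (η : ℝ) (hη : d * η * (y' : ℝ) ^ (d - 1) ≤ H) :
    (#((Ioc (y ^ d) (y' ^ d)).filter (fun p : ℕ => p.Prime ∧ Int.fract ((p : ℝ) ^ (1 / (d : ℝ))) ≤ η)) : ℝ) ≤
      ∑ n ∈ Ico y y', (#{u ∈ Icc 1 H | (u + n ^ d).Prime} : ℝ) := by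
  have hd0 : (0 : ℝ) < d := by exact_mod_cast (by omega : 0 < d)
  have hsum : ∑ n ∈ Ico y y', (#{u ∈ Icc 1 H | (u + n ^ d).Prime} : ℝ) =
      (#((Ico y y').sigma (fun n => (Icc 1 H).filter (fun u => (u + n ^ d).Prime))) : ℝ) := by
    rw [card_sigma]; push_cast; rfl
  rw [hsum, Nat.cast_le]
  apply card_le_card_of_injOn (fun p : ℕ => (⟨⌊(p : ℝ) ^ (1 / (d : ℝ))⌋₊, p - ⌊(p : ℝ) ^ (1 / (d : ℝ))⌋₊ ^ d⟩ : Σ _ : ℕ, ℕ))
  · intro p hp
    rw [mem_coe, mem_filter, mem_Ioc] at hp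
    obtain ⟨⟨hp1, hp2⟩, hp3, hp4⟩ := hp
    set s : ℝ := (p : ℝ) ^ (1 / (d : ℝ)) with hs
    have hs0 : 0 ≤ s := by positivity
    have hsd : s ^ d = p := by
      rw [hs, ← Real.rpow_natCast, ← Real.rpow_mul (Nat.cast_nonneg p), one_div_mul_cancel hd0.ne', Real.rpow_one]
    set n := ⌊s⌋₊ with hn
    have hn1 : (n : ℝ) ≤ s := Nat.floor_le hs0
    have hn2 : s < n + 1 := Nat.lt_floor_add_one s
    have hfr : Int.fract s = s - n := by
      rw [← Int.self_sub_floor, natCast_floor_eq_intCast_floor hs0]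
    have hnp : n ^ d ≤ p := by
      have : (n : ℝ) ^ d ≤ s ^ d := pow_le_pow_left₀ (Nat.cast_nonneg n) hn1 d
      rw [hsd] at this
      exact_mod_cast this
    have hpn : p < (n + 1) ^ d := by
      have : s ^ d < ((n : ℝ) + 1) ^ d := pow_lt_pow_left₀ hn2 hs0 (by omega)
      rw [hsd] at this
      exact_mod_cast this
    have hne : n ^ d ≠ p := by
      intro h
      rw [← h] at hp3
      exact (Nat.Prime.not_prime_pow (by omega : 2 ≤ d)) hp3
    have hlt : n ^ d < p := lt_of_le_of_ne hnp hne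
    have hny' : n < y' := by
      have : n ^ d < y' ^ d := lt_of_lt_of_le hlt hp2
      exact lt_of_pow_lt_pow_left₀ d (by omega) this
    have hyn : y ≤ n := by
      have : y ^ d < (n + 1) ^ d := lt_trans hp1 hpn
      exact Nat.lt_succ_iff.1 (lt_of_pow_lt_pow_left₀ d (by omega) this)
    have hle : p - n ^ d ≤ H := by
      have h1 := pow_sub_le d (by omega) n (s - n) y' (Nat.cast_nonneg n) (by linarith) (by
        have : ((n + 1 : ℕ) : ℝ) ≤ y' := by exact_mod_cast hny'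
        push_cast at this
        linarith)
      rw [show (n : ℝ) + (s - n) = s by ring, hsd] at h1
      rw [hfr] at hp4
      have h2 : (d : ℝ) * (s - n) * (y' : ℝ) ^ (d - 1) ≤ H := by
        refine le_trans ?_ hη
        gcongr
      have h3 : (p : ℝ) ≤ (n : ℝ) ^ d + H := by linarith
      have h4 : p ≤ n ^ d + H := by exact_mod_cast h3
      omega
    rw [mem_coe, mem_sigma]
    refine ⟨mem_Ico.2 ⟨hyn, hny'⟩, ?_⟩
    rw [mem_filter, mem_Icc]
    refine ⟨⟨Nat.sub_pos_of_lt hlt, hle⟩, ?_⟩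
    have e1 : p - n ^ d + n ^ d = p := Nat.sub_add_cancel hnp
    show ((p - n ^ d) + n ^ d).Prime
    rw [e1]
    exact hp3
  · intro p hp q hq hpq
    rw [mem_coe, mem_filter, mem_Ioc] at hp hq
    simp only [Sigma.mk.injEq, heq_eq_eq] at hpq
    obtain ⟨h1, h2⟩ := hpq
    have key : ∀ p : ℕ, ⌊(p : ℝ) ^ (1 / (d : ℝ))⌋₊ ^ d ≤ p := by
      intro p
      have hs0 : 0 ≤ (p : ℝ) ^ (1 / (d : ℝ)) := by positivity
      have hsd : ((p : ℝ) ^ (1 / (d : ℝ))) ^ d = p := by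
        rw [← Real.rpow_natCast, ← Real.rpow_mul (Nat.cast_nonneg p), one_div_mul_cancel hd0.ne', Real.rpow_one]
      have : (⌊(p : ℝ) ^ (1 / (d : ℝ))⌋₊ : ℝ) ^ d ≤ ((p : ℝ) ^ (1 / (d : ℝ))) ^ d :=
        pow_le_pow_left₀ (Nat.cast_nonneg _) (Nat.floor_le hs0) d
      rw [hsd] at this
      exact_mod_cast this
    have k1 := key p
    have k2 := key q
    rw [h1] at h2 k1
    omega

/-- first moment for short shift ranges -/
theorem firstShort (d : ℕ) (hd : 2 ≤ d) (ν : ℝ) (hν0 : 0 < ν) (hν1 : 3 * ν < 1 - 1 / (d : ℝ)) (hν2 : ν < 1 / (d : ℝ))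
    (hν3 : 6 * ν < 1) (ε : ℝ) (hε : 0 < ε) : ∃ c : ℝ, 0 < c ∧ ∃ x₀ : ℕ, ∀ x : ℕ, x₀ ≤ x → ∀ H : ℕ,
      (x : ℝ) ^ ((d : ℝ) - 1 - d * ν) ≤ H → (H : ℝ) ≤ c * (x : ℝ) ^ (d - 1) →
      (1 - ε) * (x * H / (d * Real.log x)) ≤ ∑ n ∈ Icc 1 x, (#{u ∈ Icc 1 H | (u + n ^ d).Prime} : ℝ) := by
  have hd0 : (0 : ℝ) < d := by exact_mod_cast (by omega : 0 < d)
  have hd2 : (2 : ℝ) ≤ d := by exact_mod_cast hd
  have hα1 : 1 / (d : ℝ) < 1 := by rw [div_lt_one hd0]; linarith
  have hα0 : 0 < 1 / (d : ℝ) := by positivity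
  -- a slightly larger exponent
  set ν' : ℝ := ν + min (min ((1 - 1 / (d : ℝ) - 3 * ν) / 6) ((1 / (d : ℝ) - ν) / 2)) ((1 - 6 * ν) / 12) with hν'
  have hmin0 : 0 < min (min ((1 - 1 / (d : ℝ) - 3 * ν) / 6) ((1 / (d : ℝ) - ν) / 2)) ((1 - 6 * ν) / 12) := by
    apply lt_min (lt_min _ _) _ <;> · apply div_pos <;> linarith
  have hνν' : ν < ν' := by rw [hν']; linarith
  have hν'1 : 3 * ν' < 1 - 1 / (d : ℝ) := by
    have : min (min ((1 - 1 / (d : ℝ) - 3 * ν) / 6) ((1 / (d : ℝ) - ν) / 2)) ((1 - 6 * ν) / 12) ≤ (1 - 1 / (d : ℝ) - 3 * ν) / 6 :=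
      (min_le_left _ _).trans (min_le_left _ _)
    rw [hν']; linarith
  have hν'2 : ν' < 1 / (d : ℝ) := by
    have : min (min ((1 - 1 / (d : ℝ) - 3 * ν) / 6) ((1 / (d : ℝ) - ν) / 2)) ((1 - 6 * ν) / 12) ≤ (1 / (d : ℝ) - ν) / 2 :=
      (min_le_left _ _).trans (min_le_right _ _)
    rw [hν']; linarith
  have hν'3 : 6 * ν' < 1 := by
    have : min (min ((1 - 1 / (d : ℝ) - 3 * ν) / 6) ((1 / (d : ℝ) - ν) / 2)) ((1 - 6 * ν) / 12) ≤ (1 - 6 * ν) / 12 :=
      min_le_right _ _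
    rw [hν']; linarith
  have hν'0 : 0 < ν' := by linarith
  set ε₁ : ℝ := min (1 / 2) (ε / 5) with hε₁
  have hε₁0 : 0 < ε₁ := by positivity
  have hε₁1 : ε₁ ≤ 1 / 2 := min_le_left _ _
  have hε₁2 : 5 * ε₁ ≤ ε := by
    have : ε₁ ≤ ε / 5 := min_le_right _ _
    linarith
  -- the number of blocks
  obtain ⟨j₀, hj₀⟩ := exists_nat_gt (2 * (d : ℝ) / ε₁ + 2 * d)
  have hj₀r : 2 * (d : ℝ) < j₀ := by
    have : 0 ≤ 2 * (d : ℝ) / ε₁ := by positivity
    linarith
  have hj₀d : 2 * d < j₀ := by exact_mod_cast hj₀r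
  have hj₀ε : 2 * (d : ℝ) / ε₁ ≤ j₀ := by linarith
  have hj₀0 : (0 : ℝ) < j₀ := by linarith
  have hj₀ε' : 2 * (d : ℝ) ≤ j₀ * ε₁ := by rwa [div_le_iff₀ hε₁0] at hj₀ε
  have hj₀1 : 1 / (j₀ : ℝ) ≤ ε₁ := by
    rw [div_le_iff₀ hj₀0]
    linarith
  set T : ℕ := j₀ ^ 2 with hT
  have hT1 : 1 ≤ T := Nat.one_le_pow _ _ (by omega)
  have hT0 : (0 : ℝ) < T := by exact_mod_cast hT1
  have hTj : j₀ ≤ T := by rw [hT]; nlinarith
  obtain ⟨N₀, hN₀⟩ := frac_count hα0 hα1 ν' hν'0 hν'1 hν'2 hν'3 T hT1 ε₁ hε₁0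
  -- the condition on the exponent
  have hl : Filter.Tendsto (fun N : ℕ => (N : ℝ)) Filter.atTop Filter.atTop := tendsto_natCast_atTop_atTop
  have h4 : Filter.Tendsto (fun N : ℕ => (N : ℝ) ^ (d * (ν' - ν))) Filter.atTop Filter.atTop :=
    (tendsto_rpow_atTop (mul_pos hd0 (by linarith))).comp hl
  obtain ⟨x₁, hx₁⟩ := Filter.eventually_atTop.1 (h4.eventually_ge_atTop ((2 * T : ℝ) ^ (d * ν') * d))
  refine ⟨1 / (2 * j₀ : ℝ) ^ (d - 1), by positivity, x₁ + T * (N₀ + 2) + 2 * T + j₀ * T + 3, ?_⟩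
  intro x hx H hH1 hH2
  have hx3 : (3 : ℝ) ≤ x := by exact_mod_cast (by omega : 3 ≤ x)
  have hx0 : (0 : ℝ) < x := by linarith
  have hlogx : 0 < Real.log x := Real.log_pos (by linarith)
  set w : ℕ := x / T with hw
  have hwT : w * T ≤ x := Nat.div_mul_le_self x T
  have hwT2 : x < (w + 1) * T := by
    have := Nat.lt_mul_div_succ x (by omega : 0 < T)
    rw [← hw] at this
    calc x < T * (w + 1) := this
      _ = _ := by ring
  have hwbig : N₀ + 2 ≤ w := by
    rw [hw, Nat.le_div_iff_mul_le (by omega)]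
    calc (N₀ + 2) * T = T * (N₀ + 2) := by ring
      _ ≤ x := by omega
  have hw0 : (0 : ℝ) < w := by exact_mod_cast (by omega : 0 < w)
  have hwTr : (w : ℝ) * T ≤ x := by exact_mod_cast hwT
  have hwT2r : (x : ℝ) < (w + 1) * T := by exact_mod_cast hwT2
  have hwhalf : (x : ℝ) ≤ 2 * T * w := by
    have h1 : (w : ℝ) + 1 ≤ 2 * w := by
      have : (1 : ℝ) ≤ w := by exact_mod_cast (by omega : 1 ≤ w)
      linarith
    calc (x : ℝ) ≤ (w + 1) * T := hwT2r.le
      _ ≤ (2 * w) * T := mul_le_mul_of_nonneg_right h1 hT0.le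
      _ = _ := by ring
  have hH0 : (0 : ℝ) < H := lt_of_lt_of_le (Real.rpow_pos_of_pos hx0 _) hH1
  -- each block
  have hblock : ∀ j ∈ Ico j₀ T, (1 - ε₁) ^ 2 * (w * H / (d * Real.log x)) ≤
      ∑ n ∈ Ico (j * w) ((j + 1) * w), (#{u ∈ Icc 1 H | (u + n ^ d).Prime} : ℝ) := by
    intro j hj
    rw [mem_Ico] at hj
    have hj0 : (0 : ℝ) < j := by exact_mod_cast (by omega : 0 < j)
    have hjj₀ : (j₀ : ℝ) ≤ j := by exact_mod_cast hj.1
    set y : ℕ := j * w with hy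
    set y' : ℕ := (j + 1) * w with hy'
    have hyw : w ≤ y := by rw [hy]; exact Nat.le_mul_of_pos_left w (by omega)
    have hyr : (y : ℝ) = j * w := by rw [hy]; push_cast; ring
    have hy'r : (y' : ℝ) = (j + 1) * w := by rw [hy']; push_cast; ring
    have hy0 : (0 : ℝ) < y := by rw [hyr]; positivity
    have hy'0 : (0 : ℝ) < y' := by rw [hy'r]; positivity
    have hyy' : y ≤ y' := by rw [hy, hy']; exact Nat.mul_le_mul_right _ (by omega)
    have hyy'r : (y : ℝ) ≤ y' := by exact_mod_cast hyy'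
    have hy'x : (y' : ℝ) ≤ x := by
      rw [hy'r]
      calc ((j : ℝ) + 1) * w ≤ T * w := by
            apply mul_le_mul_of_nonneg_right _ hw0.le
            exact_mod_cast (by omega : j + 1 ≤ T)
        _ = w * T := by ring
        _ ≤ x := hwTr
    set η : ℝ := H / (d * (y' : ℝ) ^ (d - 1)) with hη
    have hη0 : 0 < η := by positivity
    have hηH : d * η * (y' : ℝ) ^ (d - 1) ≤ H := by
      rw [hη]; apply le_of_eq; field_simp
    have hbc := block_count d hd y y' H η hηH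
    refine le_trans ?_ hbc
    -- conditions
    have c1 : N₀ ≤ y ^ d := by
      have : y ≤ y ^ d := Nat.le_self_pow (by omega) y
      omega
    have c2 : y ^ d ≤ y' ^ d := Nat.pow_le_pow_left hyy' d
    have hratio : (y' : ℝ) = (1 + 1 / j) * y := by rw [hy'r, hyr]; field_simp
    have hjinv : 1 / (j : ℝ) ≤ 1 / j₀ := one_div_le_one_div_of_le hj₀0 hjj₀
    have c3 : y' ^ d ≤ 2 * y ^ d := by
      have h1 : (1 + 1 / (j : ℝ)) ^ d ≤ 2 := by
        have h2 : 1 / (j : ℝ) ≤ 1 / (2 * d) := hjinv.trans (one_div_le_one_div_of_le (by positivity) hj₀r.le)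
        have h3 : (1 + 1 / (j : ℝ)) ^ d ≤ Real.exp (1 / 2) := by
          calc (1 + 1 / (j : ℝ)) ^ d ≤ (Real.exp (1 / (2 * d))) ^ d := by
                apply pow_le_pow_left₀ (by positivity)
                have := Real.add_one_le_exp (1 / (2 * (d : ℝ)))
                linarith
            _ = Real.exp (1 / 2) := by
                rw [← Real.exp_nat_mul]; congr 1; field_simp
        have h5 : Real.exp (1 / 2) ≤ 2 := by
          have h6 : Real.exp (1 / 2) ^ 2 = Real.exp 1 := by rw [← Real.exp_nat_mul]; norm_num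
          have h7 := Real.exp_one_lt_d9
          have h8 := Real.exp_pos (1 / 2)
          nlinarith
        linarith
      have : (y' : ℝ) ^ d ≤ 2 * (y : ℝ) ^ d := by
        rw [hratio, mul_pow]
        exact mul_le_mul_of_nonneg_right h1 (by positivity)
      exact_mod_cast this
    -- lower bound for the difference
    have hdiff : (d : ℝ) * w * (y : ℝ) ^ (d - 1) ≤ (y' : ℝ) ^ d - (y : ℝ) ^ d := by
      have h1 : (y' : ℝ) = y + w := by rw [hy'r, hyr]; ring
      have h2a : (0 : ℝ) ≤ (w : ℝ) / y := by positivity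
      have h2 := one_add_mul_le_pow (a := (w : ℝ) / y) (by linarith) d
      have h3 : (y' : ℝ) ^ d = (1 + w / y) ^ d * (y : ℝ) ^ d := by
        rw [← mul_pow]; congr 1; rw [h1]; field_simp
      have h5 : (y : ℝ) ^ d = y * (y : ℝ) ^ (d - 1) := by
        rw [← pow_succ']; congr 1; omega
      have h6 : (1 + d * (w / y)) * (y : ℝ) ^ d ≤ (y' : ℝ) ^ d := by
        rw [h3]; exact mul_le_mul_of_nonneg_right h2 (by positivity)
      have h7 : (1 + d * ((w : ℝ) / y)) * (y : ℝ) ^ d = (y : ℝ) ^ d + d * w * (y : ℝ) ^ (d - 1) := by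
        rw [h5]; field_simp
      linarith
    have c4 : y ^ d ≤ T * (y' ^ d - y ^ d) := by
      have h1 : (y : ℝ) ^ d ≤ T * ((y' : ℝ) ^ d - (y : ℝ) ^ d) := by
        have h5 : (y : ℝ) ^ d = y * (y : ℝ) ^ (d - 1) := by
          rw [← pow_succ']; congr 1; omega
        calc (y : ℝ) ^ d = y * (y : ℝ) ^ (d - 1) := h5
          _ ≤ (T * (d * w)) * (y : ℝ) ^ (d - 1) := by
              apply mul_le_mul_of_nonneg_right _ (by positivity)
              rw [hyr]
              calc (j : ℝ) * w ≤ T * w := by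
                    apply mul_le_mul_of_nonneg_right _ hw0.le
                    exact_mod_cast hj.2.le
                _ = T * (1 * w) := by ring
                _ ≤ T * (d * w) := by gcongr; linarith
          _ = T * (d * w * (y : ℝ) ^ (d - 1)) := by ring
          _ ≤ _ := mul_le_mul_of_nonneg_left hdiff hT0.le
      have h2 : ((y ^ d : ℕ) : ℝ) ≤ ((T * (y' ^ d - y ^ d) : ℕ) : ℝ) := by
        rw [Nat.cast_mul, Nat.cast_sub c2]; push_cast; exact h1
      exact_mod_cast h2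
    have c5 : ((y ^ d : ℕ) : ℝ) ^ (-ν') ≤ η := by
      have h1 : ((y ^ d : ℕ) : ℝ) ^ (-ν') = (y : ℝ) ^ (-(d * ν')) := by
        rw [Nat.cast_pow, ← Real.rpow_natCast, ← Real.rpow_mul hy0.le]; congr 1; ring
      have h2 : (y : ℝ) ^ (-(d * ν')) ≤ (x / (2 * T) : ℝ) ^ (-(d * ν')) := by
        apply Real.rpow_le_rpow_of_nonpos (by positivity) _ (by have := mul_pos hd0 hν'0; linarith)
        rw [div_le_iff₀ (by positivity)]
        calc (x : ℝ) ≤ 2 * T * w := hwhalf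
          _ = w * (2 * T) := by ring
          _ ≤ y * (2 * T) := by
              apply mul_le_mul_of_nonneg_right _ (by positivity)
              exact_mod_cast hyw
      have h3 : (x / (2 * T) : ℝ) ^ (-(d * ν')) = (x : ℝ) ^ (-(d * ν')) * (2 * T : ℝ) ^ (d * ν') := by
        rw [Real.div_rpow hx0.le (by positivity), Real.rpow_neg (by positivity : (0 : ℝ) ≤ 2 * T), div_inv_eq_mul]
      have h5 : (2 * T : ℝ) ^ (d * ν') * d ≤ (x : ℝ) ^ (d * (ν' - ν)) := hx₁ x (by omega)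
      rw [h1]
      refine h2.trans ?_
      rw [h3, hη, le_div_iff₀ (by positivity)]
      calc (x : ℝ) ^ (-(d * ν')) * (2 * T : ℝ) ^ (d * ν') * (d * (y' : ℝ) ^ (d - 1)) =
            (x : ℝ) ^ (-(d * ν')) * ((2 * T : ℝ) ^ (d * ν') * d) * (y' : ℝ) ^ (d - 1) := by ring
        _ ≤ (x : ℝ) ^ (-(d * ν')) * (x : ℝ) ^ (d * (ν' - ν)) * (x : ℝ) ^ (d - 1) := by
            gcongr
        _ = (x : ℝ) ^ ((d : ℝ) - 1 - d * ν) := by
            rw [← Real.rpow_natCast (x : ℝ) (d - 1), ← Real.rpow_add hx0, ← Real.rpow_add hx0, Nat.cast_sub (by omega)]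
            congr 1; push_cast; ring
        _ ≤ H := hH1
    have c6 : η ≤ 1 / 2 := by
      rw [hη, div_le_iff₀ (by positivity)]
      have h1 : (x : ℝ) ≤ 2 * j₀ * y' := by
        calc (x : ℝ) ≤ 2 * T * w := hwhalf
          _ = 2 * j₀ * (j₀ * w) := by rw [hT]; push_cast; ring
          _ ≤ 2 * j₀ * y' := by
              apply mul_le_mul_of_nonneg_left _ (by positivity)
              rw [hy'r]
              apply mul_le_mul_of_nonneg_right _ hw0.le
              linarith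
      calc (H : ℝ) ≤ 1 / (2 * j₀ : ℝ) ^ (d - 1) * (x : ℝ) ^ (d - 1) := hH2
        _ ≤ 1 / (2 * j₀ : ℝ) ^ (d - 1) * (2 * j₀ * y') ^ (d - 1) := by gcongr
        _ = (y' : ℝ) ^ (d - 1) := by
            rw [mul_pow (2 * (j₀ : ℝ)) (y' : ℝ) (d - 1), ← mul_assoc, one_div_mul_cancel (by positivity), one_mul]
        _ ≤ 1 / 2 * (d * (y' : ℝ) ^ (d - 1)) := by
            have : 0 < (y' : ℝ) ^ (d - 1) := by positivity
            nlinarith
    have hfc := hN₀ (y ^ d) c1 (y' ^ d) c2 c3 c4 η c5 c6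
    refine le_trans ?_ hfc
    -- final comparison
    have hlogy' : Real.log ((y' ^ d : ℕ) : ℝ) ≤ d * Real.log x := by
      rw [Nat.cast_pow, Real.log_pow]
      apply mul_le_mul_of_nonneg_left _ hd0.le
      exact Real.log_le_log hy'0 hy'x
    have hlogy'0 : 0 < Real.log ((y' ^ d : ℕ) : ℝ) := by
      apply Real.log_pos
      have h1 : y' ≤ y' ^ d := Nat.le_self_pow (by omega) y'
      exact_mod_cast (by omega : 1 < y' ^ d)
    have hyratio : (1 - ε₁) ≤ ((y : ℝ) / y') ^ (d - 1) := by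
      have h1 : (y : ℝ) / y' = 1 + -(1 / ((j : ℝ) + 1)) := by
        rw [hyr, hy'r, mul_div_mul_right _ _ hw0.ne']
        have : (j : ℝ) + 1 ≠ 0 := by positivity
        rw [div_eq_iff this, add_mul, neg_mul, one_div_mul_cancel this]; ring
      have h2 : 1 / ((j : ℝ) + 1) ≤ 1 / j₀ := one_div_le_one_div_of_le hj₀0 (by linarith)
      have h3 : 1 / ((j : ℝ) + 1) ≤ 1 := by
        rw [div_le_one (by positivity)]; linarith
      rw [h1]
      refine le_trans ?_ (one_add_mul_le_pow (by linarith) (d - 1))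
      have h5 : ((d - 1 : ℕ) : ℝ) ≤ d := by exact_mod_cast Nat.sub_le d 1
      have h6 : ((d - 1 : ℕ) : ℝ) * (1 / ((j : ℝ) + 1)) ≤ d * (1 / j₀) := by
        apply mul_le_mul h5 h2 (by positivity) hd0.le
      have h7 : (d : ℝ) * (1 / j₀) ≤ ε₁ := by
        rw [mul_one_div, div_le_iff₀ hj₀0]
        linarith
      linarith
    have hfin : (1 - ε₁) * (w * H / (d * Real.log x)) ≤ η * (((y' ^ d : ℕ) : ℝ) - ((y ^ d : ℕ) : ℝ)) / Real.log ((y' ^ d : ℕ) : ℝ) := by
      calc (1 - ε₁) * (w * H / (d * Real.log x)) ≤ ((y : ℝ) / y') ^ (d - 1) * (w * H / (d * Real.log x)) :=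
            mul_le_mul_of_nonneg_right hyratio (by positivity)
        _ = η * (d * w * (y : ℝ) ^ (d - 1)) / (d * Real.log x) := by
            rw [hη, div_pow]; field_simp
        _ ≤ η * ((y' : ℝ) ^ d - (y : ℝ) ^ d) / (d * Real.log x) := by gcongr
        _ ≤ η * ((y' : ℝ) ^ d - (y : ℝ) ^ d) / Real.log ((y' ^ d : ℕ) : ℝ) := by
            apply div_le_div_of_nonneg_left _ hlogy'0 hlogy'
            apply mul_nonneg hη0.le
            have : 0 ≤ (d : ℝ) * w * (y : ℝ) ^ (d - 1) := by positivity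
            linarith
        _ = _ := by push_cast; rfl
    calc (1 - ε₁) ^ 2 * (w * H / (d * Real.log x)) = (1 - ε₁) * ((1 - ε₁) * (w * H / (d * Real.log x))) := by ring
      _ ≤ _ := mul_le_mul_of_nonneg_left hfin (by linarith)
  -- sum over the blocks
  have hsum : ∑ j ∈ Ico j₀ T, ∑ n ∈ Ico (j * w) ((j + 1) * w), (#{u ∈ Icc 1 H | (u + n ^ d).Prime} : ℝ) ≤
      ∑ n ∈ Icc 1 x, (#{u ∈ Icc 1 H | (u + n ^ d).Prime} : ℝ) := by
    have hmid : ∀ T' : ℕ, j₀ ≤ T' → ∑ j ∈ Ico j₀ T', ∑ n ∈ Ico (j * w) ((j + 1) * w), (#{u ∈ Icc 1 H | (u + n ^ d).Prime} : ℝ) =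
        ∑ n ∈ Ico (j₀ * w) (T' * w), (#{u ∈ Icc 1 H | (u + n ^ d).Prime} : ℝ) := by
      intro T' hT'
      induction T', hT' using Nat.le_induction with
      | base => simp
      | succ m hm ih =>
        rw [sum_Ico_succ_top hm, ih, sum_Ico_consecutive]
        · exact Nat.mul_le_mul_right _ hm
        · exact Nat.mul_le_mul_right _ (by omega)
    rw [hmid T hTj]
    -- the last point `T w` may exceed `x` by nothing
    apply sum_le_sum_of_subset_of_nonneg
    · intro n hn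
      rw [mem_Ico] at hn
      rw [mem_Icc]
      have h1 : 1 ≤ j₀ * w := Nat.mul_pos (by omega) (by omega)
      have h2 : T * w ≤ x := by rw [mul_comm]; exact hwT
      omega
    · intro n _ _; positivity
  refine le_trans ?_ hsum
  refine le_trans ?_ (sum_le_sum hblock)
  rw [sum_const, Nat.card_Ico, nsmul_eq_mul, Nat.cast_sub hTj]
  -- (T - j0) w ≥ (1-ε₁)² x
  have h5 : (1 - ε₁) ^ 2 * x ≤ ((T : ℝ) - j₀) * w := by
    have h6 : (1 - ε₁) * x ≤ T * w := by
      have h7 : (x : ℝ) - T ≤ T * w := by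
        have : (w + 1 : ℝ) * T = T * w + T := by ring
        linarith
      have h8 : (T : ℝ) ≤ ε₁ * x := by
        have h9 : (j₀ : ℝ) * T ≤ x := by exact_mod_cast (by omega : j₀ * T ≤ x)
        have h10 : (1 : ℝ) ≤ j₀ * ε₁ := by linarith
        calc (T : ℝ) = T * 1 := by ring
          _ ≤ T * (j₀ * ε₁) := mul_le_mul_of_nonneg_left h10 hT0.le
          _ = (j₀ * T) * ε₁ := by ring
          _ ≤ x * ε₁ := mul_le_mul_of_nonneg_right h9 hε₁0.le
          _ = _ := by ring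
      linarith
    have h7 : (1 - ε₁) * (T : ℝ) ≤ T - j₀ := by
      have h8 : (j₀ : ℝ) ≤ ε₁ * T := by
        rw [hT]; push_cast
        have : (1 : ℝ) ≤ j₀ * ε₁ := by linarith
        calc (j₀ : ℝ) = j₀ * 1 := by ring
          _ ≤ j₀ * (j₀ * ε₁) := mul_le_mul_of_nonneg_left this hj₀0.le
          _ = _ := by ring
      linarith
    calc (1 - ε₁) ^ 2 * x = (1 - ε₁) * ((1 - ε₁) * x) := by ring
      _ ≤ (1 - ε₁) * (T * w) := mul_le_mul_of_nonneg_left h6 (by linarith)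
      _ = ((1 - ε₁) * T) * w := by ring
      _ ≤ _ := mul_le_mul_of_nonneg_right h7 hw0.le
  have h6 : (1 - ε) ≤ (1 - ε₁) ^ 4 := by
    have := one_add_mul_le_pow (a := -ε₁) (by linarith) 4
    push_cast at this
    have h7 : (1 + -ε₁) ^ 4 = (1 - ε₁) ^ 4 := by ring
    rw [h7] at this
    linarith
  calc (1 - ε) * (x * H / (d * Real.log x)) ≤ (1 - ε₁) ^ 4 * (x * H / (d * Real.log x)) :=
        mul_le_mul_of_nonneg_right h6 (by positivity)
    _ = (1 - ε₁) ^ 2 * (((1 - ε₁) ^ 2 * x) * (H / (d * Real.log x))) := by ring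
    _ ≤ (1 - ε₁) ^ 2 * ((((T : ℝ) - j₀) * w) * (H / (d * Real.log x))) := by
        apply mul_le_mul_of_nonneg_left _ (by positivity)
        exact mul_le_mul_of_nonneg_right h5 (by positivity)
    _ = _ := by ring

end Pool.Agent.H373R2.T3
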