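import Mathlib
import Pool.Agent.H373R2.T3.Kernel
import Pool.Agent.H373R2.T3.ExpP
import Pool.Agent.H373R2.SH.PntB

namespace Pool.Agent.H373R2.T3
open Finset
open Pool.Agent.H469R2.NK (e norm_e e_add conj_e e_zero)

/-- the primes weighted by the von Mangoldt function with a small fractional part of `n^α` -/
theorem frac_mangoldt' {α : ℝ} (h0 : 0 < α) (h1 : α < 1) (ν : ℝ) (hν0 : 0 < ν) (hν1 : 3 * ν < 1 - α) (hν2 : ν < α)
    (hν3 : 6 * ν < 1) (ε : ℝ) (hε : 0 < ε) (hε1 : ε < 1) : ∃ N₀ : ℕ, ∀ N : ℕ, N₀ ≤ N → ∀ N' : ℕ, N ≤ N' → N' ≤ 2 * N →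
      ∀ β η : ℝ, (N : ℝ) ^ (-ν) ≤ η → η ≤ 1 / 2 →
      (1 - ε) * η * (∑ n ∈ Ioc N N', ArithmeticFunction.vonMangoldt n) - ε * η * N ≤
        ∑ n ∈ (Ioc N N').filter (fun n : ℕ => Int.fract ((n : ℝ) ^ α - β) ≤ η), ArithmeticFunction.vonMangoldt n := by
  set δ : ℝ := min (min ((1 - α - 3 * ν) / 15) ((α - ν) / 9)) ((1 - 6 * ν) / 36) with hδ
  have hδ0 : 0 < δ := by
    apply lt_min (lt_min _ _) _ <;> · apply div_pos <;> linarith
  have hδ1 : 15 * δ ≤ 1 - α - 3 * ν := by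
    have : δ ≤ (1 - α - 3 * ν) / 15 := (min_le_left _ _).trans (min_le_left _ _)
    linarith
  have hδ2 : 9 * δ ≤ α - ν := by
    have : δ ≤ (α - ν) / 9 := (min_le_left _ _).trans (min_le_right _ _)
    linarith
  have hδ3 : 36 * δ ≤ 1 - 6 * ν := by
    have : δ ≤ (1 - 6 * ν) / 36 := min_le_right _ _
    linarith
  set r : ℕ := ⌈2 / δ⌉₊ with hr
  have hrδ : 2 ≤ r * δ := by
    have := Nat.le_ceil (2 / δ)
    rw [← hr, div_le_iff₀ hδ0] at this
    exact this
  have hr1 : 1 ≤ r := Nat.ceil_pos.2 (by positivity)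
  have hr0 : (0 : ℝ) < r := by exact_mod_cast hr1
  obtain ⟨N₁, hN₁⟩ := exp_primes h0 h1 δ hδ0
  obtain ⟨N₂, hN₂⟩ := ev_log (8 / ε) δ hδ0 1
  have hl : Filter.Tendsto (fun N : ℕ => (N : ℝ)) Filter.atTop Filter.atTop := tendsto_natCast_atTop_atTop
  have h4 : Filter.Tendsto (fun N : ℕ => (N : ℝ) ^ (2 * δ)) Filter.atTop Filter.atTop :=
    (tendsto_rpow_atTop (by positivity)).comp hl
  obtain ⟨N₃, hN₃⟩ := Filter.eventually_atTop.1 (h4.eventually_ge_atTop (r * (9 / ε)))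
  obtain ⟨N₄, hN₄⟩ := exists_nat_gt (8 / ε)
  refine ⟨N₁ + N₂ + N₃ + N₄ + 12, ?_⟩
  intro N hN N' hNN' hN' β η hη1 hη2
  have hN1 : (12 : ℝ) ≤ N := by exact_mod_cast (by omega : 12 ≤ N)
  have hN0 : (0 : ℝ) < N := by linarith
  have hN1' : (1 : ℝ) ≤ N := by linarith
  have hη0 : 0 < η := lt_of_lt_of_le (Real.rpow_pos_of_pos hN0 _) hη1
  set P : ℝ := (N : ℝ) ^ δ with hP
  have hP0 : 0 < P := Real.rpow_pos_of_pos hN0 _
  have hP1 : 1 ≤ P := Real.one_le_rpow hN1' hδ0.le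
  set δ₀ : ℝ := ε * η / 8 with hδ₀
  have hδ₀0 : 0 < δ₀ := by positivity
  set K : ℕ := ⌈P / δ₀⌉₊ with hK
  have hK1 : 1 ≤ K := Nat.ceil_pos.2 (by positivity)
  have hK0 : (0 : ℝ) < K := by exact_mod_cast hK1
  have hKlow : P ≤ δ₀ * K := by
    have := Nat.le_ceil (P / δ₀)
    rw [← hK, div_le_iff₀ hδ₀0] at this
    linarith
  -- upper bound for K
  have hηinv : 1 / η ≤ (N : ℝ) ^ ν := by
    rw [div_le_iff₀ hη0]
    calc (1 : ℝ) = (N : ℝ) ^ ν * (N : ℝ) ^ (-ν) := by rw [← Real.rpow_add hN0]; norm_num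
      _ ≤ _ := mul_le_mul_of_nonneg_left hη1 (Real.rpow_nonneg hN0.le _)
  have hNν1 : 1 ≤ (N : ℝ) ^ ν := Real.one_le_rpow hN1' hν0.le
  have hKup : (K : ℝ) ≤ 9 / ε * (P * (N : ℝ) ^ ν) := by
    have h2 := (Nat.ceil_lt_add_one (show 0 ≤ P / δ₀ by positivity)).le
    rw [← hK] at h2
    have h3 : P / δ₀ ≤ 8 / ε * (P * (N : ℝ) ^ ν) := by
      calc P / δ₀ = 8 / ε * (P * (1 / η)) := by rw [hδ₀]; field_simp
        _ ≤ _ := by gcongr
    have h5 : 1 ≤ 1 / ε * (P * (N : ℝ) ^ ν) := by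
      have h6 : 1 ≤ 1 / ε := by rw [le_div_iff₀ hε]; linarith
      have h7 : 1 ≤ P * (N : ℝ) ^ ν := by nlinarith
      nlinarith
    calc (K : ℝ) ≤ P / δ₀ + 1 := h2
      _ ≤ 8 / ε * (P * (N : ℝ) ^ ν) + 1 / ε * (P * (N : ℝ) ^ ν) := add_le_add h3 h5
      _ = _ := by ring
  have hrK : (r * K : ℝ) ≤ (N : ℝ) ^ (ν + 3 * δ) := by
    have h2 : r * (9 / ε) ≤ (N : ℝ) ^ (2 * δ) := hN₃ N (by omega)
    calc (r * K : ℝ) ≤ r * (9 / ε * (P * (N : ℝ) ^ ν)) := mul_le_mul_of_nonneg_left hKup hr0.le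
      _ = (r * (9 / ε)) * (P * (N : ℝ) ^ ν) := by ring
      _ ≤ (N : ℝ) ^ (2 * δ) * (P * (N : ℝ) ^ ν) := mul_le_mul_of_nonneg_right h2 (by positivity)
      _ = _ := by rw [hP, ← Real.rpow_add hN0, ← Real.rpow_add hN0]; congr 1; ring
  have hrKN : (r * K : ℝ) ≤ N := by
    refine hrK.trans ?_
    calc (N : ℝ) ^ (ν + 3 * δ) ≤ (N : ℝ) ^ (1 : ℝ) := Real.rpow_le_rpow_of_exponent_le hN1' (by linarith)
      _ = N := Real.rpow_one _
  -- exponential sums
  set X' : ℝ := (N : ℝ) ^ (1 - δ) with hX'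
  have hexp : ∀ k : ℕ, 1 ≤ k → k < r * K →
      ‖∑ n ∈ Ioc N N', ((ArithmeticFunction.vonMangoldt n : ℝ) : ℂ) * e (k * (n : ℝ) ^ α)‖ ≤ X' / k := by
    intro k hk1 hk2
    have hkr : (1 : ℝ) ≤ k := by exact_mod_cast hk1
    have hkr2 : (k : ℝ) ≤ (N : ℝ) ^ (ν + 3 * δ) := by
      have : (k : ℝ) ≤ r * K := by exact_mod_cast hk2.le
      exact this.trans hrK
    apply hN₁ N (by omega) N' hNN' hN' k hkr
    · calc (k : ℝ) ^ 3 * (N : ℝ) ^ (6 * δ) ≤ ((N : ℝ) ^ (ν + 3 * δ)) ^ 3 * (N : ℝ) ^ (6 * δ) := by gcongr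
        _ = (N : ℝ) ^ (3 * ν + 15 * δ) := by
            rw [← Real.rpow_natCast, ← Real.rpow_mul hN0.le, ← Real.rpow_add hN0]; congr 1; push_cast; ring
        _ ≤ _ := Real.rpow_le_rpow_of_exponent_le hN1' (by linarith)
    · calc (k : ℝ) * (N : ℝ) ^ (6 * δ) ≤ (N : ℝ) ^ (ν + 3 * δ) * (N : ℝ) ^ (6 * δ) := by gcongr
        _ = (N : ℝ) ^ (ν + 9 * δ) := by rw [← Real.rpow_add hN0]; congr 1; ring
        _ ≤ _ := Real.rpow_le_rpow_of_exponent_le hN1' (by linarith)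
    · calc (k : ℝ) ^ 6 * (N : ℝ) ^ (18 * δ) ≤ ((N : ℝ) ^ (ν + 3 * δ)) ^ 6 * (N : ℝ) ^ (18 * δ) := by gcongr
        _ = (N : ℝ) ^ (6 * ν + 36 * δ) := by
            rw [← Real.rpow_natCast, ← Real.rpow_mul hN0.le, ← Real.rpow_add hN0]; congr 1; push_cast; ring
        _ ≤ (N : ℝ) ^ (1 : ℝ) := Real.rpow_le_rpow_of_exponent_le hN1' (by linarith)
        _ = N := Real.rpow_one _
  have hexp' : ∀ k : ℕ, 1 ≤ k → k < r * K →
      ‖∑ n ∈ Ioc N N', ((ArithmeticFunction.vonMangoldt n : ℝ) : ℂ) * e (k * ((n : ℝ) ^ α - β))‖ ≤ X' / k := by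
    intro k hk1 hk2
    have h2 : ∑ n ∈ Ioc N N', ((ArithmeticFunction.vonMangoldt n : ℝ) : ℂ) * e (k * ((n : ℝ) ^ α - β)) =
        e (-(k * β)) * ∑ n ∈ Ioc N N', ((ArithmeticFunction.vonMangoldt n : ℝ) : ℂ) * e (k * (n : ℝ) ^ α) := by
      rw [mul_sum]
      apply sum_congr rfl; intro n _
      rw [show (k : ℝ) * ((n : ℝ) ^ α - β) = -(k * β) + k * (n : ℝ) ^ α by ring, e_add]
      ring
    rw [h2, norm_mul, norm_e, one_mul]
    exact hexp k hk1 hk2
  -- the parameters R and J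
  set R : ℕ := max (r * K) ⌈8 / (ε * η)⌉₊ with hR
  have hR1 : r * K ≤ R := le_max_left _ _
  have hR2 : 8 / (ε * η) ≤ R := (Nat.le_ceil _).trans (by exact_mod_cast le_max_right _ _)
  have hR0 : (0 : ℝ) < R := lt_of_lt_of_le (by positivity) hR2
  have hRinv : 1 / (R : ℝ) ≤ ε * η / 8 := by
    rw [div_le_iff₀ (by positivity)] at hR2
    rw [div_le_iff₀ hR0]
    linarith
  set J : ℕ := ⌊(1 - ε / 2) * η * R⌋₊ with hJ
  have hJ1 : (J : ℝ) / R ≤ (1 - ε / 2) * η := by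
    rw [div_le_iff₀ hR0]
    exact Nat.floor_le (mul_nonneg (mul_nonneg (by linarith) hη0.le) hR0.le)
  have hJ2 : (1 - ε) * η ≤ (J : ℝ) / R := by
    have h2 := (Nat.lt_floor_add_one ((1 - ε / 2) * η * R)).le
    rw [← hJ] at h2
    rw [le_div_iff₀ hR0]
    have h3 : 1 ≤ ε * η / 8 * R := by
      rw [div_le_iff₀ hR0] at hRinv; linarith
    have h5 : 0 ≤ ε * η * R := by positivity
    nlinarith
  have hJ0 : 0 ≤ (J : ℝ) / R := by positivity
  have hker := kernel_lower (Ioc N N') (fun n : ℕ => ArithmeticFunction.vonMangoldt n) (fun n : ℕ => (n : ℝ) ^ α - β)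
    (fun n _ => ArithmeticFunction.vonMangoldt_nonneg) K r R J hK1 hr1 hR1 δ₀ hδ₀0 (by rw [hδ₀]; nlinarith) X'
    (Real.rpow_nonneg hN0.le _) hexp'
  set X : ℝ := ∑ n ∈ Ioc N N', ArithmeticFunction.vonMangoldt n with hX
  have hX0 : 0 ≤ X := sum_nonneg fun n _ => ArithmeticFunction.vonMangoldt_nonneg
  -- error 1
  have hE1 : 2 * (1 + Real.log ((r * K : ℕ) : ℝ)) * X' ≤ ε / 4 * N := by
    have h2 := hN₂ N (by omega)
    rw [pow_one] at h2
    have h3 : Real.log ((r * K : ℕ) : ℝ) ≤ Real.log (4 * N) := by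
      apply Real.log_le_log
      · push_cast; positivity
      · push_cast; linarith
    have h5 : 2 * (1 + Real.log ((r * K : ℕ) : ℝ)) ≤ ε / 4 * P := by
      calc 2 * (1 + Real.log ((r * K : ℕ) : ℝ)) ≤ ε / 4 * (8 / ε * (1 + Real.log (4 * N))) := by
            have : ε / 4 * (8 / ε * (1 + Real.log (4 * N))) = 2 * (1 + Real.log (4 * N)) := by field_simp; ring
            rw [this]; linarith
        _ ≤ _ := mul_le_mul_of_nonneg_left h2 (by positivity)
    calc 2 * (1 + Real.log ((r * K : ℕ) : ℝ)) * X' ≤ ε / 4 * P * X' := mul_le_mul_of_nonneg_right h5 (Real.rpow_nonneg hN0.le _)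
      _ = ε / 4 * ((N : ℝ) ^ δ * (N : ℝ) ^ (1 - δ)) := by rw [hP, hX']; ring
      _ = ε / 4 * N := by rw [← Real.rpow_add hN0]; norm_num
  -- error 2
  have hE2 : X * ((r * K) * (1 / (δ₀ * K)) ^ (2 * r)) ≤ ε / 4 * N := by
    have h2 : X ≤ 2 * (N : ℝ) ^ 2 := by
      calc X ≤ ∑ _n ∈ Ioc N N', (2 * N : ℝ) := by
            apply sum_le_sum; intro n hn
            rw [mem_Ioc] at hn
            refine ArithmeticFunction.vonMangoldt_le_log.trans ?_
            have h3 : (0 : ℝ) < n := by exact_mod_cast (by omega : 0 < n)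
            have h5 := Real.log_le_sub_one_of_pos h3
            have h6 : (n : ℝ) ≤ 2 * N := by exact_mod_cast hn.2.trans hN'
            linarith
        _ = ((N' - N : ℕ) : ℝ) * (2 * N) := by rw [sum_const, Nat.card_Ioc, nsmul_eq_mul]
        _ ≤ N * (2 * N) := by
            apply mul_le_mul_of_nonneg_right _ (by positivity)
            exact_mod_cast (by omega : N' - N ≤ N)
        _ = _ := by ring
    have h3 : (1 / (δ₀ * K)) ^ (2 * r) ≤ 1 / (N : ℝ) ^ 4 := by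
      calc (1 / (δ₀ * K)) ^ (2 * r) ≤ (1 / P) ^ (2 * r) := by
            apply pow_le_pow_left₀ (by positivity)
            exact one_div_le_one_div_of_le hP0 hKlow
        _ = 1 / P ^ (2 * r) := by rw [one_div_pow]
        _ ≤ 1 / (N : ℝ) ^ 4 := by
            apply one_div_le_one_div_of_le (by positivity)
            calc (N : ℝ) ^ 4 = (N : ℝ) ^ (4 : ℝ) := by
                  rw [← Real.rpow_natCast]; norm_num
              _ ≤ (N : ℝ) ^ (δ * (2 * r : ℕ)) := by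
                  apply Real.rpow_le_rpow_of_exponent_le hN1'
                  push_cast; linarith
              _ = P ^ (2 * r) := by rw [hP, Real.rpow_mul hN0.le, Real.rpow_natCast]
    have h5 : 8 / ε < N := hN₄.trans_le (by exact_mod_cast (by omega : N₄ ≤ N))
    calc X * ((r * K) * (1 / (δ₀ * K)) ^ (2 * r)) ≤ (2 * (N : ℝ) ^ 2) * (N * (1 / (N : ℝ) ^ 4)) := by
          apply mul_le_mul h2 _ (by positivity) (by positivity)
          exact mul_le_mul hrKN h3 (by positivity) hN0.le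
      _ = 2 / N := by field_simp
      _ ≤ ε / 4 * N := by
          rw [div_le_iff₀ hN0]
          rw [div_lt_iff₀ hε] at h5
          nlinarith
  have hfin : (1 - ε) * η * X - ε * η * N ≤
      (J : ℝ) / R * (X - 2 * (1 + Real.log ((r * K : ℕ) : ℝ)) * X' - X * ((r * K) * (1 / (δ₀ * K)) ^ (2 * r))) := by
    have h2 : (1 - ε) * η * X ≤ (J : ℝ) / R * X := mul_le_mul_of_nonneg_right hJ2 hX0
    have h3 : (J : ℝ) / R ≤ η := by
      have : 0 ≤ ε / 2 * η := by positivity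
      linarith
    have h5 : (J : ℝ) / R * (2 * (1 + Real.log ((r * K : ℕ) : ℝ)) * X' + X * ((r * K) * (1 / (δ₀ * K)) ^ (2 * r))) ≤
        η * (ε * N) := by
      calc (J : ℝ) / R * (2 * (1 + Real.log ((r * K : ℕ) : ℝ)) * X' + X * ((r * K) * (1 / (δ₀ * K)) ^ (2 * r))) ≤
            (J : ℝ) / R * (ε * N) := by
            apply mul_le_mul_of_nonneg_left _ hJ0
            have : 0 ≤ ε * N := by positivity
            linarith
        _ ≤ _ := mul_le_mul_of_nonneg_right h3 (by positivity)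
    linarith
  refine hfin.trans (hker.trans ?_)
  apply sum_le_sum_of_subset_of_nonneg
  · intro n hn
    rw [mem_filter] at hn ⊢
    refine ⟨hn.1, hn.2.trans ?_⟩
    rw [hδ₀]
    have : 0 ≤ ε * η := by positivity
    linarith
  · intro n _ _; exact ArithmeticFunction.vonMangoldt_nonneg

/-- the number of primes with a small fractional part of `p^α` -/
theorem frac_count' {α : ℝ} (h0 : 0 < α) (h1 : α < 1) (ν : ℝ) (hν0 : 0 < ν) (hν1 : 3 * ν < 1 - α) (hν2 : ν < α)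
    (hν3 : 6 * ν < 1) (B : ℕ) (hB : 1 ≤ B) (ε : ℝ) (hε : 0 < ε) : ∃ N₀ : ℕ, ∀ N : ℕ, N₀ ≤ N → ∀ N' : ℕ, N ≤ N' →
      N' ≤ 2 * N → N ≤ B * (N' - N) → ∀ β η : ℝ, (N : ℝ) ^ (-ν) ≤ η → η ≤ 1 / 2 →
      (1 - ε) * (η * ((N' : ℝ) - N) / Real.log N') ≤
        #((Ioc N N').filter (fun p : ℕ => p.Prime ∧ Int.fract ((p : ℝ) ^ α - β) ≤ η)) := by
  have hBr : (1 : ℝ) ≤ B := by exact_mod_cast hB
  set ε₁ : ℝ := min (1 / 2) (ε / (5 * B)) with hε₁
  have hε₁0 : 0 < ε₁ := by positivity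
  have hε₁1 : ε₁ ≤ 1 / 2 := min_le_left _ _
  have hε₁2 : 5 * B * ε₁ ≤ ε := by
    have : ε₁ ≤ ε / (5 * B) := min_le_right _ _
    rw [le_div_iff₀ (by positivity)] at this
    linarith
  obtain ⟨N₁, hN₁⟩ := frac_mangoldt' h0 h1 ν hν0 hν1 hν2 hν3 ε₁ hε₁0 (by linarith)
  obtain ⟨M₁, hM₁⟩ := Pool.Agent.H373R2.SH.pnt_windowB B hB ε₁ hε₁0
  obtain ⟨N₂, hN₂⟩ := ev_log (4 / ε₁) (1 / 3) (by norm_num) 1
  have hl : Filter.Tendsto (fun N : ℕ => (N : ℝ)) Filter.atTop Filter.atTop := tendsto_natCast_atTop_atTop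
  have hlog := Real.tendsto_log_atTop.comp hl
  obtain ⟨N₃, hN₃⟩ := Filter.eventually_atTop.1 (hlog.eventually_ge_atTop (Real.log 2 / ε₁))
  refine ⟨N₁ + N₂ + N₃ + B * (M₁ + 2) + 12, ?_⟩
  intro N hN N' hNN' hN' hNB β η hη1 hη2
  have hN1 : (12 : ℝ) ≤ N := by exact_mod_cast (by omega : 12 ≤ N)
  have hN0 : (0 : ℝ) < N := by linarith
  have hN1' : (1 : ℝ) ≤ N := by linarith
  have hN'0 : (0 : ℝ) < N' := by exact_mod_cast (by omega : 0 < N')
  have hη0 : 0 < η := lt_of_lt_of_le (Real.rpow_pos_of_pos hN0 _) hη1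
  set M : ℕ := N' - N with hM
  have hMbig : M₁ + 2 ≤ M := by
    by_contra h
    push Not at h
    have : B * M ≤ B * (M₁ + 2) := Nat.mul_le_mul_left _ h.le
    omega
  have hMr : (M : ℝ) = (N' : ℝ) - N := by rw [hM, Nat.cast_sub hNN']
  have hM2 : (2 : ℝ) ≤ M := by exact_mod_cast (by omega : 2 ≤ M)
  have hM0 : (0 : ℝ) < M := by linarith
  have hMN' : M + N = N' := by omega
  have hlogN : 0 < Real.log N := Real.log_pos (by linarith)
  have hlogN' : 0 < Real.log N' := Real.log_pos (by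
    have : (N : ℝ) ≤ N' := by exact_mod_cast hNN'
    linarith)
  have hlogM : 0 < Real.log M := Real.log_pos (by linarith)
  have hlogMN' : Real.log M ≤ Real.log N' := Real.log_le_log hM0 (by exact_mod_cast (by omega : M ≤ N'))
  -- logs are close
  have hlogNN' : (1 - ε₁) * Real.log N' ≤ Real.log N := by
    have h2 : Real.log N' ≤ Real.log 2 + Real.log N := by
      rw [← Real.log_mul (by norm_num) hN0.ne']
      exact Real.log_le_log hN'0 (by exact_mod_cast hN')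
    have h3 : Real.log 2 / ε₁ ≤ Real.log N := hN₃ N (by omega)
    rw [div_le_iff₀ hε₁0] at h3
    have h5 : Real.log N ≤ Real.log N' := Real.log_le_log hN0 (by exact_mod_cast hNN')
    nlinarith
  set X : ℝ := ∑ n ∈ Ioc N N', ArithmeticFunction.vonMangoldt n with hX
  -- lower bound for X
  have hXlow : (1 - ε₁) ^ 2 * M ≤ X := by
    have h2 : Real.log N * ((Nat.primeCounting N' : ℝ) - Nat.primeCounting N) ≤ X := by
      have h3 : (Nat.primeCounting N' : ℝ) - Nat.primeCounting N = #((Ioc N N').filter Nat.Prime) := by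
        have h5 : Nat.primeCounting N' = Nat.primeCounting N + #((Ioc N N').filter Nat.Prime) := by
          simp only [Nat.primeCounting, Nat.primeCounting', Nat.count_eq_card_filter_range]
          rw [← card_union_of_disjoint]
          · congr 1
            ext p
            simp only [mem_filter, mem_range, mem_union, mem_Ioc]
            constructor
            · intro h; by_cases h6 : p < N + 1
              · exact Or.inl ⟨h6, h.2⟩
              · exact Or.inr ⟨⟨by omega, by omega⟩, h.2⟩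
            · rintro (h | h)
              · exact ⟨by omega, h.2⟩
              · exact ⟨by omega, h.2⟩
          · rw [disjoint_left]
            intro p hp hq
            simp only [mem_filter, mem_range, mem_Ioc] at hp hq
            omega
        rw [h5]; push_cast; ring
      rw [h3, mul_comm, ← nsmul_eq_mul, ← sum_const]
      calc ∑ _p ∈ (Ioc N N').filter Nat.Prime, Real.log N ≤ ∑ p ∈ (Ioc N N').filter Nat.Prime, ArithmeticFunction.vonMangoldt p := by
            apply sum_le_sum; intro p hp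
            rw [mem_filter, mem_Ioc] at hp
            rw [ArithmeticFunction.vonMangoldt_apply_prime hp.2]
            exact Real.log_le_log hN0 (by exact_mod_cast hp.1.1.le)
        _ ≤ X := sum_le_sum_of_subset_of_nonneg (filter_subset _ _) (fun n _ _ => ArithmeticFunction.vonMangoldt_nonneg)
    have h3 := hM₁ M (by omega) N (by omega)
    rw [hMN'] at h3
    refine le_trans ?_ h2
    have h5 : (1 - ε₁) * ((M : ℝ) / Real.log N') ≤ (Nat.primeCounting N' : ℝ) - Nat.primeCounting N := by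
      refine le_trans ?_ h3
      apply mul_le_mul_of_nonneg_left _ (by linarith)
      exact div_le_div_of_nonneg_left hM0.le hlogM hlogMN'
    calc (1 - ε₁) ^ 2 * M = ((1 - ε₁) * Real.log N') * ((1 - ε₁) * ((M : ℝ) / Real.log N')) := by field_simp
      _ ≤ Real.log N * ((1 - ε₁) * ((M : ℝ) / Real.log N')) := by
          apply mul_le_mul_of_nonneg_right hlogNN'
          have : 0 ≤ 1 - ε₁ := by linarith
          positivity
      _ ≤ _ := mul_le_mul_of_nonneg_left h5 hlogN.le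
  have hmain := hN₁ N (by omega) N' hNN' hN' β η hη1 hη2
  rw [← hX] at hmain
  -- prime powers
  set A := (Ioc N N').filter (fun p : ℕ => p.Prime ∧ Int.fract ((p : ℝ) ^ α - β) ≤ η) with hA
  have hpp : ∑ n ∈ (Ioc N N').filter (fun n : ℕ => Int.fract ((n : ℝ) ^ α - β) ≤ η), ArithmeticFunction.vonMangoldt n ≤
      Real.log N' * #A + 2 * Real.sqrt N' * Real.log N' := by
    rw [← sum_filter_add_sum_filter_not ((Ioc N N').filter (fun n : ℕ => Int.fract ((n : ℝ) ^ α - β) ≤ η)) Nat.Prime]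
    apply add_le_add
    · have h2 : ((Ioc N N').filter (fun n : ℕ => Int.fract ((n : ℝ) ^ α - β) ≤ η)).filter Nat.Prime = A := by
        rw [hA, filter_filter]
        apply filter_congr; intro p _; tauto
      rw [h2, mul_comm, ← nsmul_eq_mul, ← sum_const]
      apply sum_le_sum; intro p hp
      rw [hA, mem_filter, mem_Ioc] at hp
      refine ArithmeticFunction.vonMangoldt_le_log.trans ?_
      apply Real.log_le_log
      · exact_mod_cast (by omega : 0 < p)
      · exact_mod_cast hp.1.2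
    · have h2 := Chebyshev.psi_sub_theta_eq_sum_not_prime (N' : ℝ)
      have h3 := Chebyshev.psi_sub_theta_le (x := (N' : ℝ)) (by exact_mod_cast (by omega : 1 ≤ N'))
      rw [h2] at h3
      refine le_trans ?_ h3
      apply sum_le_sum_of_subset_of_nonneg
      · intro n hn
        rw [mem_filter, mem_filter, mem_Ioc] at hn
        rw [mem_filter, mem_Ioc, Nat.floor_natCast]
        exact ⟨⟨by omega, hn.1.1.2⟩, hn.2⟩
      · intro n _ _; exact ArithmeticFunction.vonMangoldt_nonneg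
  -- square root error
  have hsq : 2 * Real.sqrt N' * Real.log N' ≤ ε₁ * (η * N) := by
    have h2 := hN₂ N (by omega)
    rw [pow_one] at h2
    have h3 : Real.sqrt N' ≤ 2 * (N : ℝ) ^ (1 / 2 : ℝ) := by
      rw [← Real.sqrt_eq_rpow]
      calc Real.sqrt N' ≤ Real.sqrt (4 * N) := Real.sqrt_le_sqrt (by
            have : (N' : ℝ) ≤ 2 * N := by exact_mod_cast hN'
            linarith)
        _ = 2 * Real.sqrt N := by
            rw [Real.sqrt_mul (by norm_num), show (4 : ℝ) = 2 ^ 2 by norm_num, Real.sqrt_sq (by norm_num)]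
    have h5 : Real.log N' ≤ ε₁ / 4 * (N : ℝ) ^ (1 / 3 : ℝ) := by
      have h6 : Real.log N' ≤ 1 + Real.log (4 * N) := by
        have : Real.log N' ≤ Real.log (4 * N) := Real.log_le_log hN'0 (by
          have : (N' : ℝ) ≤ 2 * N := by exact_mod_cast hN'
          linarith)
        linarith
      calc Real.log N' ≤ ε₁ / 4 * (4 / ε₁ * (1 + Real.log (4 * N))) := by
            have : ε₁ / 4 * (4 / ε₁ * (1 + Real.log (4 * N))) = 1 + Real.log (4 * N) := by field_simp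
            rw [this]; exact h6
        _ ≤ _ := mul_le_mul_of_nonneg_left h2 (by positivity)
    calc 2 * Real.sqrt N' * Real.log N' ≤ 2 * (2 * (N : ℝ) ^ (1 / 2 : ℝ)) * (ε₁ / 4 * (N : ℝ) ^ (1 / 3 : ℝ)) := by gcongr
      _ = ε₁ * ((N : ℝ) ^ (1 / 2 : ℝ) * (N : ℝ) ^ (1 / 3 : ℝ)) := by ring
      _ = ε₁ * (N : ℝ) ^ (5 / 6 : ℝ) := by rw [← Real.rpow_add hN0]; norm_num
      _ ≤ ε₁ * (N : ℝ) ^ (1 - ν) := by
          apply mul_le_mul_of_nonneg_left _ hε₁0.le
          exact Real.rpow_le_rpow_of_exponent_le hN1' (by linarith)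
      _ = ε₁ * ((N : ℝ) ^ (-ν) * N) := by
          rw [show (1 - ν) = -ν + 1 by ring, Real.rpow_add hN0, Real.rpow_one]
      _ ≤ _ := by
          apply mul_le_mul_of_nonneg_left _ hε₁0.le
          exact mul_le_mul_of_nonneg_right hη1 hN0.le
  have hNM : (N : ℝ) ≤ B * M := by exact_mod_cast hNB
  rw [← hMr, ← mul_div_assoc, div_le_iff₀ hlogN', mul_comm (#A : ℝ)]
  have h2 : (1 - ε₁) * η * X ≥ (1 - ε₁) * η * ((1 - ε₁) ^ 2 * M) := by
    apply mul_le_mul_of_nonneg_left hXlow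
    have : 0 ≤ 1 - ε₁ := by linarith
    positivity
  have h3 : (1 - ε₁) * η * X - ε₁ * η * N - ε₁ * (η * N) ≤ Real.log N' * #A := by linarith
  have h5 : (1 - 3 * ε₁) ≤ (1 - ε₁) ^ 3 := by nlinarith [sq_nonneg ε₁, mul_pos hε₁0 hε₁0]
  have h6 : (1 - ε₁) * η * ((1 - ε₁) ^ 2 * M) = (1 - ε₁) ^ 3 * (η * M) := by ring
  have h7 : ε₁ * η * N ≤ ε₁ * B * (η * M) := by
    calc ε₁ * η * N ≤ ε₁ * η * (B * M) := mul_le_mul_of_nonneg_left hNM (by positivity)
      _ = _ := by ring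
  have h8 : 0 < η * M := by positivity
  have h9 : (1 - ε) * (η * M) ≤ (1 - 3 * ε₁ - 2 * (ε₁ * B)) * (η * M) := by
    apply mul_le_mul_of_nonneg_right _ h8.le
    nlinarith
  nlinarith

end Pool.Agent.H373R2.T3
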