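import Mathlib
import Pool.Agent.H373R2.T3.FracB

namespace Pool.Agent.H373R2.T3
open Finset

/-- from primes with a small fractional part of `√p - 1/2` to primes `n^2 + n + u` -/
lemma block_count_q (y y' H : ℕ) (η : ℝ) (hη1 : η ≤ 1) (hη : 2 * η * (y' : ℝ) + 1 ≤ H) :
    (#((Ioc (y ^ 2 + y) (y' ^ 2 + y')).filter (fun p : ℕ => p.Prime ∧ Int.fract ((p : ℝ) ^ (1 / 2 : ℝ) - 1 / 2) ≤ η)) : ℝ) ≤
      ∑ n ∈ Ico y y', (#{u ∈ Icc 1 H | (u + (n ^ 2 + n)).Prime} : ℝ) := by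
  have hsum : ∑ n ∈ Ico y y', (#{u ∈ Icc 1 H | (u + (n ^ 2 + n)).Prime} : ℝ) =
      (#((Ico y y').sigma (fun n => (Icc 1 H).filter (fun u => (u + (n ^ 2 + n)).Prime))) : ℝ) := by
    rw [card_sigma]; push_cast; rfl
  rw [hsum, Nat.cast_le]
  have key : ∀ p : ℕ, 1 ≤ p → (⌊(p : ℝ) ^ (1 / 2 : ℝ) - 1 / 2⌋₊ ^ 2 + ⌊(p : ℝ) ^ (1 / 2 : ℝ) - 1 / 2⌋₊ < p) := by
    intro p hp
    have hp1 : (1 : ℝ) ≤ p := by exact_mod_cast hp
    have hs1 : 1 ≤ (p : ℝ) ^ (1 / 2 : ℝ) := Real.one_le_rpow hp1 (by norm_num)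
    have hsd : ((p : ℝ) ^ (1 / 2 : ℝ)) ^ 2 = p := by
      rw [← Real.rpow_natCast, ← Real.rpow_mul (Nat.cast_nonneg p)]; norm_num
    set s : ℝ := (p : ℝ) ^ (1 / 2 : ℝ) with hs
    have hn1 : (⌊s - 1 / 2⌋₊ : ℝ) ≤ s - 1 / 2 := Nat.floor_le (by linarith)
    set n := ⌊s - 1 / 2⌋₊ with hn
    have h1 : ((n : ℝ) + 1 / 2) ^ 2 ≤ s ^ 2 := pow_le_pow_left₀ (by positivity) (by linarith) 2
    rw [hsd] at h1
    have h2 : (n : ℝ) ^ 2 + n < p := by nlinarith
    exact_mod_cast h2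
  apply card_le_card_of_injOn (fun p : ℕ => (⟨⌊(p : ℝ) ^ (1 / 2 : ℝ) - 1 / 2⌋₊,
    p - (⌊(p : ℝ) ^ (1 / 2 : ℝ) - 1 / 2⌋₊ ^ 2 + ⌊(p : ℝ) ^ (1 / 2 : ℝ) - 1 / 2⌋₊)⟩ : Σ _ : ℕ, ℕ))
  · intro p hp
    rw [mem_coe, mem_filter, mem_Ioc] at hp
    obtain ⟨⟨hp1, hp2⟩, hp3, hp4⟩ := hp
    have hlt := key p hp3.one_lt.le
    have hp1r : (1 : ℝ) ≤ p := by exact_mod_cast hp3.one_lt.le
    have hs1 : 1 ≤ (p : ℝ) ^ (1 / 2 : ℝ) := Real.one_le_rpow hp1r (by norm_num)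
    have hsd : ((p : ℝ) ^ (1 / 2 : ℝ)) ^ 2 = p := by
      rw [← Real.rpow_natCast, ← Real.rpow_mul (Nat.cast_nonneg p)]; norm_num
    set s : ℝ := (p : ℝ) ^ (1 / 2 : ℝ) with hs
    have hs0 : 0 ≤ s - 1 / 2 := by linarith
    set n := ⌊s - 1 / 2⌋₊ with hn
    have hn1 : (n : ℝ) ≤ s - 1 / 2 := Nat.floor_le hs0
    have hn2 : s - 1 / 2 < n + 1 := Nat.lt_floor_add_one (s - 1 / 2)
    have hfr : Int.fract (s - 1 / 2) = s - 1 / 2 - n := by
      rw [← Int.self_sub_floor, natCast_floor_eq_intCast_floor hs0]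
    rw [hfr] at hp4
    have hn0 : (0 : ℝ) ≤ n := Nat.cast_nonneg n
    have hny' : n < y' := by
      by_contra hcon
      push Not at hcon
      have h1 : (y' : ℝ) ≤ n := by exact_mod_cast hcon
      have h2 : (y' : ℝ) + 1 / 2 ≤ s := by linarith
      have h3 : ((y' : ℝ) + 1 / 2) ^ 2 ≤ s ^ 2 := pow_le_pow_left₀ (by positivity) h2 2
      rw [hsd] at h3
      have h4 : (p : ℝ) ≤ (y' : ℝ) ^ 2 + y' := by exact_mod_cast hp2
      nlinarith
    have hyn : y ≤ n := by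
      by_contra hcon
      push Not at hcon
      have h1 : (n : ℝ) + 1 ≤ y := by exact_mod_cast hcon
      have h2 : s < (y : ℝ) + 1 / 2 := by linarith
      have h3 : s ^ 2 < ((y : ℝ) + 1 / 2) ^ 2 := pow_lt_pow_left₀ h2 (by linarith) (by norm_num)
      rw [hsd] at h3
      have h4 : (y : ℝ) ^ 2 + y + 1 ≤ p := by exact_mod_cast hp1
      nlinarith
    have hle : p - (n ^ 2 + n) ≤ H := by
      have h1 : (n : ℝ) + 1 ≤ y' := by exact_mod_cast hny'
      set t := s - 1 / 2 - n with ht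
      have hst : s = n + 1 / 2 + t := by rw [ht]; ring
      have ht0 : 0 ≤ t := by linarith
      have h2 : (p : ℝ) = n ^ 2 + n + (1 / 4 + (2 * n + 1) * t + t ^ 2) := by
        rw [← hsd, hst]; ring
      have h3 : t ^ 2 ≤ t := by nlinarith
      have hη0 : 0 ≤ 2 * η := by linarith
      have h4 : (2 * (n : ℝ) + 1) * t + t ^ 2 ≤ 2 * η * y' := by
        calc (2 * (n : ℝ) + 1) * t + t ^ 2 ≤ (2 * (n : ℝ) + 1) * t + t := by linarith
          _ = 2 * t * (n + 1) := by ring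
          _ ≤ 2 * η * y' := by gcongr
      have h5 : (p : ℝ) ≤ (n ^ 2 + n : ℕ) + H := by push_cast; linarith
      have h6 : p ≤ (n ^ 2 + n) + H := by exact_mod_cast h5
      omega
    rw [mem_coe, mem_sigma]
    refine ⟨mem_Ico.2 ⟨hyn, hny'⟩, ?_⟩
    rw [mem_filter, mem_Icc]
    refine ⟨⟨Nat.sub_pos_of_lt hlt, hle⟩, ?_⟩
    have e1 : p - (n ^ 2 + n) + (n ^ 2 + n) = p := Nat.sub_add_cancel hlt.le
    show ((p - (n ^ 2 + n)) + (n ^ 2 + n)).Prime
    rw [e1]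
    exact hp3
  · intro p hp q hq hpq
    rw [mem_coe, mem_filter, mem_Ioc] at hp hq
    simp only [Sigma.mk.injEq, heq_eq_eq] at hpq
    obtain ⟨h1, h2⟩ := hpq
    have k1 := key p hp.2.1.one_lt.le
    have k2 := key q hq.2.1.one_lt.le
    rw [h1] at h2 k1
    omega

/-- first moment for short shift ranges, `n^2 + n` -/
theorem firstShort_q (ν : ℝ) (hν0 : 0 < ν) (hν3 : 6 * ν < 1) (ε : ℝ) (hε : 0 < ε) : ∃ c : ℝ, 0 < c ∧ ∃ x₀ : ℕ, ∀ x : ℕ,
      x₀ ≤ x → ∀ H : ℕ, (x : ℝ) ^ (1 - 2 * ν) ≤ H → (H : ℝ) ≤ c * x →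
      (1 - ε) * (x * H / (2 * Real.log x)) ≤ ∑ n ∈ Icc 1 x, (#{u ∈ Icc 1 H | (u + (n ^ 2 + n)).Prime} : ℝ) := by
  -- a slightly larger exponent
  set ν' : ℝ := ν + (1 - 6 * ν) / 12 with hν'
  have hνν' : ν < ν' := by rw [hν']; linarith
  have hν'3 : 6 * ν' < 1 := by rw [hν']; linarith
  have hν'0 : 0 < ν' := by linarith
  set ε₁ : ℝ := min (1 / 2) (ε / 8) with hε₁
  have hε₁0 : 0 < ε₁ := by positivity
  have hε₁1 : ε₁ ≤ 1 / 2 := min_le_left _ _
  have hε₁2 : 8 * ε₁ ≤ ε := by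
    have : ε₁ ≤ ε / 8 := min_le_right _ _
    linarith
  -- the number of blocks
  obtain ⟨j₀, hj₀⟩ := exists_nat_gt (4 / ε₁ + 4)
  have hj₀r : (4 : ℝ) < j₀ := by
    have : 0 ≤ 4 / ε₁ := by positivity
    linarith
  have hj₀d : 4 < j₀ := by exact_mod_cast hj₀r
  have hj₀ε : 4 / ε₁ ≤ j₀ := by linarith
  have hj₀0 : (0 : ℝ) < j₀ := by linarith
  have hj₀ε' : 4 ≤ j₀ * ε₁ := by rwa [div_le_iff₀ hε₁0] at hj₀ε
  set T : ℕ := j₀ ^ 2 with hT
  have hT1 : 1 ≤ T := Nat.one_le_pow _ _ (by omega)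
  have hT0 : (0 : ℝ) < T := by exact_mod_cast hT1
  have hTj : j₀ ≤ T := by rw [hT]; nlinarith
  obtain ⟨N₀, hN₀⟩ := frac_count' (α := 1 / 2) (by norm_num) (by norm_num) ν' hν'0 (by linarith) (by linarith) hν'3 T hT1 ε₁ hε₁0
  -- the condition on the exponent
  have hl : Filter.Tendsto (fun N : ℕ => (N : ℝ)) Filter.atTop Filter.atTop := tendsto_natCast_atTop_atTop
  have h4 : Filter.Tendsto (fun N : ℕ => (N : ℝ) ^ (2 * (ν' - ν))) Filter.atTop Filter.atTop :=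
    (tendsto_rpow_atTop (by linarith)).comp hl
  obtain ⟨x₁, hx₁⟩ := Filter.eventually_atTop.1 (h4.eventually_ge_atTop ((2 * T : ℝ) ^ (2 * ν') * 4))
  -- H is large
  have h5 : Filter.Tendsto (fun N : ℕ => (N : ℝ) ^ (1 - 2 * ν)) Filter.atTop Filter.atTop :=
    (tendsto_rpow_atTop (by linarith)).comp hl
  obtain ⟨x₂, hx₂⟩ := Filter.eventually_atTop.1 (h5.eventually_ge_atTop (1 / ε₁))
  -- logarithms
  obtain ⟨x₃, hx₃⟩ := Filter.eventually_atTop.1 ((Real.tendsto_log_atTop.comp hl).eventually_ge_atTop (1 / ε₁))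
  refine ⟨1 / (2 * j₀ : ℝ), by positivity, x₁ + x₂ + x₃ + T * (N₀ + 2) + 2 * T + j₀ * T + 3, ?_⟩
  intro x hx H hH1 hH2
  have hx3 : (3 : ℝ) ≤ x := by exact_mod_cast (by omega : 3 ≤ x)
  have hx0 : (0 : ℝ) < x := by linarith
  have hlogx : 0 < Real.log x := Real.log_pos (by linarith)
  set w : ℕ := x / T with hw
  have hwT : w * T ≤ x := Nat.div_mul_le_self x T
  have hwT2 : x < (w + 1) * T := by
    have := Nat.lt_mul_div_succ x (by omega : 0 < T)
    rw [← hw] at this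
    calc x < T * (w + 1) := this
      _ = _ := by ring
  have hwbig : N₀ + 2 ≤ w := by
    rw [hw, Nat.le_div_iff_mul_le (by omega)]
    calc (N₀ + 2) * T = T * (N₀ + 2) := by ring
      _ ≤ x := by omega
  have hw0 : (0 : ℝ) < w := by exact_mod_cast (by omega : 0 < w)
  have hwTr : (w : ℝ) * T ≤ x := by exact_mod_cast hwT
  have hwT2r : (x : ℝ) < (w + 1) * T := by exact_mod_cast hwT2
  have hwhalf : (x : ℝ) ≤ 2 * T * w := by
    have h1 : (w : ℝ) + 1 ≤ 2 * w := by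
      have : (1 : ℝ) ≤ w := by exact_mod_cast (by omega : 1 ≤ w)
      linarith
    calc (x : ℝ) ≤ (w + 1) * T := hwT2r.le
      _ ≤ (2 * w) * T := mul_le_mul_of_nonneg_right h1 hT0.le
      _ = _ := by ring
  have hHbig : 1 / ε₁ ≤ (H : ℝ) := (hx₂ x (by omega)).trans hH1
  have hH0 : (0 : ℝ) < H := lt_of_lt_of_le (by positivity) hHbig
  have hHε : 1 ≤ ε₁ * H := by
    rw [div_le_iff₀ hε₁0] at hHbig; linarith
  have hHm : (1 - ε₁) * H ≤ (H : ℝ) - 1 := by linarith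
  have hHm0 : (0 : ℝ) < (H : ℝ) - 1 := by
    have : 0 < (1 - ε₁) * (H : ℝ) := mul_pos (by linarith) hH0
    linarith
  -- log (x^2+x)
  have hlog2 : (1 - ε₁) * Real.log ((x : ℝ) ^ 2 + x) ≤ 2 * Real.log x := by
    have h1 : Real.log ((x : ℝ) ^ 2 + x) ≤ 2 * Real.log x + 1 := by
      calc Real.log ((x : ℝ) ^ 2 + x) ≤ Real.log ((x : ℝ) ^ 2 * Real.exp 1) := by
            apply Real.log_le_log (by positivity)
            have := Real.add_one_le_exp (1 : ℝ)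
            nlinarith [sq_nonneg (x : ℝ)]
        _ = 2 * Real.log x + 1 := by
            rw [Real.log_mul (by positivity) (Real.exp_pos 1).ne', Real.log_exp, Real.log_pow]; push_cast; ring
    have h2 : 1 / ε₁ ≤ Real.log x := hx₃ x (by omega)
    rw [div_le_iff₀ hε₁0] at h2
    have h3 : 0 ≤ Real.log ((x : ℝ) ^ 2 + x) := Real.log_nonneg (by nlinarith)
    have h6 : 2 * Real.log x ≤ Real.log ((x : ℝ) ^ 2 + x) := by
      have : 2 * Real.log x = Real.log ((x : ℝ) ^ 2) := by rw [Real.log_pow]; push_cast; ring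
      rw [this]
      exact Real.log_le_log (by positivity) (by linarith)
    nlinarith
  -- each block
  have hblock : ∀ j ∈ Ico j₀ T, (1 - ε₁) ^ 4 * (w * H / (2 * Real.log x)) ≤
      ∑ n ∈ Ico (j * w) ((j + 1) * w), (#{u ∈ Icc 1 H | (u + (n ^ 2 + n)).Prime} : ℝ) := by
    intro j hj
    rw [mem_Ico] at hj
    have hj0 : (0 : ℝ) < j := by exact_mod_cast (by omega : 0 < j)
    have hjj₀ : (j₀ : ℝ) ≤ j := by exact_mod_cast hj.1
    set y : ℕ := j * w with hy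
    set y' : ℕ := (j + 1) * w with hy'
    have hyw : w ≤ y := by rw [hy]; exact Nat.le_mul_of_pos_left w (by omega)
    have hyr : (y : ℝ) = j * w := by rw [hy]; push_cast; ring
    have hy'r : (y' : ℝ) = (j + 1) * w := by rw [hy']; push_cast; ring
    have hy0 : (0 : ℝ) < y := by rw [hyr]; positivity
    have hy'0 : (0 : ℝ) < y' := by rw [hy'r]; positivity
    have hyy' : y ≤ y' := by rw [hy, hy']; exact Nat.mul_le_mul_right _ (by omega)
    have hyy'r : (y : ℝ) ≤ y' := by exact_mod_cast hyy'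
    have hy1 : (1 : ℝ) ≤ y := by exact_mod_cast (by omega : 1 ≤ y)
    have hy'x : (y' : ℝ) ≤ x := by
      rw [hy'r]
      calc ((j : ℝ) + 1) * w ≤ T * w := by
            apply mul_le_mul_of_nonneg_right _ hw0.le
            exact_mod_cast (by omega : j + 1 ≤ T)
        _ = w * T := by ring
        _ ≤ x := hwTr
    set η : ℝ := ((H : ℝ) - 1) / (2 * y') with hη
    have hη0 : 0 < η := by positivity
    have hxy' : (x : ℝ) ≤ 2 * j₀ * y' := by
      calc (x : ℝ) ≤ 2 * T * w := hwhalf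
        _ = 2 * j₀ * (j₀ * w) := by rw [hT]; push_cast; ring
        _ ≤ 2 * j₀ * y' := by
            apply mul_le_mul_of_nonneg_left _ (by positivity)
            rw [hy'r]
            apply mul_le_mul_of_nonneg_right _ hw0.le
            linarith
    have c6 : η ≤ 1 / 2 := by
      rw [hη, div_le_iff₀ (by positivity)]
      calc (H : ℝ) - 1 ≤ H := by linarith
        _ ≤ 1 / (2 * j₀ : ℝ) * x := hH2
        _ ≤ 1 / (2 * j₀ : ℝ) * (2 * j₀ * y') := by gcongr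
        _ = 1 / 2 * (2 * y') := by field_simp
    have hηH : 2 * η * (y' : ℝ) + 1 ≤ H := by
      have : 2 * η * (y' : ℝ) = (H : ℝ) - 1 := by rw [hη]; field_simp
      linarith
    have hbc := block_count_q y y' H η (by linarith) hηH
    refine le_trans ?_ hbc
    -- conditions
    have c1 : N₀ ≤ y ^ 2 + y := by omega
    have c2 : y ^ 2 + y ≤ y' ^ 2 + y' := Nat.add_le_add (Nat.pow_le_pow_left hyy' 2) hyy'
    have hratio : (y' : ℝ) ≤ 5 / 4 * y := by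
      rw [hy'r, hyr]
      have : (j : ℝ) + 1 ≤ 5 / 4 * j := by linarith
      nlinarith
    have c3 : y' ^ 2 + y' ≤ 2 * (y ^ 2 + y) := by
      have : (y' : ℝ) ^ 2 + y' ≤ 2 * ((y : ℝ) ^ 2 + y) := by
        have h1 : (y' : ℝ) ^ 2 ≤ (5 / 4 * y) ^ 2 := pow_le_pow_left₀ hy'0.le hratio 2
        nlinarith
      exact_mod_cast this
    have hdiff : 2 * (w : ℝ) * y ≤ ((y' : ℝ) ^ 2 + y') - ((y : ℝ) ^ 2 + y) := by
      have h1 : (y' : ℝ) = y + w := by rw [hy'r, hyr]; ring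
      rw [h1]; nlinarith [mul_pos hw0 hw0]
    have c4 : y ^ 2 + y ≤ T * ((y' ^ 2 + y') - (y ^ 2 + y)) := by
      have h1 : (y : ℝ) ^ 2 + y ≤ T * (((y' : ℝ) ^ 2 + y') - ((y : ℝ) ^ 2 + y)) := by
        have h2 : (y : ℝ) ≤ T * w := by
          rw [hyr]
          apply mul_le_mul_of_nonneg_right _ hw0.le
          exact_mod_cast hj.2.le
        calc (y : ℝ) ^ 2 + y ≤ 2 * (y * y) := by nlinarith
          _ ≤ 2 * ((T * w) * y) := by gcongr
          _ = T * (2 * (w : ℝ) * y) := by ring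
          _ ≤ _ := mul_le_mul_of_nonneg_left hdiff hT0.le
      have h2 : ((y ^ 2 + y : ℕ) : ℝ) ≤ ((T * ((y' ^ 2 + y') - (y ^ 2 + y)) : ℕ) : ℝ) := by
        rw [Nat.cast_mul, Nat.cast_sub c2]; push_cast; exact h1
      exact_mod_cast h2
    have c5 : ((y ^ 2 + y : ℕ) : ℝ) ^ (-ν') ≤ η := by
      have h1 : ((y ^ 2 + y : ℕ) : ℝ) ^ (-ν') ≤ (y : ℝ) ^ (-(2 * ν')) := by
        have h2 : (y : ℝ) ^ (-(2 * ν')) = ((y : ℝ) ^ 2) ^ (-ν') := by
          rw [← Real.rpow_natCast, ← Real.rpow_mul hy0.le]; congr 1; push_cast; ring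
        rw [h2]
        apply Real.rpow_le_rpow_of_nonpos (by positivity) _ (by linarith)
        push_cast; linarith
      have h2 : (y : ℝ) ^ (-(2 * ν')) ≤ (x / (2 * T) : ℝ) ^ (-(2 * ν')) := by
        apply Real.rpow_le_rpow_of_nonpos (by positivity) _ (by linarith)
        rw [div_le_iff₀ (by positivity)]
        calc (x : ℝ) ≤ 2 * T * w := hwhalf
          _ = w * (2 * T) := by ring
          _ ≤ y * (2 * T) := by
              apply mul_le_mul_of_nonneg_right _ (by positivity)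
              exact_mod_cast hyw
      have h3 : (x / (2 * T) : ℝ) ^ (-(2 * ν')) = (x : ℝ) ^ (-(2 * ν')) * (2 * T : ℝ) ^ (2 * ν') := by
        rw [Real.div_rpow hx0.le (by positivity), Real.rpow_neg (by positivity : (0 : ℝ) ≤ 2 * T), div_inv_eq_mul]
      have h6 : (2 * T : ℝ) ^ (2 * ν') * 4 ≤ (x : ℝ) ^ (2 * (ν' - ν)) := hx₁ x (by omega)
      refine h1.trans (h2.trans ?_)
      rw [h3, hη, le_div_iff₀ (by positivity)]
      have h7 : (H : ℝ) / 2 ≤ (H : ℝ) - 1 := by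
        have : (1 / 2 : ℝ) * H ≤ (1 - ε₁) * H := mul_le_mul_of_nonneg_right (by linarith) hH0.le
        linarith
      calc (x : ℝ) ^ (-(2 * ν')) * (2 * T : ℝ) ^ (2 * ν') * (2 * y') =
            (x : ℝ) ^ (-(2 * ν')) * ((2 * T : ℝ) ^ (2 * ν') * 4) * y' / 2 := by ring
        _ ≤ (x : ℝ) ^ (-(2 * ν')) * (x : ℝ) ^ (2 * (ν' - ν)) * x / 2 := by
            gcongr
        _ = (x : ℝ) ^ (1 - 2 * ν) / 2 := by
            nth_rewrite 3 [← Real.rpow_one (x : ℝ)]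
            rw [← Real.rpow_add hx0, ← Real.rpow_add hx0]
            congr 2; ring
        _ ≤ H / 2 := by linarith
        _ ≤ _ := h7
    have hfc := hN₀ (y ^ 2 + y) c1 (y' ^ 2 + y') c2 c3 c4 (1 / 2) η c5 c6
    refine le_trans ?_ hfc
    -- final comparison
    have hlogy'0 : 0 < Real.log ((y' ^ 2 + y' : ℕ) : ℝ) := by
      apply Real.log_pos
      push_cast
      nlinarith
    have hlogy' : (1 - ε₁) * Real.log ((y' ^ 2 + y' : ℕ) : ℝ) ≤ 2 * Real.log x := by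
      refine le_trans ?_ hlog2
      apply mul_le_mul_of_nonneg_left _ (by linarith)
      apply Real.log_le_log
      · push_cast; positivity
      · push_cast
        have : (y' : ℝ) ^ 2 ≤ (x : ℝ) ^ 2 := pow_le_pow_left₀ hy'0.le hy'x 2
        linarith
    have hyratio : (1 - ε₁) * y' ≤ y := by
      rw [hy'r, hyr]
      have h1 : (1 - ε₁) * (j + 1 : ℝ) ≤ j := by
        have h2 : 1 ≤ ε₁ * (j + 1) := by
          have : j₀ * ε₁ ≤ (j + 1) * ε₁ := mul_le_mul_of_nonneg_right (by linarith) hε₁0.le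
          linarith
        linarith
      calc (1 - ε₁) * ((j + 1) * w) = ((1 - ε₁) * (j + 1)) * w := by ring
        _ ≤ j * w := mul_le_mul_of_nonneg_right h1 hw0.le
    have hε₁' : 0 ≤ 1 - ε₁ := by linarith
    have hfin : (1 - ε₁) ^ 3 * (w * H / (2 * Real.log x)) ≤
        η * (((y' ^ 2 + y' : ℕ) : ℝ) - ((y ^ 2 + y : ℕ) : ℝ)) / Real.log ((y' ^ 2 + y' : ℕ) : ℝ) := by
      have e1 : (1 - ε₁) ^ 2 * (w * H) ≤ η * (((y' ^ 2 + y' : ℕ) : ℝ) - ((y ^ 2 + y : ℕ) : ℝ)) := by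
        calc (1 - ε₁) ^ 2 * (w * H) = w * ((1 - ε₁) * H) * (1 - ε₁) := by ring
          _ ≤ w * ((H : ℝ) - 1) * (1 - ε₁) := by gcongr
          _ = η * (2 * w * ((1 - ε₁) * y')) := by rw [hη]; field_simp
          _ ≤ η * (2 * w * y) := by gcongr
          _ ≤ η * (((y' : ℝ) ^ 2 + y') - ((y : ℝ) ^ 2 + y)) := mul_le_mul_of_nonneg_left hdiff hη0.le
          _ = _ := by push_cast; rfl
      have e2 : (1 - ε₁) / (2 * Real.log x) ≤ 1 / Real.log ((y' ^ 2 + y' : ℕ) : ℝ) := by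
        rw [div_le_div_iff₀ (by positivity) hlogy'0]
        linarith
      calc (1 - ε₁) ^ 3 * (w * H / (2 * Real.log x)) = ((1 - ε₁) ^ 2 * (w * H)) * ((1 - ε₁) / (2 * Real.log x)) := by ring
        _ ≤ ((1 - ε₁) ^ 2 * (w * H)) * (1 / Real.log ((y' ^ 2 + y' : ℕ) : ℝ)) :=
            mul_le_mul_of_nonneg_left e2 (by positivity)
        _ ≤ (η * (((y' ^ 2 + y' : ℕ) : ℝ) - ((y ^ 2 + y : ℕ) : ℝ))) * (1 / Real.log ((y' ^ 2 + y' : ℕ) : ℝ)) :=
            mul_le_mul_of_nonneg_right e1 (by positivity)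
        _ = _ := by ring
    calc (1 - ε₁) ^ 4 * (w * H / (2 * Real.log x)) = (1 - ε₁) * ((1 - ε₁) ^ 3 * (w * H / (2 * Real.log x))) := by ring
      _ ≤ _ := mul_le_mul_of_nonneg_left hfin (by linarith)
  -- sum over the blocks
  have hsum : ∑ j ∈ Ico j₀ T, ∑ n ∈ Ico (j * w) ((j + 1) * w), (#{u ∈ Icc 1 H | (u + (n ^ 2 + n)).Prime} : ℝ) ≤
      ∑ n ∈ Icc 1 x, (#{u ∈ Icc 1 H | (u + (n ^ 2 + n)).Prime} : ℝ) := by
    have hmid : ∀ T' : ℕ, j₀ ≤ T' → ∑ j ∈ Ico j₀ T', ∑ n ∈ Ico (j * w) ((j + 1) * w), (#{u ∈ Icc 1 H | (u + (n ^ 2 + n)).Prime} : ℝ) =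
        ∑ n ∈ Ico (j₀ * w) (T' * w), (#{u ∈ Icc 1 H | (u + (n ^ 2 + n)).Prime} : ℝ) := by
      intro T' hT'
      induction T', hT' using Nat.le_induction with
      | base => simp
      | succ m hm ih =>
        rw [sum_Ico_succ_top hm, ih, sum_Ico_consecutive]
        · exact Nat.mul_le_mul_right _ hm
        · exact Nat.mul_le_mul_right _ (by omega)
    rw [hmid T hTj]
    apply sum_le_sum_of_subset_of_nonneg
    · intro n hn
      rw [mem_Ico] at hn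
      rw [mem_Icc]
      have h1 : 1 ≤ j₀ * w := Nat.mul_pos (by omega) (by omega)
      have h2 : T * w ≤ x := by rw [mul_comm]; exact hwT
      omega
    · intro n _ _; positivity
  refine le_trans ?_ hsum
  refine le_trans ?_ (sum_le_sum hblock)
  rw [sum_const, Nat.card_Ico, nsmul_eq_mul, Nat.cast_sub hTj]
  -- (T - j0) w ≥ (1-ε₁)² x
  have h5 : (1 - ε₁) ^ 2 * x ≤ ((T : ℝ) - j₀) * w := by
    have h6 : (1 - ε₁) * x ≤ T * w := by
      have h7 : (x : ℝ) - T ≤ T * w := by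
        have : (w + 1 : ℝ) * T = T * w + T := by ring
        linarith
      have h8 : (T : ℝ) ≤ ε₁ * x := by
        have h9 : (j₀ : ℝ) * T ≤ x := by exact_mod_cast (by omega : j₀ * T ≤ x)
        have h10 : (1 : ℝ) ≤ j₀ * ε₁ := by linarith
        calc (T : ℝ) = T * 1 := by ring
          _ ≤ T * (j₀ * ε₁) := mul_le_mul_of_nonneg_left h10 hT0.le
          _ = (j₀ * T) * ε₁ := by ring
          _ ≤ x * ε₁ := mul_le_mul_of_nonneg_right h9 hε₁0.le
          _ = _ := by ring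
      linarith
    have h7 : (1 - ε₁) * (T : ℝ) ≤ T - j₀ := by
      have h8 : (j₀ : ℝ) ≤ ε₁ * T := by
        rw [hT]; push_cast
        have : (1 : ℝ) ≤ j₀ * ε₁ := by linarith
        calc (j₀ : ℝ) = j₀ * 1 := by ring
          _ ≤ j₀ * (j₀ * ε₁) := mul_le_mul_of_nonneg_left this hj₀0.le
          _ = _ := by ring
      linarith
    calc (1 - ε₁) ^ 2 * x = (1 - ε₁) * ((1 - ε₁) * x) := by ring
      _ ≤ (1 - ε₁) * (T * w) := mul_le_mul_of_nonneg_left h6 (by linarith)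
      _ = ((1 - ε₁) * T) * w := by ring
      _ ≤ _ := mul_le_mul_of_nonneg_right h7 hw0.le
  have h6 : (1 - ε) ≤ (1 - ε₁) ^ 6 := by
    have := one_add_mul_le_pow (a := -ε₁) (by linarith) 6
    push_cast at this
    have h7 : (1 + -ε₁) ^ 6 = (1 - ε₁) ^ 6 := by ring
    rw [h7] at this
    linarith
  calc (1 - ε) * (x * H / (2 * Real.log x)) ≤ (1 - ε₁) ^ 6 * (x * H / (2 * Real.log x)) :=
        mul_le_mul_of_nonneg_right h6 (by positivity)
    _ = (1 - ε₁) ^ 4 * (((1 - ε₁) ^ 2 * x) * (H / (2 * Real.log x))) := by ring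
    _ ≤ (1 - ε₁) ^ 4 * ((((T : ℝ) - j₀) * w) * (H / (2 * Real.log x))) := by
        apply mul_le_mul_of_nonneg_left _ (by positivity)
        exact mul_le_mul_of_nonneg_right h5 (by positivity)
    _ = _ := by ring

end Pool.Agent.H373R2.T3
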