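import Mathlib
import Pool.Agent.H373R2.T3.FirstB
import Pool.Agent.H373R2.T3.Core2

namespace Pool.Agent.H373R2.T3
open Finset Polynomial
open Pool.Agent.H373R2.SH

open Classical in
/-- positive proportion of tuples of shifts of `n^d` in a short range of shifts -/
theorem near_main (d : ℕ) (hd : 2 ≤ d) (k : ℕ) (hk : 1 ≤ k) (ν : ℝ) (hν0 : 0 < ν) (hν1 : 3 * ν < 1 - 1 / (d : ℝ))
    (hν2 : ν < 1 / (d : ℝ)) (hν3 : 6 * ν < 1) (θ : ℝ) (hθ0 : 0 < θ) (hθ1 : θ < 1) :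
    ∃ c : ℝ, 0 < c ∧ ∃ y₀ x₀ : ℕ, ∀ x : ℕ, x₀ ≤ x → ∀ H : ℕ, (x : ℝ) ^ ((d : ℝ) - 1 - d * ν) ≤ H → H ≤ x ^ d →
      ∀ z : ℕ, y₀ ≤ z → z ^ 6 ≤ H →
      c * (H : ℝ) ^ k ≤ #((Sx (fun _ : Fin k => H)).filter (fun h =>
        θ * sgS (fun _ n => n ^ d) h z * (x / (d * Real.log x) ^ k) ≤ cntS (fun _ n => n ^ d) h x ∧
        c * (x / (Real.log x) ^ k) ≤ cntS (fun _ n => n ^ d) h x ∧ Function.Injective h)) := by
  have hd0 : (0 : ℝ) < d := by exact_mod_cast (by omega : 0 < d)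
  have hd2 : (2 : ℝ) ≤ d := by exact_mod_cast hd
  have hdeg : (X ^ d : ℕ[X]).natDegree = d := natDegree_X_pow d
  have hdν1 : d * ν < 1 := by
    rw [lt_div_iff₀ hd0] at hν2; linarith
  obtain ⟨ε₁, hε₁, c₁, hc₁, y₀, x₁, hcore⟩ := core_B 2 (by norm_num) hk (X ^ d : ℕ[X]) (by rw [hdeg]; omega) θ hθ0 hθ1
  obtain ⟨K, x₂, hK1, hfirst⟩ := firstT (X ^ d : ℕ[X]) (by rw [hdeg]; omega) ε₁ hε₁
  obtain ⟨c₂, hc₂, x₃, hshort⟩ := firstShort d hd ν hν0 hν1 hν2 hν3 ε₁ hε₁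
  rw [hdeg] at hcore hfirst
  simp only [eval_pow, eval_X] at hcore hfirst
  have hKr : (1 : ℝ) ≤ K := by exact_mod_cast hK1
  set lam : ℝ := min c₂ 1 / (2 * K) with hlam
  have hlam0 : 0 < lam := by positivity
  have hlam1 : lam ≤ 1 := by
    rw [hlam, div_le_one (by positivity)]
    have := min_le_right c₂ 1
    linarith
  obtain ⟨y₁, hy₁⟩ := exists_nat_gt (1 / lam)
  -- largeness of x
  have hl : Filter.Tendsto (fun N : ℕ => (N : ℝ)) Filter.atTop Filter.atTop := tendsto_natCast_atTop_atTop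
  have h4 : Filter.Tendsto (fun N : ℕ => (N : ℝ) ^ (d * ν)) Filter.atTop Filter.atTop :=
    (tendsto_rpow_atTop (by positivity)).comp hl
  obtain ⟨x₄, hx₄⟩ := Filter.eventually_atTop.1 (h4.eventually_ge_atTop (2 / min c₂ 1))
  obtain ⟨x₅, hx₅⟩ := exists_nat_gt (2 / min c₂ 1)
  have hmin0 : 0 < min c₂ 1 := lt_min hc₂ one_pos
  set c : ℝ := c₁ * lam ^ k / (d : ℝ) ^ k with hc
  have hc0 : 0 < c := by positivity
  have hdk : (1 : ℝ) ≤ (d : ℝ) ^ k := one_le_pow₀ (by linarith)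
  have hlamk : lam ^ k ≤ 1 := pow_le_one₀ hlam0.le hlam1
  have hcc₁ : c ≤ c₁ * lam ^ k := by
    rw [hc, div_le_iff₀ (by positivity)]
    have : 0 ≤ c₁ * lam ^ k := by positivity
    nlinarith
  have hcc₂ : c ≤ c₁ / (d : ℝ) ^ k := by
    rw [hc]
    apply div_le_div_of_nonneg_right _ (by positivity)
    nlinarith
  refine ⟨c, hc0, y₀ + y₁ + 1, x₁ + x₂ + x₃ + x₄ + x₅ + 3, fun x hx H hH1 hH2 z hz hz6 => ?_⟩
  have hx3 : (3 : ℝ) ≤ x := by exact_mod_cast (by omega : 3 ≤ x)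
  have hx0 : (0 : ℝ) < x := by linarith
  have hx1 : (1 : ℝ) ≤ x := by linarith
  have hlogx : 0 < Real.log x := Real.log_pos (by linarith)
  -- H is at least the square root of x
  have hroot : ∀ h : ℕ, (x : ℝ) ^ ((d : ℝ) - 1 - d * ν) ≤ h → x ≤ h ^ 2 := by
    intro h hh
    have h1 : (x : ℝ) ^ (1 / 2 : ℝ) ≤ h := by
      refine le_trans (Real.rpow_le_rpow_of_exponent_le hx1 ?_) hh
      nlinarith
    have h2 : (x : ℝ) ≤ (h : ℝ) ^ 2 := by
      calc (x : ℝ) = ((x : ℝ) ^ (1 / 2 : ℝ)) ^ 2 := by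
            rw [← Real.rpow_natCast, ← Real.rpow_mul hx0.le]; norm_num
        _ ≤ _ := pow_le_pow_left₀ (by positivity) h1 2
    exact_mod_cast h2
  -- the general step
  have hstep : ∀ h : ℕ, h ≤ H → lam * H ≤ h → (x : ℝ) ^ ((d : ℝ) - 1 - d * ν) ≤ h → z ^ 5 ≤ h →
      (1 - ε₁) * (x * h / (d * Real.log x)) ≤ ∑ n ∈ Icc 1 x, (#{u ∈ Icc 1 h | (u + n ^ d).Prime} : ℝ) →
      c * (H : ℝ) ^ k ≤ #((Sx (fun _ : Fin k => H)).filter (fun h =>
        θ * sgS (fun _ n => n ^ d) h z * (x / (d * Real.log x) ^ k) ≤ cntS (fun _ n => n ^ d) h x ∧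
        c * (x / (Real.log x) ^ k) ≤ cntS (fun _ n => n ^ d) h x ∧ Function.Injective h)) := by
    intro h hhH hlamh hxh hz5 hfm
    have h1 := hcore x (by omega) h (hroot h hxh) hfm z (by omega) hz5
    have h2 : c * (H : ℝ) ^ k ≤ c₁ * (h : ℝ) ^ k := by
      calc c * (H : ℝ) ^ k ≤ (c₁ * lam ^ k) * (H : ℝ) ^ k := mul_le_mul_of_nonneg_right hcc₁ (by positivity)
        _ = c₁ * (lam * H) ^ k := by rw [mul_pow]; ring
        _ ≤ _ := mul_le_mul_of_nonneg_left (pow_le_pow_left₀ (by positivity) hlamh k) hc₁.le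
    refine h2.trans (h1.trans ?_)
    rw [Nat.cast_le]
    apply card_le_card
    intro a ha
    rw [mem_filter] at ha ⊢
    obtain ⟨ha1, ha2, ha3, ha4⟩ := ha
    refine ⟨?_, ha2, ?_, ha4⟩
    · rw [mem_Sx] at ha1 ⊢
      exact fun i => ⟨(ha1 i).1, (ha1 i).2.trans hhH⟩
    · refine le_trans ?_ ha3
      calc c * (x / (Real.log x) ^ k) ≤ c₁ / (d : ℝ) ^ k * (x / (Real.log x) ^ k) := mul_le_mul_of_nonneg_right hcc₂ (by positivity)
        _ = c₁ * (x / (d * Real.log x) ^ k) := by rw [mul_pow]; field_simp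
  have hz1 : 1 ≤ z := by omega
  have hz5 : z ^ 5 ≤ H := (Nat.pow_le_pow_right hz1 (by norm_num)).trans hz6
  have hH0 : (0 : ℝ) ≤ H := Nat.cast_nonneg H
  by_cases hcase : (H : ℝ) ≤ c₂ * (x : ℝ) ^ (d - 1)
  · apply hstep H le_rfl (by nlinarith) hH1 hz5
    exact hshort x (by omega) H hH1 hcase
  · by_cases hcase2 : K * x ^ (d - 1) ≤ H
    · apply hstep H le_rfl (by nlinarith) hH1 hz5
      exact hfirst x (by omega) H hcase2 hH2
    · push Not at hcase hcase2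
      have hxd : (1 : ℝ) ≤ (x : ℝ) ^ (d - 1) := one_le_pow₀ hx1
      have hxd2 : (x : ℝ) ≤ (x : ℝ) ^ (d - 1) := by
        calc (x : ℝ) = (x : ℝ) ^ 1 := (pow_one _).symm
          _ ≤ _ := pow_le_pow_right₀ hx1 (by omega)
      have hbig : 2 ≤ min c₂ 1 * (x : ℝ) ^ (d - 1) := by
        have h1 : 2 / min c₂ 1 < x := hx₅.trans_le (by exact_mod_cast (by omega : x₅ ≤ x))
        rw [div_lt_iff₀ hmin0] at h1
        nlinarith
      set h : ℕ := ⌊min c₂ 1 * (x : ℝ) ^ (d - 1)⌋₊ with hh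
      have hh1 : (h : ℝ) ≤ min c₂ 1 * (x : ℝ) ^ (d - 1) := Nat.floor_le (by positivity)
      have hh2 : min c₂ 1 / 2 * (x : ℝ) ^ (d - 1) ≤ h := by
        have := (Nat.lt_floor_add_one (min c₂ 1 * (x : ℝ) ^ (d - 1))).le
        rw [← hh] at this
        linarith
      have hhH : h ≤ H := by
        have h1 : (h : ℝ) ≤ H := by
          refine hh1.trans (le_trans ?_ hcase.le)
          exact mul_le_mul_of_nonneg_right (min_le_left _ _) (by positivity)
        exact_mod_cast h1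
      have hHK : (H : ℝ) ≤ K * (x : ℝ) ^ (d - 1) := by exact_mod_cast hcase2.le
      have hlamh : lam * H ≤ h := by
        refine le_trans ?_ hh2
        calc lam * H ≤ lam * (K * (x : ℝ) ^ (d - 1)) := mul_le_mul_of_nonneg_left hHK hlam0.le
          _ = _ := by rw [hlam]; field_simp
      apply hstep h hhH hlamh
      · refine le_trans ?_ hh2
        have h1 : 2 / min c₂ 1 ≤ (x : ℝ) ^ (d * ν) := hx₄ x (by omega)
        have h2 : (x : ℝ) ^ (d - 1) = (x : ℝ) ^ (d * ν) * (x : ℝ) ^ ((d : ℝ) - 1 - d * ν) := by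
          rw [← Real.rpow_natCast, ← Real.rpow_add hx0, Nat.cast_sub (by omega)]; congr 1; push_cast; ring
        rw [h2]
        have h3 : 1 ≤ min c₂ 1 / 2 * (x : ℝ) ^ (d * ν) := by
          rw [div_le_iff₀ hmin0] at h1
          linarith
        calc (x : ℝ) ^ ((d : ℝ) - 1 - d * ν) = 1 * (x : ℝ) ^ ((d : ℝ) - 1 - d * ν) := (one_mul _).symm
          _ ≤ (min c₂ 1 / 2 * (x : ℝ) ^ (d * ν)) * (x : ℝ) ^ ((d : ℝ) - 1 - d * ν) :=
              mul_le_mul_of_nonneg_right h3 (by positivity)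
          _ = _ := by ring
      · have h1 : (z : ℝ) ^ 5 ≤ lam * H := by
          have h2 : 1 / lam < z := hy₁.trans_le (by exact_mod_cast (by omega : y₁ ≤ z))
          rw [div_lt_iff₀ hlam0] at h2
          have h3 : (z : ℝ) ^ 6 ≤ H := by exact_mod_cast hz6
          have hz0 : (0 : ℝ) < z := by exact_mod_cast hz1
          calc (z : ℝ) ^ 5 = 1 * (z : ℝ) ^ 5 := (one_mul _).symm
            _ ≤ (z * lam) * (z : ℝ) ^ 5 := mul_le_mul_of_nonneg_right h2.le (by positivity)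
            _ = lam * (z : ℝ) ^ 6 := by ring
            _ ≤ _ := mul_le_mul_of_nonneg_left h3 hlam0.le
        exact_mod_cast h1.trans hlamh
      · apply hshort x (by omega) h
        · refine le_trans ?_ hh2
          have h1 : 2 / min c₂ 1 ≤ (x : ℝ) ^ (d * ν) := hx₄ x (by omega)
          have h2 : (x : ℝ) ^ (d - 1) = (x : ℝ) ^ (d * ν) * (x : ℝ) ^ ((d : ℝ) - 1 - d * ν) := by
            rw [← Real.rpow_natCast, ← Real.rpow_add hx0, Nat.cast_sub (by omega)]; congr 1; push_cast; ring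
          rw [h2]
          have h3 : 1 ≤ min c₂ 1 / 2 * (x : ℝ) ^ (d * ν) := by
            rw [div_le_iff₀ hmin0] at h1
            linarith
          calc (x : ℝ) ^ ((d : ℝ) - 1 - d * ν) = 1 * (x : ℝ) ^ ((d : ℝ) - 1 - d * ν) := (one_mul _).symm
            _ ≤ (min c₂ 1 / 2 * (x : ℝ) ^ (d * ν)) * (x : ℝ) ^ ((d : ℝ) - 1 - d * ν) :=
                mul_le_mul_of_nonneg_right h3 (by positivity)
            _ = _ := by ring
        · refine hh1.trans ?_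
          exact mul_le_mul_of_nonneg_right (min_le_left _ _) (by positivity)

end Pool.Agent.H373R2.T3
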